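import Mathlib

/-!
From mean squares for single lengths to all lengths simultaneously.
-/

namespace Pool.Agent.TH892

open Finset Filter

/-- from the mean square for each single `K` and `p` to all `K` and `p` simultaneously -/
lemma all_K2 {ι κ : Type*} (T : Finset ι) (PP : Finset κ) (W : ι → κ → ℕ → ℂ) (U V H : ℕ) (a : ℝ)
    (B : ℕ) (hL : 8 ≤ Real.log H) (hPP : (PP.card : ℝ) ≤ Real.log H ^ V)
    (hW : ∀ c ∈ T, ∀ p ∈ PP, ∀ K K' : ℕ, K ≤ K' → ‖W c p K' - W c p K‖ ≤ (K' : ℝ) - K)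
    (hmean : ∀ K : ℕ, a ≤ K → K * Real.log H ^ B ≤ H → ∀ p ∈ PP,
      ∑ c ∈ T, ‖W c p K‖ ^ 2 ≤ T.card * (K : ℝ) ^ 2 / Real.log H ^ (4 * U + 5 + V))
    (ha : Real.log H ^ (U + 1) ≤ a) (P : ι → Prop) [DecidablePred P]
    (hP : ∀ c ∈ T, P c → ∃ K : ℕ, 4 * a ≤ K ∧ K * Real.log H ^ B ≤ H ∧ ∃ p ∈ PP,
      K / Real.log H ^ U < ‖W c p K‖) :
    ((T.filter P).card : ℝ) ≤ T.card / Real.log H ^ U := by
  classical
  set L := Real.log H with hLdef
  have hL0 : 0 < L := by linarith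
  have hL1 : 1 ≤ L := by linarith
  have hLp0 : ∀ n : ℕ, 0 < L ^ n := fun n => by positivity
  have hLp : ∀ n : ℕ, 1 ≤ L ^ n := fun n => one_le_pow₀ hL1
  have ha1 : 1 ≤ a := (hLp _).trans ha
  set η : ℝ := 1 / L ^ (U + 1) with hη
  have hη0 : 0 < η := by positivity
  have hη1 : η ≤ 1 := by
    rw [hη, div_le_one (hLp0 _)]
    exact hLp _
  set G : ℕ → ℕ := fun i => ⌊(1 + η) ^ i⌋₊ with hG
  set N : ℕ := ⌊2 * L ^ (U + 2)⌋₊ with hN
  set Bd : ℕ × κ → Finset ι := fun z => T.filter (fun c => (a ≤ G z.1 ∧ G z.1 * L ^ B ≤ H) ∧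
    G z.1 / L ^ (U + 1) < ‖W c z.2 (G z.1)‖) with hBd
  have hcard : ∀ z ∈ (range (N + 1)) ×ˢ PP, ((Bd z).card : ℝ) ≤ T.card / L ^ (2 * U + 3 + V) := by
    intro z hz
    rw [mem_product] at hz
    by_cases had : a ≤ G z.1 ∧ G z.1 * L ^ B ≤ H
    · have hGpos : (0:ℝ) < G z.1 := by linarith [had.1]
      have h1 : ((Bd z).card : ℝ) * (G z.1 / L ^ (U + 1)) ^ 2 ≤
          T.card * (G z.1 : ℝ) ^ 2 / L ^ (4 * U + 5 + V) := by
        calc ((Bd z).card : ℝ) * (G z.1 / L ^ (U + 1)) ^ 2 =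
              ∑ _c ∈ Bd z, ((G z.1 : ℝ) / L ^ (U + 1)) ^ 2 := by
              rw [sum_const, nsmul_eq_mul]
          _ ≤ ∑ c ∈ Bd z, ‖W c z.2 (G z.1)‖ ^ 2 := by
              refine sum_le_sum fun c hc => ?_
              rw [hBd, mem_filter] at hc
              apply pow_le_pow_left₀ (by positivity) hc.2.2.le
          _ ≤ ∑ c ∈ T, ‖W c z.2 (G z.1)‖ ^ 2 :=
              sum_le_sum_of_subset_of_nonneg (filter_subset _ _) fun _ _ _ => by positivity
          _ ≤ _ := hmean _ had.1 had.2 z.2 hz.2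
      have h2 : 0 < ((G z.1 : ℝ) / L ^ (U + 1)) ^ 2 := by positivity
      have h3 : ((Bd z).card : ℝ) * (G z.1 / L ^ (U + 1)) ^ 2 ≤
          (T.card / L ^ (2 * U + 3 + V)) * (G z.1 / L ^ (U + 1)) ^ 2 := by
        refine h1.trans (le_of_eq ?_)
        rw [show 4 * U + 5 + V = (2 * U + 3 + V) + (U + 1) * 2 by ring,
          pow_add L (2 * U + 3 + V) ((U + 1) * 2), pow_mul, div_pow]
        field_simp
      exact le_of_mul_le_mul_right h3 h2
    · have h1 : Bd z = ∅ := by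
        rw [hBd]
        apply filter_eq_empty_iff.mpr
        intro c _ h
        exact had h.1
      rw [h1, card_empty, Nat.cast_zero]
      positivity
  have hsub : T.filter P ⊆ ((range (N + 1)) ×ˢ PP).biUnion Bd := by
    intro c hc
    rw [mem_filter] at hc
    obtain ⟨hcT, hPc⟩ := hc
    obtain ⟨K, hK1, hK2, p, hp, hK3⟩ := hP c hcT hPc
    by_contra hnot
    have hKr : (1:ℝ) ≤ K := by linarith
    obtain ⟨i, hi1, hi2⟩ := exists_nat_pow_near hKr (show 1 < 1 + η by linarith)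
    have hHr : (K:ℝ) ≤ H := by
      calc (K:ℝ) ≤ K * L ^ B := le_mul_of_one_le_right (by linarith) (hLp _)
        _ ≤ H := hK2
    have hiN : i ≤ N := by
      have h1 : (i:ℝ) * Real.log (1 + η) ≤ L := by
        rw [← Real.log_pow]
        exact Real.log_le_log (by positivity) (hi1.trans hHr)
      have h2 : η / 2 ≤ Real.log (1 + η) := by
        have h3 := Real.one_sub_inv_le_log_of_pos (show 0 < 1 + η by linarith)
        refine le_trans ?_ h3
        have h4 : 1 - (1 + η)⁻¹ = η / (1 + η) := by field_simp; ring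
        rw [h4]
        apply div_le_div_of_nonneg_left hη0.le (by linarith) (by linarith)
      have h3 : (i:ℝ) * (η / 2) ≤ L := le_trans (by gcongr) h1
      have h4 : (i:ℝ) ≤ 2 * L ^ (U + 2) := by
        have h5 : (i:ℝ) * (η / 2) * (2 * L ^ (U + 1)) ≤ L * (2 * L ^ (U + 1)) := by gcongr
        have h6 : (i:ℝ) * (η / 2) * (2 * L ^ (U + 1)) = i := by
          rw [hη]
          field_simp
        rw [h6] at h5
        refine h5.trans (le_of_eq ?_)
        rw [show U + 2 = U + 1 + 1 by ring, pow_succ]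
        ring
      exact Nat.le_floor h4
    have hGi : G i ≤ K := by
      have h1 : (G i : ℝ) ≤ K := (Nat.floor_le (by positivity)).trans hi1
      exact_mod_cast h1
    have hGir : (G i : ℝ) ≤ K := by exact_mod_cast hGi
    have hpow : (1 + η) ^ (i + 1) = (1 + η) ^ i + η * (1 + η) ^ i := by ring
    have hG3 : (1 + η) ^ i < (G i : ℝ) + 1 := Nat.lt_floor_add_one _
    have hηK : η * (1 + η) ^ i ≤ η * K := by gcongr
    have hηK1 : 1 ≤ η * K := by
      rw [hη, div_mul_eq_mul_div, one_mul, one_le_div (hLp0 _)]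
      linarith
    have hdiff : (K : ℝ) - G i ≤ 2 * (η * K) := by linarith
    have hG5 : a ≤ G i := by
      have h1 : (K:ℝ) < 2 * (1 + η) ^ i := by
        refine lt_of_lt_of_le hi2 ?_
        rw [hpow]
        have : η * (1 + η) ^ i ≤ 1 * (1 + η) ^ i := by gcongr
        linarith
      linarith
    have hG7 : (G i : ℝ) * L ^ B ≤ H := by
      calc (G i : ℝ) * L ^ B ≤ K * L ^ B := by gcongr
        _ ≤ H := hK2
    have hn1 : ‖W c p (G i)‖ ≤ G i / L ^ (U + 1) := by
      by_contra hh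
      apply hnot
      rw [mem_biUnion]
      refine ⟨(i, p), mem_product.mpr ⟨by rw [mem_range]; omega, hp⟩, ?_⟩
      rw [hBd, mem_filter]
      exact ⟨hcT, ⟨hG5, hG7⟩, not_le.mp hh⟩
    have hn2 : ‖W c p K‖ ≤ ‖W c p (G i)‖ + ((K : ℝ) - G i) := by
      have h1 := hW c hcT p hp _ _ hGi
      have h2 : W c p K = W c p (G i) + (W c p K - W c p (G i)) := by ring
      rw [h2]
      exact (norm_add_le _ _).trans (by linarith)
    refine absurd hK3 (not_lt.mpr ?_)
    calc ‖W c p K‖ ≤ G i / L ^ (U + 1) + 2 * (η * K) := by linarith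
      _ ≤ K / L ^ (U + 1) + 2 * (η * K) := by gcongr
      _ = K / L ^ U * (3 / L) := by
          rw [hη, pow_succ]
          field_simp
          ring
      _ ≤ K / L ^ U * 1 := by
          have : 3 / L ≤ 1 := by
            rw [div_le_one hL0]
            linarith
          gcongr
      _ = K / L ^ U := mul_one _
  have hN1 : ((N + 1 : ℕ) : ℝ) ≤ L ^ (U + 3) := by
    have h1 : (N : ℝ) ≤ 2 * L ^ (U + 2) := Nat.floor_le (by positivity)
    push_cast
    have h2 := hLp (U + 2)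
    have h3 : L ^ (U + 3) = L * L ^ (U + 2) := by rw [show U + 3 = U + 2 + 1 by ring, pow_succ]; ring
    rw [h3]
    nlinarith
  calc ((T.filter P).card : ℝ) ≤ ((((range (N + 1)) ×ˢ PP).biUnion Bd).card : ℝ) := by
        exact_mod_cast card_le_card hsub
    _ ≤ ∑ z ∈ (range (N + 1)) ×ˢ PP, ((Bd z).card : ℝ) := by exact_mod_cast card_biUnion_le
    _ ≤ ∑ _z ∈ (range (N + 1)) ×ˢ PP, ((T.card : ℝ) / L ^ (2 * U + 3 + V)) :=
        sum_le_sum fun z hz => hcard z hz
    _ = ((N + 1 : ℕ) : ℝ) * PP.card * (T.card / L ^ (2 * U + 3 + V)) := by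
        rw [sum_const, card_product, card_range, nsmul_eq_mul]
        push_cast
        ring
    _ ≤ L ^ (U + 3) * L ^ V * (T.card / L ^ (2 * U + 3 + V)) := by gcongr
    _ = T.card / L ^ U := by
        rw [show 2 * U + 3 + V = U + ((U + 3) + V) by ring, pow_add L U ((U + 3) + V),
          pow_add L (U + 3) V]
        field_simp

end Pool.Agent.TH892
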