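import Pool.Agent.W468.CFMost

/-!
Sums of `(D / p) / p` over dyadic blocks of primes, with power saving thresholds.
-/

set_option autoImplicit false

namespace Pool.Agent.TH892
open Finset Filter Topology
open Pool.Agent.H307R2.OP (J PB badCount)
open Pool.Agent.W468.ConjF

open Classical in
/-- bad kernels -/
noncomputable def BadW (W Δ i0 I : ℕ) : Finset ℕ := (range (Δ + 1)).filter (fun δ => Squarefree δ ∧ δ % 2 = 1 ∧
  ∃ i ∈ Icc i0 I, ∃ r ∈ ({1, 3, 5, 7} : Finset ℕ), 1 / (i : ℝ) ^ W < |∑ p ∈ PB i r, J p δ / p|)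

lemma badW_card (W Δ i0 I m : ℕ) (hi0 : 1 ≤ i0) (hm : 1 ≤ m) (hΔ : Δ ^ 3 ≤ (2 * 2 ^ i0) ^ m) :
    (#(BadW W Δ i0 I) : ℝ) ≤ (I : ℝ) * (8 * (2 * m * (I : ℝ) ^ (2 * W)) ^ m) := by
  classical
  have hsub : BadW W Δ i0 I ⊆ (Icc i0 I).biUnion (fun i => ({1, 3, 5, 7} : Finset ℕ).biUnion (fun r =>
      (range (Δ + 1)).filter (fun δ => Squarefree δ ∧ δ % 2 = 1 ∧ 1 / (i : ℝ) ^ W < |∑ p ∈ PB i r, J p δ / p|))) := by
    intro δ hδ
    rw [BadW, mem_filter] at hδ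
    obtain ⟨h1, h2, h3, i, hi, r, hr, h4⟩ := hδ
    rw [mem_biUnion]
    refine ⟨i, hi, ?_⟩
    rw [mem_biUnion]
    exact ⟨r, hr, mem_filter.2 ⟨h1, h2, h3, h4⟩⟩
  have hone : ∀ i ∈ Icc i0 I, ∀ r ∈ ({1, 3, 5, 7} : Finset ℕ),
      (#((range (Δ + 1)).filter (fun δ => Squarefree δ ∧ δ % 2 = 1 ∧ 1 / (i : ℝ) ^ W < |∑ p ∈ PB i r, J p δ / p|)) : ℝ) ≤
        2 * (2 * m * (I : ℝ) ^ (2 * W)) ^ m := by
    intro i hi r hr
    rw [mem_Icc] at hi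
    have hi1 : (1 : ℝ) ≤ i := by exact_mod_cast (by omega : 1 ≤ i)
    have h1 := badCount (2 ^ i) Δ m (1 / (i : ℝ) ^ W) (PB i r)
      ((range (Δ + 1)).filter (fun δ => Squarefree δ ∧ δ % 2 = 1 ∧ 1 / (i : ℝ) ^ W < |∑ p ∈ PB i r, J p δ / p|))
      (by
        calc 2 = 2 ^ 1 := rfl
          _ ≤ 2 ^ i := Nat.pow_le_pow_right (by norm_num) (by omega))
      hm (hΔ.trans (Nat.pow_le_pow_left (Nat.mul_le_mul_left 2 (Nat.pow_le_pow_right (by norm_num) hi.1)) m))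
      (by positivity)
      (by
        intro p hp
        rw [PB, mem_filter, mem_Ioc] at hp
        refine ⟨hp.2.1, hp.1.1, ?_⟩
        have := hp.1.2
        rw [pow_succ] at this
        omega)
      (by
        intro δ hδ
        rw [mem_filter, mem_range] at hδ
        exact ⟨hδ.2.1, hδ.2.2.1, by omega, hδ.2.2.2⟩)
    refine h1.trans ?_
    have h2 : 2 * (m : ℝ) / (1 / (i : ℝ) ^ W) ^ 2 = 2 * m * (i : ℝ) ^ (2 * W) := by
      rw [one_div, inv_pow, div_inv_eq_mul, ← pow_mul, mul_comm W 2]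
    rw [h2]
    have h3 : (i : ℝ) ≤ I := by exact_mod_cast hi.2
    gcongr
  have hN := (card_le_card hsub).trans (card_biUnion_le.trans (sum_le_sum fun i (_ : i ∈ Icc i0 I) => card_biUnion_le))
  have hR := (Nat.cast_le (α := ℝ)).2 hN
  simp only [Nat.cast_sum] at hR
  calc (#(BadW W Δ i0 I) : ℝ) ≤ ∑ i ∈ Icc i0 I, ∑ r ∈ ({1, 3, 5, 7} : Finset ℕ), (#((range (Δ + 1)).filter (fun δ => Squarefree δ ∧ δ % 2 = 1 ∧
        1 / (i : ℝ) ^ W < |∑ p ∈ PB i r, J p δ / p|)) : ℝ) := hR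
    _ ≤ ∑ i ∈ Icc i0 I, ∑ r ∈ ({1, 3, 5, 7} : Finset ℕ), 2 * (2 * m * (I : ℝ) ^ (2 * W)) ^ m :=
        sum_le_sum fun i hi => sum_le_sum fun r hr => hone i hi r hr
    _ = #(Icc i0 I) * (8 * (2 * m * (I : ℝ) ^ (2 * W)) ^ m) := by
        simp only [sum_const, nsmul_eq_mul, show #({1, 3, 5, 7} : Finset ℕ) = 4 from rfl]
        push_cast; ring
    _ ≤ (I : ℝ) * (8 * (2 * m * (I : ℝ) ^ (2 * W)) ^ m) := by
        apply mul_le_mul_of_nonneg_right _ (by positivity)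
        rw [Nat.card_Icc]
        exact_mod_cast (by omega : I + 1 - i0 ≤ I)

/-- sum over the blocks -/
lemma mid_sumW (D : ℤ) (W i0 I : ℕ) (L : ℝ) (hL : 0 ≤ L) (h2 : 2 ≤ i0) (h : i0 ≤ I)
    (hb : ∀ i ∈ Icc i0 I, |∑ p ∈ Blk i, (jacobiSym D p : ℝ) / p| ≤
      4 * (1 / (i : ℝ) ^ (W + 2)) + 4 * (L / 2 ^ i)) :
    |SJ D (2 ^ i0) (2 ^ (I + 1))| ≤ 4 / ((i0 : ℝ) - 1) ^ (W + 1) + 8 * L / 2 ^ i0 := by
  rw [SJ_blocks D i0 I h]
  refine (abs_sum_le_sum_abs _ _).trans ((sum_le_sum hb).trans ?_)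
  rw [sum_add_distrib, ← mul_sum, ← mul_sum]
  have hi1 : (1 : ℝ) ≤ (i0 : ℝ) - 1 := by
    have : (2 : ℝ) ≤ i0 := by exact_mod_cast h2
    linarith
  have h3 : ∑ i ∈ Icc i0 I, 1 / (i : ℝ) ^ 2 ≤ 1 / ((i0 : ℝ) - 1) := by
    have e : Icc i0 I = Ioc (i0 - 1) I := by
      ext i; simp only [mem_Icc, mem_Ioc]; omega
    rw [e]
    refine (sum_inv_sq (i0 - 1) I (by omega) (by omega)).trans ?_
    rw [Nat.cast_sub (by omega), Nat.cast_one]
    have : (0 : ℝ) ≤ 1 / (I : ℝ) := by positivity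
    linarith
  have h3' : ∑ i ∈ Icc i0 I, 1 / (i : ℝ) ^ (W + 2) ≤ 1 / ((i0 : ℝ) - 1) ^ (W + 1) := by
    calc ∑ i ∈ Icc i0 I, 1 / (i : ℝ) ^ (W + 2)
        ≤ ∑ i ∈ Icc i0 I, 1 / ((i0 : ℝ) - 1) ^ W * (1 / (i : ℝ) ^ 2) := by
          refine sum_le_sum fun i hi => ?_
          rw [mem_Icc] at hi
          have h1 : (i0 : ℝ) ≤ i := by exact_mod_cast hi.1
          rw [div_mul_div_comm, one_mul, pow_add]
          apply one_div_le_one_div_of_le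
          · have : (0 : ℝ) < i := by linarith
            positivity
          · have h2 : ((i0 : ℝ) - 1) ^ W ≤ (i : ℝ) ^ W := pow_le_pow_left₀ (by linarith) (by linarith) W
            have h0 : (0 : ℝ) ≤ (i : ℝ) ^ 2 := by positivity
            exact mul_le_mul_of_nonneg_right h2 h0
      _ = 1 / ((i0 : ℝ) - 1) ^ W * ∑ i ∈ Icc i0 I, 1 / (i : ℝ) ^ 2 := by rw [mul_sum]
      _ ≤ 1 / ((i0 : ℝ) - 1) ^ W * (1 / ((i0 : ℝ) - 1)) := by
          apply mul_le_mul_of_nonneg_left h3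
          have : (0 : ℝ) < (i0 : ℝ) - 1 := by linarith
          positivity
      _ = 1 / ((i0 : ℝ) - 1) ^ (W + 1) := by
          rw [div_mul_div_comm, one_mul, ← pow_succ]
  have h4 : ∑ i ∈ Icc i0 I, L / (2 : ℝ) ^ i ≤ 2 * L / 2 ^ i0 := by
    have e : ∀ i ∈ Icc i0 I, L / (2 : ℝ) ^ i = L * (1 / 2 ^ i) := by
      intro i _; ring
    rw [sum_congr rfl e, ← mul_sum, sum_half i0 I h]
    have h5 : L * (2 / 2 ^ i0 - 1 / 2 ^ I) = 2 * L / 2 ^ i0 - L * (1 / 2 ^ I) := by ring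
    rw [h5]
    have : 0 ≤ L * (1 / (2 : ℝ) ^ I) := by positivity
    linarith
  have h5 : 4 / ((i0 : ℝ) - 1) ^ (W + 1) + 8 * L / 2 ^ i0 =
      4 * (1 / ((i0 : ℝ) - 1) ^ (W + 1)) + 4 * (2 * L / 2 ^ i0) := by ring
  rw [h5]
  linarith

/-- triples `(a, b, c)` of height at most `H` with `a ≥ 1` -/
noncomputable def Tr (H : ℕ) : Finset (ℤ × ℤ × ℤ) := Icc (1 : ℤ) H ×ˢ Icc (-(H : ℤ)) H ×ˢ Icc (-(H : ℤ)) H

lemma mem_Tr (H : ℕ) (t : ℤ × ℤ × ℤ) : t ∈ Tr H ↔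
    (1 ≤ t.1 ∧ t.1 ≤ H) ∧ (-(H : ℤ) ≤ t.2.1 ∧ t.2.1 ≤ H) ∧ (-(H : ℤ) ≤ t.2.2 ∧ t.2.2 ≤ H) := by
  rw [Tr, mem_product, mem_product, mem_Icc, mem_Icc, mem_Icc]

/-- the discriminant -/
def dsc (t : ℤ × ℤ × ℤ) : ℤ := t.2.1 ^ 2 - 4 * t.1 * t.2.2

lemma dsc_le {H : ℕ} {t : ℤ × ℤ × ℤ} (ht : t ∈ Tr H) : (dsc t).natAbs ≤ 5 * H ^ 2 := by
  rw [mem_Tr] at ht
  obtain ⟨⟨h1, h2⟩, ⟨h3, h4⟩, h5, h6⟩ := ht
  have hb : |t.2.1| ≤ H := abs_le.2 ⟨h3, h4⟩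
  have hc : |t.2.2| ≤ H := abs_le.2 ⟨h5, h6⟩
  have ha : |t.1| ≤ H := abs_le.2 ⟨by omega, h2⟩
  zify
  unfold dsc
  calc |t.2.1 ^ 2 - 4 * t.1 * t.2.2| ≤ |t.2.1 ^ 2| + |4 * t.1 * t.2.2| := abs_sub _ _
    _ = |t.2.1| ^ 2 + 4 * (|t.1| * |t.2.2|) := by
        rw [abs_pow, abs_mul, abs_mul, show |(4:ℤ)| = 4 from rfl]; ring
    _ ≤ (H : ℤ) ^ 2 + 4 * ((H : ℤ) * H) := by
        have h7 : |t.2.1| ^ 2 ≤ (H : ℤ) ^ 2 := pow_le_pow_left₀ (abs_nonneg _) hb 2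
        have h8 : |t.1| * |t.2.2| ≤ (H : ℤ) * H := mul_le_mul ha hc (abs_nonneg _) (by omega)
        linarith
    _ = 5 * (H : ℤ) ^ 2 := by ring

/-- the number of triples with given `b` and given discriminant -/
lemma fib_le (H M : ℕ) (hM : ∀ n : ℕ, 1 ≤ n → n ≤ H ^ 2 → n.divisors.card ≤ M) (b v : ℤ) :
    #((Tr H).filter (fun t => t.2.1 = b ∧ t.2.2 ≠ 0 ∧ dsc t = v)) ≤ M := by
  classical
  rcases ((Tr H).filter (fun t => t.2.1 = b ∧ t.2.2 ≠ 0 ∧ dsc t = v)).eq_empty_or_nonempty with h | ⟨t0, ht0⟩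
  · rw [h, card_empty]; exact Nat.zero_le _
  · rw [mem_filter, mem_Tr] at ht0
    obtain ⟨⟨⟨h1, h2⟩, -, h5, h6⟩, hb0, hc0, hd0⟩ := ht0
    set n := (t0.1 * t0.2.2).natAbs with hn
    have hn1 : 1 ≤ n := by
      rw [hn]
      apply Int.natAbs_pos.2
      exact mul_ne_zero (by omega) hc0
    have hn2 : n ≤ H ^ 2 := by
      rw [hn]; zify
      rw [abs_mul]
      have ha : |t0.1| ≤ H := abs_le.2 ⟨by omega, h2⟩
      have hc : |t0.2.2| ≤ H := abs_le.2 ⟨h5, h6⟩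
      calc |t0.1| * |t0.2.2| ≤ (H : ℤ) * H := mul_le_mul ha hc (abs_nonneg _) (by omega)
        _ = (H : ℤ) ^ 2 := by ring
    refine le_trans ?_ (hM n hn1 hn2)
    refine card_le_card_of_injOn (fun t => t.1.toNat) ?_ ?_
    · intro t ht
      rw [mem_coe, mem_filter, mem_Tr] at ht
      obtain ⟨⟨⟨g1, g2⟩, -, g5, g6⟩, gb, gc, gd⟩ := ht
      have he : t.1 * t.2.2 = t0.1 * t0.2.2 := by
        have : dsc t = dsc t0 := by rw [gd, hd0]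
        unfold dsc at this
        rw [gb, hb0] at this
        linarith
      rw [mem_coe, Nat.mem_divisors]
      refine ⟨?_, by omega⟩
      rw [hn, ← he, Int.natAbs_mul]
      have : t.1.toNat = t.1.natAbs := by omega
      show t.1.toNat ∣ _
      rw [this]
      exact Dvd.intro _ rfl
    · intro t ht t' ht' hte
      rw [mem_coe, mem_filter, mem_Tr] at ht ht'
      obtain ⟨⟨⟨g1, g2⟩, -, g5, g6⟩, gb, gc, gd⟩ := ht
      obtain ⟨⟨⟨g1', g2'⟩, -, g5', g6'⟩, gb', gc', gd'⟩ := ht'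
      simp only at hte
      have ha : t.1 = t'.1 := by omega
      have he : t.1 * t.2.2 = t'.1 * t'.2.2 := by
        have : dsc t = dsc t' := by rw [gd, gd']
        unfold dsc at this
        rw [gb, gb'] at this
        linarith
      have hc : t.2.2 = t'.2.2 := by
        rw [ha] at he
        exact mul_left_cancel₀ (by omega) he
      exact Prod.ext ha (Prod.ext (gb.trans gb'.symm) hc)

/-- all but few triples are good on all blocks -/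
theorem mid_countT (W H i0 I m M : ℕ) (hi0 : 1 ≤ i0) (hm : 1 ≤ m)
    (hΔ3 : (5 * H ^ 2) ^ 3 ≤ (2 * 2 ^ i0) ^ m)
    (hM : ∀ n : ℕ, 1 ≤ n → n ≤ H ^ 2 → n.divisors.card ≤ M) :
    ∃ E : Finset (ℤ × ℤ × ℤ), E ⊆ Tr H ∧
      (#E : ℝ) ≤ M * (2 * H + 1) * (4 * (3 * H + 1) * ((I : ℝ) * (8 * (2 * m * (I : ℝ) ^ (2 * W)) ^ m))) ∧
      ∀ t ∈ Tr H, t ∉ E → t.2.2 ≠ 0 → dsc t ≠ 0 → ∀ i ∈ Icc i0 I,
        |∑ p ∈ Blk i, (jacobiSym (dsc t) p : ℝ) / p| ≤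
          4 * (1 / (i : ℝ) ^ W) + 4 * (Nat.log 2 (5 * H ^ 2) / 2 ^ i) := by
  classical
  set Δ := 5 * H ^ 2 with hΔ
  set T := ({1, -1, 2, -2} : Finset ℤ) ×ˢ range (3 * H + 1) ×ˢ BadW W Δ i0 I with hT
  set E := (Icc (-(H : ℤ)) H).biUnion (fun b => T.biUnion (fun s =>
    (Tr H).filter (fun t => t.2.1 = b ∧ t.2.2 ≠ 0 ∧ dsc t = s.1 * (s.2.1 : ℤ) ^ 2 * s.2.2))) with hE
  refine ⟨E, ?_, ?_, ?_⟩
  · rw [hE]
    refine biUnion_subset.2 fun b _ => biUnion_subset.2 fun s _ => filter_subset _ _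
  · have h1 : #E ≤ (2 * H + 1) * (#T * M) := by
      rw [hE]
      refine card_biUnion_le.trans ?_
      calc _ ≤ ∑ _b ∈ Icc (-(H : ℤ)) H, #T * M := by
            refine sum_le_sum fun b _ => ?_
            refine card_biUnion_le.trans ?_
            calc _ ≤ ∑ _s ∈ T, M := sum_le_sum fun s _ => fib_le H M hM b _
              _ = #T * M := by rw [sum_const, smul_eq_mul]
        _ = (2 * H + 1) * (#T * M) := by
            rw [sum_const, smul_eq_mul, Int.card_Icc]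
            congr 1
            omega
    have h2 : #T = 4 * (3 * H + 1) * #(BadW W Δ i0 I) := by
      rw [hT, card_product, card_product, card_range, show #({1, -1, 2, -2} : Finset ℤ) = 4 from rfl]
      ring
    have h3 : (#T : ℝ) ≤ 4 * (3 * H + 1) * ((I : ℝ) * (8 * (2 * m * (I : ℝ) ^ (2 * W)) ^ m)) := by
      rw [h2]; push_cast
      exact mul_le_mul_of_nonneg_left (badW_card W Δ i0 I m hi0 hm hΔ3) (by positivity)
    calc (#E : ℝ) ≤ (2 * H + 1) * (#T * M) := by exact_mod_cast h1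
      _ = M * (2 * H + 1) * #T := by ring
      _ ≤ _ := mul_le_mul_of_nonneg_left h3 (by positivity)
  · intro t ht htE hc0 hD0 i hi
    obtain ⟨δ, s, u, hu, hD, hδ1, hδ2⟩ := kernel _ hD0
    have hle := dsc_le ht
    rw [mem_Icc] at hi
    refine block_bound _ Δ hle δ s u hu hD0 hD hδ2 i (by omega) _ ?_
    by_contra hcon
    push Not at hcon
    obtain ⟨r, hr, hrτ⟩ := hcon
    apply htE
    have hab : (dsc t).natAbs = u.natAbs * s ^ 2 * δ := by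
      rw [hD, Int.natAbs_mul, Int.natAbs_mul, Int.natAbs_pow]
      simp
    have hu1 : 1 ≤ u.natAbs := by
      simp only [mem_insert, mem_singleton] at hu
      rcases hu with rfl | rfl | rfl | rfl <;> norm_num
    have hδ0 : 1 ≤ δ := by omega
    have hs0 : s ≠ 0 := by
      rintro rfl
      apply hD0; rw [hD]; simp
    rw [hab] at hle
    rw [hE, mem_biUnion]
    have ht' := (mem_Tr H t).1 ht
    refine ⟨t.2.1, mem_Icc.2 ht'.2.1, ?_⟩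
    rw [mem_biUnion]
    refine ⟨(u, s, δ), ?_, mem_filter.2 ⟨ht, rfl, hc0, hD⟩⟩
    rw [hT, mem_product, mem_product]
    refine ⟨hu, ?_, ?_⟩
    · rw [mem_range, Nat.lt_succ_iff]
      have h1 : s ^ 2 ≤ (3 * H) ^ 2 := by
        calc s ^ 2 = 1 * s ^ 2 * 1 := by ring
          _ ≤ u.natAbs * s ^ 2 * δ := by gcongr
          _ ≤ 5 * H ^ 2 := hle
          _ ≤ (3 * H) ^ 2 := by nlinarith
      exact (Nat.pow_le_pow_iff_left (by norm_num)).1 h1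
    · show δ ∈ BadW W Δ i0 I
      rw [BadW, mem_filter, mem_range, Nat.lt_succ_iff]
      refine ⟨?_, hδ1, hδ2, i, mem_Icc.2 hi, r, hr, hrτ⟩
      have hs1 : 1 ≤ s ^ 2 := Nat.one_le_pow _ _ (Nat.pos_of_ne_zero hs0)
      calc δ = 1 * 1 * δ := by ring
        _ ≤ u.natAbs * s ^ 2 * δ := by gcongr
        _ ≤ Δ := hle

end Pool.Agent.TH892
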