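import Pool.Agent.TH892.CF1

/-!
The cut product of Conjecture F against the full one.
-/

set_option autoImplicit false

namespace Pool.Agent.TH892
open Finset Filter Topology
open Pool.Agent.W468.ConjF

lemma log_factor (D : ℤ) (n : ℕ) (h3 : 3 ≤ n) :
    |Real.log (1 - (jacobiSym D n : ℝ) / (n - 1)) + (jacobiSym D n : ℝ) / n| ≤ 12 / (n : ℝ) ^ 2 := by
  have hn3 : (3 : ℝ) ≤ n := by exact_mod_cast h3
  set j : ℝ := (jacobiSym D n : ℝ) with hj
  have hj1 : |j| ≤ 1 := js_abs D n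
  have hx : |j / ((n : ℝ) - 1)| ≤ 1 / 2 := by
    rw [abs_div, abs_of_pos (show (0 : ℝ) < (n : ℝ) - 1 by linarith)]
    rw [div_le_div_iff₀ (by linarith) (by norm_num)]
    linarith
  have h3 := Real.abs_log_sub_add_sum_range_le (show |j / ((n : ℝ) - 1)| < 1 by linarith) 1
  simp only [range_one, sum_singleton, zero_add, pow_one, Nat.cast_zero, div_one] at h3
  have h4 : |j / ((n : ℝ) - 1)| ^ (1 + 1) / (1 - |j / ((n : ℝ) - 1)|) ≤ 2 * (1 / ((n : ℝ) - 1) ^ 2) := by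
    have h5 : |j / ((n : ℝ) - 1)| ^ (1 + 1) ≤ 1 / ((n : ℝ) - 1) ^ 2 := by
      rw [abs_div, abs_of_pos (show (0 : ℝ) < (n : ℝ) - 1 by linarith), div_pow]
      apply div_le_div_of_nonneg_right _ (by apply pow_nonneg; linarith)
      exact pow_le_one₀ (abs_nonneg _) hj1
    rw [div_le_iff₀ (by linarith)]
    have h6 : 0 ≤ 1 / ((n : ℝ) - 1) ^ 2 := by positivity
    nlinarith
  have h5 : |j / n - j / ((n : ℝ) - 1)| ≤ 1 / ((n : ℝ) - 1) ^ 2 := by
    have h6 : j / n - j / ((n : ℝ) - 1) = -(j / (n * ((n : ℝ) - 1))) := by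
      have : (n : ℝ) - 1 ≠ 0 := by linarith
      field_simp
      ring
    rw [h6, abs_neg, abs_div, abs_of_pos (show (0 : ℝ) < n * ((n : ℝ) - 1) by apply mul_pos <;> linarith)]
    apply div_le_div₀ zero_le_one hj1 (by apply pow_pos; linarith)
    nlinarith
  have h7 : 1 / ((n : ℝ) - 1) ^ 2 ≤ 4 / (n : ℝ) ^ 2 := by
    rw [div_le_div_iff₀ (by apply pow_pos; linarith) (by positivity)]
    nlinarith
  have h8 : Real.log (1 - j / ((n : ℝ) - 1)) + j / n =
      (j / ((n : ℝ) - 1) + Real.log (1 - j / ((n : ℝ) - 1))) + (j / n - j / ((n : ℝ) - 1)) := by ring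
  rw [h8]
  refine (abs_add_le _ _).trans ?_
  have h9 : 12 / (n : ℝ) ^ 2 = 3 * (4 / (n : ℝ) ^ 2) := by ring
  rw [h9]
  have h10 := h3.trans h4
  linarith

/-- the logarithm of a factor of the product `C` -/
noncomputable def hh (a b c : ℤ) (p : ℕ) : ℝ :=
  (if p.Prime ∧ 3 ≤ p ∧ (p : ℤ) ∣ a ∧ (p : ℤ) ∣ b then Real.log ((p : ℝ) / (p - 1)) else 0) +
  (if p.Prime ∧ 3 ≤ p ∧ ¬ (p : ℤ) ∣ a then
    Real.log (1 - (jacobiSym (b ^ 2 - 4 * a * c) p : ℝ) / (p - 1)) else 0)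

lemma log_CF (a b c : ℤ) (z : ℕ) : Real.log (CF a b c z) =
    Real.log (if (2 : ℤ) ∣ a + b then 1 else 1 / 2) + ∑ p ∈ range (z + 1), hh a b c p := by
  unfold CF hh
  have h1 : (if (2 : ℤ) ∣ a + b then (1:ℝ) else 1 / 2) ≠ 0 := by split_ifs <;> norm_num
  have h2 : ∀ p ∈ (range (z + 1)).filter (fun p : ℕ => p.Prime ∧ 3 ≤ p ∧ (p : ℤ) ∣ a ∧ (p : ℤ) ∣ b),
      (p : ℝ) / (p - 1) ≠ 0 := by
    intro p hp
    rw [mem_filter] at hp
    have : (3:ℝ) ≤ p := by exact_mod_cast hp.2.2.1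
    apply div_ne_zero
    · linarith
    · linarith
  have h3 : ∀ p ∈ (range (z + 1)).filter (fun p : ℕ => p.Prime ∧ 3 ≤ p ∧ ¬ (p : ℤ) ∣ a),
      (1 - (jacobiSym (b ^ 2 - 4 * a * c) p : ℝ) / (p - 1)) ≠ 0 := by
    intro p hp
    rw [mem_filter] at hp
    exact (factor_pos _ p hp.2.2.1).ne'
  rw [Real.log_mul (mul_ne_zero h1 (prod_ne_zero_iff.2 h2)) (prod_ne_zero_iff.2 h3),
    Real.log_mul h1 (prod_ne_zero_iff.2 h2), Real.log_prod h2, Real.log_prod h3,
    sum_add_distrib, sum_filter, sum_filter]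
  ring

lemma log_CF_sub (a b c : ℤ) (z N : ℕ) (h : z ≤ N) :
    Real.log (CF a b c N) - Real.log (CF a b c z) = ∑ p ∈ Ioc z N, hh a b c p := by
  rw [log_CF, log_CF, range_eq_Ico, range_eq_Ico,
    ← sum_Ico_consecutive (hh a b c) (Nat.zero_le (z + 1)) (show z + 1 ≤ N + 1 by omega)]
  have : Ico (z + 1) (N + 1) = Ioc z N := by
    ext p; simp only [mem_Ico, mem_Ioc]; omega
  rw [this]
  ring

/-- the sum over primes not dividing `a` -/
noncomputable def LOW (a D : ℤ) (z Z : ℕ) : ℝ :=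
  ∑ p ∈ (Ioc z Z).filter (fun p : ℕ => p.Prime ∧ ¬ (p : ℤ) ∣ a), (jacobiSym D p : ℝ) / p

theorem CF_compare (a b c : ℤ) (ha : 0 < a) (z Z N : ℕ) (hz : 2 ≤ z) (hzZ : z ≤ Z) (hZN : Z ≤ N) :
    |Real.log (CF a b c N) - Real.log (CF a b c z)| ≤
      |LOW a (b ^ 2 - 4 * a * c) z Z| + |SJ (b ^ 2 - 4 * a * c) Z N| + 12 / z +
        3 * (Nat.log 2 a.toNat) / z := by
  classical
  rw [log_CF_sub a b c z N (hzZ.trans hZN)]
  set D := b ^ 2 - 4 * a * c with hD
  have hz0 : (0:ℝ) < z := by exact_mod_cast (by omega : 0 < z)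
  set A := (Ioc z N).filter (fun p : ℕ => p.Prime ∧ (p : ℤ) ∣ a) with hA
  have hAc : (#A : ℝ) ≤ Nat.log 2 a.toNat := by
    have h1 := card_prime_dvd a.toNat (by omega) A (by
      intro p hp
      rw [hA, mem_filter] at hp
      refine ⟨hp.2.1, ?_⟩
      have h2 := hp.2.2
      have h3 : (a.toNat : ℤ) = a := Int.toNat_of_nonneg ha.le
      rw [← h3] at h2
      exact_mod_cast h2)
    exact_mod_cast h1
  -- pointwise
  have hpt : ∀ p ∈ Ioc z N, |hh a b c p + (if p.Prime ∧ ¬ (p : ℤ) ∣ a then (jacobiSym D p : ℝ) / p else 0)| ≤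
      12 * (1 / (p : ℝ) ^ 2) + (if p.Prime ∧ (p : ℤ) ∣ a then 2 / (z : ℝ) else 0) := by
    intro p hp
    rw [mem_Ioc] at hp
    have hp3 : 3 ≤ p := by omega
    have hpr : (3:ℝ) ≤ p := by exact_mod_cast hp3
    have hzp : (z:ℝ) ≤ p := by exact_mod_cast hp.1.le
    have hpos : 0 ≤ 12 * (1 / (p : ℝ) ^ 2) := by positivity
    unfold hh
    rw [← hD]
    by_cases hpp : p.Prime
    · by_cases hpa : (p : ℤ) ∣ a
      · by_cases hpb : (p : ℤ) ∣ b
        · rw [if_pos ⟨hpp, hp3, hpa, hpb⟩, if_neg (fun h => h.2.2 hpa), if_neg (fun h => h.2 hpa),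
            if_pos ⟨hpp, hpa⟩, add_zero, add_zero]
          have h1 : 0 ≤ Real.log ((p : ℝ) / (p - 1)) := by
            apply Real.log_nonneg
            rw [le_div_iff₀ (by linarith)]; linarith
          have h2 : Real.log ((p : ℝ) / (p - 1)) ≤ 2 / z := by
            have h3 := Real.log_le_sub_one_of_pos (show (0:ℝ) < (p : ℝ) / (p - 1) by
              apply div_pos <;> linarith)
            refine h3.trans ?_
            have h4 : (p : ℝ) / (p - 1) - 1 = 1 / (p - 1) := by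
              have : (p : ℝ) - 1 ≠ 0 := by linarith
              field_simp
              ring
            rw [h4, div_le_div_iff₀ (by linarith) hz0]
            linarith
          rw [abs_of_nonneg h1]
          linarith
        · rw [if_neg (fun h => hpb h.2.2.2), if_neg (fun h => h.2.2 hpa), if_neg (fun h => h.2 hpa),
            if_pos ⟨hpp, hpa⟩, add_zero, add_zero, abs_zero]
          positivity
      · rw [if_neg (fun h => hpa h.2.2.1), if_pos ⟨hpp, hp3, hpa⟩, if_pos ⟨hpp, hpa⟩,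
          if_neg (fun h => hpa h.2), add_zero, zero_add]
        refine (log_factor D p hp3).trans (le_of_eq ?_)
        ring
    · rw [if_neg (fun h => hpp h.1), if_neg (fun h => hpp h.1), if_neg (fun h => hpp h.1),
        if_neg (fun h => hpp h.1), add_zero, add_zero, abs_zero, add_zero]
      exact hpos
  have hS1 : |∑ p ∈ Ioc z N, (hh a b c p + (if p.Prime ∧ ¬ (p : ℤ) ∣ a then (jacobiSym D p : ℝ) / p else 0))| ≤
      12 / z + 2 * (Nat.log 2 a.toNat) / z := by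
    refine (abs_sum_le_sum_abs _ _).trans ((sum_le_sum hpt).trans ?_)
    rw [sum_add_distrib, ← mul_sum, ← sum_filter, sum_const, nsmul_eq_mul]
    have h1 := sum_inv_sq z N (by omega) (hzZ.trans hZN)
    have h2 : (0:ℝ) ≤ 1 / (N:ℝ) := by positivity
    have h3 : (#A : ℝ) * (2 / z) ≤ 2 * (Nat.log 2 a.toNat) / z := by
      calc (#A : ℝ) * (2 / z) ≤ (Nat.log 2 a.toNat) * (2 / z) :=
            mul_le_mul_of_nonneg_right hAc (by positivity)
        _ = _ := by ring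
    have h4 : 12 * (∑ n ∈ Ioc z N, 1 / (n : ℝ) ^ 2) ≤ 12 / (z : ℝ) := by
      calc 12 * (∑ n ∈ Ioc z N, 1 / (n : ℝ) ^ 2) ≤ 12 * (1 / (z : ℝ)) := by linarith
        _ = 12 / (z : ℝ) := by ring
    linarith
  have hS2 : ∑ p ∈ Ioc z N, (if p.Prime ∧ ¬ (p : ℤ) ∣ a then (jacobiSym D p : ℝ) / p else 0) =
      LOW a D z Z + (SJ D Z N - ∑ p ∈ (Ioc Z N).filter (fun p : ℕ => p.Prime ∧ (p : ℤ) ∣ a),
        (jacobiSym D p : ℝ) / p) := by
    rw [← sum_Ioc_consecutive _ hzZ hZN]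
    unfold LOW SJ
    rw [sum_filter]
    congr 1
    rw [sum_filter, sum_filter, ← sum_sub_distrib]
    refine sum_congr rfl fun p _ => ?_
    by_cases hpp : p.Prime <;> by_cases hpa : (p : ℤ) ∣ a <;> simp [hpp, hpa]
  have hS3 : |∑ p ∈ (Ioc Z N).filter (fun p : ℕ => p.Prime ∧ (p : ℤ) ∣ a), (jacobiSym D p : ℝ) / p| ≤
      (Nat.log 2 a.toNat) / z := by
    refine (abs_sum_le_sum_abs _ _).trans ?_
    calc ∑ p ∈ (Ioc Z N).filter (fun p : ℕ => p.Prime ∧ (p : ℤ) ∣ a), |(jacobiSym D p : ℝ) / p|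
        ≤ ∑ _p ∈ (Ioc Z N).filter (fun p : ℕ => p.Prime ∧ (p : ℤ) ∣ a), 1 / (z:ℝ) := by
          refine sum_le_sum fun p hp => ?_
          rw [mem_filter, mem_Ioc] at hp
          rw [abs_div, Nat.abs_cast]
          apply div_le_div₀ zero_le_one (js_abs D p) hz0
          exact_mod_cast (by omega : z ≤ p)
      _ = (#((Ioc Z N).filter (fun p : ℕ => p.Prime ∧ (p : ℤ) ∣ a)) : ℝ) * (1 / z) := by
          rw [sum_const, nsmul_eq_mul]
      _ ≤ (#A : ℝ) * (1 / z) := by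
          apply mul_le_mul_of_nonneg_right _ (by positivity)
          have : (Ioc Z N).filter (fun p : ℕ => p.Prime ∧ (p : ℤ) ∣ a) ⊆ A :=
            filter_subset_filter _ (Ioc_subset_Ioc_left hzZ)
          exact_mod_cast card_le_card this
      _ ≤ (Nat.log 2 a.toNat) * (1 / z) := mul_le_mul_of_nonneg_right hAc (by positivity)
      _ = _ := by ring
  rw [sum_add_distrib, hS2] at hS1
  set X := ∑ p ∈ Ioc z N, hh a b c p with hX
  set S3 := ∑ p ∈ (Ioc Z N).filter (fun p : ℕ => p.Prime ∧ (p : ℤ) ∣ a), (jacobiSym D p : ℝ) / p with hS3d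
  have e : X = (X + (LOW a D z Z + (SJ D Z N - S3))) - LOW a D z Z - SJ D Z N + S3 := by ring
  rw [e]
  refine (abs_add_le _ _).trans ?_
  have g1 := abs_sub (X + (LOW a D z Z + (SJ D Z N - S3)) - LOW a D z Z) (SJ D Z N)
  have g2 := abs_sub (X + (LOW a D z Z + (SJ D Z N - S3))) (LOW a D z Z)
  have g3 : 3 * (Nat.log 2 a.toNat : ℝ) / z = 2 * (Nat.log 2 a.toNat) / z + (Nat.log 2 a.toNat) / z := by ring
  rw [g3]
  linarith

/-- passing to the limit -/
theorem CF_limit (a b c : ℤ) (K : ℝ) (hK : 0 < K) (hlim : Tendsto (fun n => CF a b c n) atTop (𝓝 K))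
    (z : ℕ) (θ : ℝ) (hθ1 : θ ≤ 1)
    (h : ∀ᶠ N in atTop, |Real.log (CF a b c N) - Real.log (CF a b c z)| ≤ θ) :
    |CF a b c z - K| ≤ 2 * θ * K := by
  have h1 : Tendsto (fun n => |Real.log (CF a b c n) - Real.log (CF a b c z)|) atTop
      (𝓝 |Real.log K - Real.log (CF a b c z)|) :=
    ((hlim.log hK.ne').sub_const _).abs
  have h2 := le_of_tendsto h1 h
  set y := Real.log (CF a b c z) - Real.log K with hy
  have h3 : |y| ≤ θ := by rw [hy, abs_sub_comm]; exact h2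
  have h4 : CF a b c z = K * Real.exp y := by
    rw [hy, Real.exp_sub, Real.exp_log (CF_pos a b c z), Real.exp_log hK]
    field_simp
  have h5 : CF a b c z - K = K * (Real.exp y - 1) := by rw [h4]; ring
  rw [h5, abs_mul, abs_of_pos hK]
  have h6 := Real.abs_exp_sub_one_le (h3.trans hθ1)
  calc K * |Real.exp y - 1| ≤ K * (2 * |y|) := mul_le_mul_of_nonneg_left h6 hK.le
    _ ≤ K * (2 * θ) := by gcongr
    _ = _ := by ring

end Pool.Agent.TH892
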