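import Pool.Agent.TH892.FullBox3

/-!
Bateman-Horn for almost all polynomials of height at most `H`: first moment with absolute values,
the exceptional set.
-/

namespace Pool.Agent.TH892

open Finset Polynomial Filter
open Pool.Agent.H442R2.EHI (evt_log_pow evt_log_ge)
open Pool.Agent.H300R2.BH
open Pool.Agent.H300R2.FB

lemma pa_mono (F : ℤ[X]) {K K' : ℕ} (h : K ≤ K') : pa F K ≤ pa F K' := by
  unfold pa
  have : ((Icc 1 K).filter (fun k : ℕ => (F.eval (k : ℤ)).natAbs.Prime)).card ≤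
      ((Icc 1 K').filter (fun k : ℕ => (F.eval (k : ℤ)).natAbs.Prime)).card :=
    card_le_card (filter_subset_filter _ (Icc_subset_Icc_right h))
  exact_mod_cast this

lemma la_diff (F : ℤ[X]) {K K' : ℕ} (h : K ≤ K') :
    0 ≤ la F K' - la F K ∧ la F K' - la F K ≤ 2 * ((K' : ℝ) - K) := by
  classical
  have hsub : (Icc 1 K).filter (fun k : ℕ => 2 ≤ |F.eval (k : ℤ)|) ⊆
      (Icc 1 K').filter (fun k : ℕ => 2 ≤ |F.eval (k : ℤ)|) :=
    filter_subset_filter _ (Icc_subset_Icc_right h)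
  have he : la F K' - la F K = ∑ k ∈ ((Icc 1 K').filter (fun k : ℕ => 2 ≤ |F.eval (k : ℤ)|)) \
      ((Icc 1 K).filter (fun k : ℕ => 2 ≤ |F.eval (k : ℤ)|)),
      1 / Real.log |((F.eval (k : ℤ) : ℤ) : ℝ)| := by
    unfold la
    rw [← sum_sdiff hsub]
    ring
  have hmem : ∀ k ∈ ((Icc 1 K').filter (fun k : ℕ => 2 ≤ |F.eval (k : ℤ)|)) \
      ((Icc 1 K).filter (fun k : ℕ => 2 ≤ |F.eval (k : ℤ)|)), 2 ≤ |F.eval (k : ℤ)| := by
    intro k hk
    rw [Finset.mem_sdiff, mem_filter] at hk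
    exact hk.1.2
  constructor
  · rw [he]
    exact sum_nonneg fun k hk => (la_term F k (hmem k hk)).1
  · rw [he]
    calc _ ≤ ∑ _k ∈ ((Icc 1 K').filter (fun k : ℕ => 2 ≤ |F.eval (k : ℤ)|)) \
          ((Icc 1 K).filter (fun k : ℕ => 2 ≤ |F.eval (k : ℤ)|)), (2:ℝ) :=
          sum_le_sum fun k hk => (la_term F k (hmem k hk)).2
      _ = 2 * ((((Icc 1 K').filter (fun k : ℕ => 2 ≤ |F.eval (k : ℤ)|)) \
          ((Icc 1 K).filter (fun k : ℕ => 2 ≤ |F.eval (k : ℤ)|))).card : ℝ) := by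
          rw [sum_const, nsmul_eq_mul]; ring
      _ ≤ 2 * (((Ioc K K').card : ℕ) : ℝ) := by
          have : (((Icc 1 K').filter (fun k : ℕ => 2 ≤ |F.eval (k : ℤ)|)) \
              ((Icc 1 K).filter (fun k : ℕ => 2 ≤ |F.eval (k : ℤ)|))).card ≤ (Ioc K K').card := by
            apply card_le_card
            intro k hk
            have h2 := hmem k hk
            rw [Finset.mem_sdiff, mem_filter, mem_filter, mem_Icc, mem_Icc] at hk
            rw [mem_Ioc]
            refine ⟨?_, hk.1.1.2⟩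
            by_contra hh
            exact hk.2 ⟨⟨hk.1.1.1, by omega⟩, h2⟩
          have h3 : ((((Icc 1 K').filter (fun k : ℕ => 2 ≤ |F.eval (k : ℤ)|)) \
              ((Icc 1 K).filter (fun k : ℕ => 2 ≤ |F.eval (k : ℤ)|))).card : ℝ) ≤
              (((Ioc K K').card : ℕ) : ℝ) := by exact_mod_cast this
          linarith
      _ = 2 * ((K' : ℝ) - K) := by
          rw [Nat.card_Ioc, Nat.cast_sub h]

/-- number of polynomials in the box -/
lemma card_box {j : ℕ} (hj : 1 ≤ j) (H : ℕ) :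
    ((box j H).card : ℝ) = ((bx j (fun _ => H)).card : ℝ) * ((2 * H + 1 : ℕ) : ℝ) * H := by
  have h := sum_box hj H (fun _ _ => (1:ℝ))
  simp only [sum_const, Nat.card_Ioc, nsmul_eq_mul, mul_one] at h
  rw [h]
  rw [show 0 + (2 * H + 1) - 0 = 2 * H + 1 by omega, Nat.sub_zero]
  ring

/-- first moment over all polynomials of height at most `H` -/
theorem mean_box (j : ℕ) (hj : 1 ≤ j) (ε : ℝ) (hε : 0 < ε) (U : ℕ) : ∃ E1 : ℕ, ∀ E : ℕ, E1 ≤ E →
    ∃ B H0 : ℕ, ∀ H : ℕ, H0 ≤ H → ∀ K : ℕ, (H : ℝ) ^ ε ≤ K → (K : ℝ) * Real.log H ^ B ≤ H →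
    ∑ c ∈ box j H, |pa (pol c) K - SS ⌊Real.log H ^ E⌋₊ (pol c) * la (pol c) K| ≤
      ((box j H).card : ℝ) * K / Real.log H ^ U := by
  classical
  obtain ⟨E1, hE1⟩ := mean_full j hj ε hε (U + 1)
  refine ⟨E1 + 1, fun E hE => ?_⟩
  obtain ⟨B, x1, hb⟩ := hE1 E (by omega)
  obtain ⟨x2, hSS⟩ := SS_small (E - 1)
  rw [show E - 1 + 1 = E by omega] at hSS
  have hev : ∀ᶠ H : ℕ in atTop, x1 ≤ H ∧ x2 ≤ H ∧ 8 ≤ Real.log H ∧ 8 * j ≤ Real.log H ∧
      Real.log H ^ (U + 4) ≤ (H:ℝ) ^ ε ∧ 1 ≤ H := by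
    filter_upwards [eventually_ge_atTop x1, eventually_ge_atTop x2,
      evt_log_ge 8, evt_log_ge (8 * j), evt_log_pow (U + 4) ε hε, eventually_ge_atTop 1]
      with H h1 h2 h3 h4 h5 h6
    exact ⟨h1, h2, h3, h4, h5, h6⟩
  obtain ⟨H0, hH0⟩ := eventually_atTop.mp hev
  refine ⟨B, H0, fun H hH K hK hKH => ?_⟩
  obtain ⟨hx1, hx2, hL8, hLj, hLK, hH1⟩ := hH0 H hH
  obtain ⟨-, hSSz⟩ := hSS H hx2
  have hmf := hb H hx1 K hK hKH
  set L := Real.log H with hLdef
  set z := ⌊L ^ E⌋₊ with hz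
  have hL0 : 0 < L := by linarith
  have hL1 : 1 ≤ L := by linarith
  have hLp0 : ∀ n : ℕ, 0 < L ^ n := fun n => by positivity
  have hHr : (1:ℝ) ≤ H := by exact_mod_cast hH1
  -- pointwise comparison
  have hpt : ∀ c ∈ box j H, |pa (pol c) K - SS z (pol c) * la (pol c) K| ≤
      |pv (pol c) K - SS z (pol c) * lF (pol c) K| +
        3 * L * ((j * H : ℕ) / ((c (Fin.last j)).toNat : ℝ)) := by
    intro c hc
    obtain ⟨c1, c2, c3⟩ := abs_conv (pol c) K (j * H / (c (Fin.last j)).toNat)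
      (fun k hk _ => eval_nonneg hj hc hk)
    obtain ⟨s1, s2⟩ := hSSz (pol c)
    have hK1 : ((j * H / (c (Fin.last j)).toNat : ℕ) : ℝ) ≤
        (j * H : ℕ) / ((c (Fin.last j)).toNat : ℝ) := Nat.cast_div_le
    set K1 : ℝ := ((j * H / (c (Fin.last j)).toNat : ℕ) : ℝ) with hK1d
    have e1 : pa (pol c) K - SS z (pol c) * la (pol c) K =
        (pa (pol c) K - pv (pol c) K) +
        (pv (pol c) K - SS z (pol c) * lF (pol c) K) +
        (-(SS z (pol c) * (la (pol c) K - lF (pol c) K))) := by ring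
    rw [e1]
    refine (abs_add_le _ _).trans ?_
    have h1 := abs_add_le (pa (pol c) K - pv (pol c) K)
      (pv (pol c) K - SS z (pol c) * lF (pol c) K)
    have h2 : |-(SS z (pol c) * (la (pol c) K - lF (pol c) K))| ≤ L * (2 * K1) := by
      rw [abs_neg, abs_of_nonneg (mul_nonneg s1 c2)]
      exact mul_le_mul s2 c3 c2 hL0.le
    have h3 : K1 + L * (2 * K1) ≤ 3 * L * ((j * H : ℕ) / ((c (Fin.last j)).toNat : ℝ)) := by
      have hK1n : (0:ℝ) ≤ K1 := Nat.cast_nonneg _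
      calc K1 + L * (2 * K1) ≤ 3 * L * K1 := by nlinarith
        _ ≤ _ := by gcongr
    linarith
  have hharm : ∑ d ∈ Ioc 0 H, ((j * H : ℕ) / (d : ℝ)) ≤ j * H * (2 * L) := by
    have h1 : ∑ d ∈ Ioc 0 H, ((d : ℝ))⁻¹ ≤ 1 + L := by
      have h2 := harmonic_le_one_add_log H
      rw [harmonic_eq_sum_Icc] at h2
      push_cast at h2
      have h3 : Ioc 0 H = Icc 1 H := by ext; simp [Nat.succ_le_iff]
      rw [h3]
      exact h2
    calc ∑ d ∈ Ioc 0 H, ((j * H : ℕ) / (d : ℝ)) = (j * H) * ∑ d ∈ Ioc 0 H, ((d : ℝ))⁻¹ := by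
          rw [mul_sum]
          refine sum_congr rfl fun d _ => ?_
          push_cast
          rw [div_eq_mul_inv]
      _ ≤ (j * H) * (2 * L) := by
          gcongr
          linarith
  have hfirst : ∑ c ∈ box j H, |pv (pol c) K - SS z (pol c) * lF (pol c) K| ≤
      ((box j H).card : ℝ) * K / L ^ (U + 1) := by
    rw [sum_box hj H (fun f _ => |pv f K - SS z f * lF f K|), card_box hj H]
    exact hmf
  have hsecond : ∑ c ∈ box j H, (3 * L * ((j * H : ℕ) / ((c (Fin.last j)).toNat : ℝ))) ≤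
      ((box j H).card : ℝ) * K / L ^ (U + 1) := by
    rw [sum_box hj H (fun _ d => 3 * L * ((j * H : ℕ) / (d : ℝ))), card_box hj H]
    calc _ ≤ ∑ _r ∈ bx j (fun _ => H), ∑ _a ∈ Ioc 0 (0 + (2 * H + 1)), (3 * L * (j * H * (2 * L))) := by
          refine sum_le_sum fun r _ => sum_le_sum fun a _ => ?_
          rw [← mul_sum]
          gcongr
      _ = ((bx j (fun _ => H)).card : ℝ) * ((2 * H + 1 : ℕ) : ℝ) * H * (6 * j * L ^ 2) := by
          simp only [sum_const, Nat.card_Ioc, nsmul_eq_mul]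
          rw [show 0 + (2 * H + 1) - 0 = 2 * H + 1 by omega]
          ring
      _ ≤ ((bx j (fun _ => H)).card : ℝ) * ((2 * H + 1 : ℕ) : ℝ) * H * (K / L ^ (U + 1)) := by
          apply mul_le_mul_of_nonneg_left _ (by positivity)
          rw [le_div_iff₀ (hLp0 _)]
          calc 6 * (j:ℝ) * L ^ 2 * L ^ (U + 1) ≤ L * L ^ 2 * L ^ (U + 1) := by
                gcongr
                have : (0:ℝ) ≤ j := Nat.cast_nonneg _
                linarith
            _ = L ^ (U + 4) := by ring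
            _ ≤ _ := hLK.trans hK
      _ = _ := by ring
  calc _ ≤ ∑ c ∈ box j H, (|pv (pol c) K - SS z (pol c) * lF (pol c) K| +
        3 * L * ((j * H : ℕ) / ((c (Fin.last j)).toNat : ℝ))) := sum_le_sum hpt
    _ ≤ ((box j H).card : ℝ) * K / L ^ (U + 1) + ((box j H).card : ℝ) * K / L ^ (U + 1) := by
        rw [sum_add_distrib]
        exact add_le_add hfirst hsecond
    _ = ((box j H).card : ℝ) * K / L ^ U * (2 / L) := by
        rw [pow_succ]
        field_simp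
        ring
    _ ≤ ((box j H).card : ℝ) * K / L ^ U * 1 := by
        apply mul_le_mul_of_nonneg_left _ (by positivity)
        rw [div_le_one hL0]
        linarith
    _ = _ := mul_one _

/-- **the exceptional set**, all lengths `K` simultaneously -/
theorem exc_box (j : ℕ) (hj : 1 ≤ j) (ε : ℝ) (hε : 0 < ε) (U : ℕ) : ∃ E1 : ℕ, ∀ E : ℕ, E1 ≤ E →
    ∃ B H0 : ℕ, ∀ H : ℕ, H0 ≤ H → ∀ (P : (Fin (j + 1) → ℤ) → Prop) [DecidablePred P],
    (∀ c ∈ box j H, P c → (∀ p : ℕ, p.Prime → p ≤ ⌊Real.log H ^ E⌋₊ → rho (pol c) p ≠ p) ∧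
      ∃ K : ℕ, (H : ℝ) ^ ε ≤ K ∧ (K : ℝ) * Real.log H ^ B ≤ H ∧
        SS ⌊Real.log H ^ E⌋₊ (pol c) * la (pol c) K / Real.log H ^ U <
        |pa (pol c) K - SS ⌊Real.log H ^ E⌋₊ (pol c) * la (pol c) K|) →
    (((box j H).filter P).card : ℝ) ≤ ((box j H).card : ℝ) / Real.log H ^ U := by
  classical
  obtain ⟨E1, hE1⟩ := mean_box j hj (ε / 2) (by positivity) (3 * (U + 3) + 7)
  refine ⟨E1 + 1, fun E hE => ?_⟩
  obtain ⟨B, x1, hb⟩ := hE1 E (by omega)
  obtain ⟨x2, hSS⟩ := SS_small (E - 1)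
  rw [show E - 1 + 1 = E by omega] at hSS
  obtain ⟨c, hc, hSSl⟩ := SS_lower j hj
  have hlogs : ∀ᶠ x : ℕ in atTop, (E * Real.log (Real.log x)) ^ (2 * j) * (4 * (j + 2)) ≤
      c * Real.log x := by
    have h1 : (fun t : ℝ => Real.log t ^ (2 * j)) =o[atTop] fun t : ℝ => t :=
      Real.isLittleO_pow_log_id_atTop
    have h2 := h1.bound (show (0:ℝ) < c / ((4 * (j + 2)) * (1 + E) ^ (2 * j)) by positivity)
    have h3 := (Real.tendsto_log_atTop.comp (tendsto_natCast_atTop_atTop (R := ℝ))).eventually h2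
    filter_upwards [h3, evt_log_ge (Real.exp 1)] with x hx hx2
    simp only [Function.comp] at hx
    have ht0 : 0 < Real.log x := lt_of_lt_of_le (Real.exp_pos 1) hx2
    have hl : 1 ≤ Real.log (Real.log x) := by
      rw [Real.le_log_iff_exp_le ht0]; exact hx2
    rw [Real.norm_of_nonneg (by positivity), Real.norm_of_nonneg ht0.le] at hx
    calc (E * Real.log (Real.log x)) ^ (2 * j) * (4 * (j + 2))
        ≤ ((1 + E) * Real.log (Real.log x)) ^ (2 * j) * (4 * (j + 2)) := by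
          gcongr
          linarith
      _ = ((4 * (j + 2)) * (1 + E) ^ (2 * j)) * Real.log (Real.log x) ^ (2 * j) := by
          rw [mul_pow]; ring
      _ ≤ ((4 * (j + 2)) * (1 + E) ^ (2 * j)) * (c / ((4 * (j + 2)) * (1 + E) ^ (2 * j)) *
          Real.log x) := by gcongr
      _ = c * Real.log x := by field_simp
  have hev : ∀ᶠ H : ℕ in atTop, x1 ≤ H ∧ x2 ≤ H ∧ 8 ≤ Real.log H ∧
      Real.log H ^ (U + 6) ≤ (H:ℝ) ^ (ε / 2) ∧ Real.log H ^ 1 ≤ (H:ℝ) ^ (ε / 2) ∧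
      (j + 1) ≤ H ∧ 6 * (j:ℝ) ≤ (H:ℝ) ^ ε ∧
      (E * Real.log (Real.log H)) ^ (2 * j) * (4 * (j + 2)) ≤ c * Real.log H := by
    filter_upwards [eventually_ge_atTop x1, eventually_ge_atTop x2,
      evt_log_ge 8, evt_log_ge (6 * j), evt_log_pow (U + 6) (ε / 2) (by positivity),
      evt_log_pow 1 (ε / 2) (by positivity), evt_log_pow 1 ε hε, eventually_ge_atTop (j + 1), hlogs]
      with H h1 h2 h3 h4 h5 h6 h7 h8 h9
    refine ⟨h1, h2, h3, h5, h6, h8, ?_, h9⟩
    rw [pow_one] at h7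
    linarith
  obtain ⟨H0, hH0⟩ := eventually_atTop.mp hev
  refine ⟨B + 1, H0, fun H hH P _ hP => ?_⟩
  obtain ⟨hx1, hx2, hL8, hLa, hLb, hjH, hjK, hll⟩ := hH0 H hH
  obtain ⟨hz3, hSSz⟩ := hSS H hx2
  have hmb := hb H hx1
  set L := Real.log H with hLdef
  set z := ⌊L ^ E⌋₊ with hz
  have hL0 : 0 < L := by linarith
  have hL1 : 1 ≤ L := by linarith
  have hLp0 : ∀ n : ℕ, 0 < L ^ n := fun n => by positivity
  have hLp : ∀ n : ℕ, 1 ≤ L ^ n := fun n => one_le_pow₀ hL1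
  have hHr : (1:ℝ) ≤ H := by
    have : (1:ℝ) ≤ ((j + 1 : ℕ) : ℝ) := by push_cast; linarith [(Nat.cast_nonneg j : (0:ℝ) ≤ j)]
    exact this.trans (by exact_mod_cast hjH)
  have h4a : 4 * (H:ℝ) ^ (ε / 2) ≤ (H:ℝ) ^ ε := by
    have h1 : (H:ℝ) ^ ε = (H:ℝ) ^ (ε / 2) * (H:ℝ) ^ (ε / 2) := by
      rw [← Real.rpow_add (by linarith)]
      congr 1
      ring
    rw [h1]
    rw [pow_one] at hLb
    have : (4:ℝ) ≤ (H:ℝ) ^ (ε / 2) := by linarith
    gcongr
  have key := all_K (box j H) (fun c K => pa (pol c) K) (fun c K => la (pol c) K)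
    (fun c => SS z (pol c)) (U + 3) H ((H:ℝ) ^ (ε / 2)) B hL8
    (fun c _ K K' h => pa_mono _ h) (fun c _ K K' h => la_diff _ h)
    (fun c _ => hSSz (pol c)) hmb hLa P (by
      intro c0 hc0 hPc
      obtain ⟨hnf, K, hK1, hK2, hK3⟩ := hP c0 hc0 hPc
      refine ⟨K, h4a.trans hK1, hK2, lt_of_le_of_lt ?_ hK3⟩
      have hKH : K ≤ H := by
        have : (K:ℝ) ≤ H := by
          calc (K:ℝ) ≤ K * L ^ (B + 1) := le_mul_of_one_le_right (Nat.cast_nonneg _) (hLp _)
            _ ≤ H := hK2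
        exact_mod_cast this
      have h6j : 6 * j ≤ K := by
        have : 6 * (j:ℝ) ≤ K := hjK.trans hK1
        exact_mod_cast this
      have hla := la_lower j hj hjH hKH h6j hc0
      rw [← hLdef] at hla
      have hs1 := hSSl z hz3 (pol c0) (pol_natDegree_le c0) hnf
      have hzle : (z:ℝ) ≤ L ^ E := Nat.floor_le (by positivity)
      have hzr : (3:ℝ) ≤ z := by exact_mod_cast hz3
      have hlogz : Real.log z ≤ E * Real.log L := by
        rw [← Real.log_pow]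
        exact Real.log_le_log (by linarith) hzle
      have hlogz0 : 0 < Real.log z := Real.log_pos (by linarith)
      have h3 : 4 * (j + 2) / L ≤ SS z (pol c0) := by
        refine le_trans ?_ hs1
        rw [div_le_div_iff₀ hL0 (by positivity)]
        calc 4 * ((j:ℝ) + 2) * Real.log z ^ (2 * j) ≤ 4 * (j + 2) * (E * Real.log L) ^ (2 * j) := by
              gcongr
          _ = (E * Real.log L) ^ (2 * j) * (4 * (j + 2)) := by ring
          _ ≤ c * L := hll
      have hSS0 : 0 ≤ SS z (pol c0) := le_trans (by positivity) h3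
      calc K / L ^ (U + 3) ≤ (4 * (j + 2) / L) * (K / (2 * (j + 2) * L)) / L ^ U := by
            have : (4 * (j + 2) / L) * (K / (2 * (j + 2) * L)) / L ^ U =
                2 * K / (L ^ U * L ^ 2) := by
              field_simp
              ring
            rw [this, show U + 3 = U + 2 + 1 by ring, pow_succ, pow_add]
            rw [div_le_div_iff₀ (by positivity) (by positivity)]
            have hK0 : (0:ℝ) ≤ K := Nat.cast_nonneg _
            have h5 : (K:ℝ) * (L ^ U * L ^ 2) ≤ 2 * K * (L ^ U * L ^ 2) * L := by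
              have : 0 ≤ (K:ℝ) * (L ^ U * L ^ 2) := by positivity
              nlinarith
            calc (K:ℝ) * (L ^ U * L ^ 2) ≤ 2 * K * (L ^ U * L ^ 2) * L := h5
              _ = 2 * ↑K * (L ^ U * L ^ 2 * L) := by ring
        _ ≤ SS z (pol c0) * la (pol c0) K / L ^ U := by gcongr)
  refine key.trans ?_
  apply div_le_div_of_nonneg_left (Nat.cast_nonneg _) (hLp0 _)
  exact pow_le_pow_right₀ hL1 (by omega)

end Pool.Agent.TH892
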