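import Pool.Agent.TH892.CF2
import Pool.Agent.TH892.FullBox4
import Pool.Agent.Helper924.MW.Lower

/-!
For all but few triples of height at most `H`, the constant of Conjecture F is close to its cut
product.
-/

set_option autoImplicit false

namespace Pool.Agent.TH892
open Finset Filter Topology
open Pool.Agent.W468.ConjF
open Pool.Agent.H442R2.EHI (evt_log_pow evt_log_ge)

lemma low_ab (a b : ℤ) (ha : 1 ≤ a) (H z Z : ℕ) (hz : 2 ≤ z) (τ : ℝ) (hτ : 0 < τ) :
    (#((Icc (-(H : ℤ)) H).filter (fun c : ℤ => τ < |LOW a (b ^ 2 - 4 * a * c) z Z|)) : ℝ) ≤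
      (((2 * H + 1 : ℕ) : ℝ) / z + (Z : ℝ) ^ 2) / τ ^ 2 := by
  classical
  set P := (Ioc z Z).filter (fun p : ℕ => p.Prime ∧ ¬ (p : ℤ) ∣ a) with hP
  have hPp : ∀ p ∈ P, p.Prime ∧ p ≠ 2 ∧ z < p ∧ p ≤ Z ∧ ¬ (p : ℤ) ∣ (-4 * a) := by
    intro p hp
    rw [hP, mem_filter, mem_Ioc] at hp
    refine ⟨hp.2.1, by omega, hp.1.1, hp.1.2, ?_⟩
    intro hd
    have h1 : (p : ℤ) ∣ 4 * a := by
      have := (dvd_neg (α := ℤ)).2 hd
      simpa using this
    rcases (Nat.prime_iff_prime_int.1 hp.2.1).dvd_or_dvd h1 with h2 | h2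
    · have h3 : p ∣ 2 ^ 2 := by exact_mod_cast h2
      have := Nat.le_of_dvd (by norm_num) (hp.2.1.dvd_of_dvd_pow h3)
      omega
    · exact hp.2.2 h2
  refine le_trans ?_ (low_count (b ^ 2 + 4 * a * H) (-4 * a) P z Z (2 * H + 1) (by omega) hPp τ hτ)
  have hle : #((Icc (-(H : ℤ)) H).filter (fun c : ℤ => τ < |LOW a (b ^ 2 - 4 * a * c) z Z|)) ≤
      #((range (2 * H + 1)).filter (fun c : ℕ => τ < |∑ p ∈ P,
        (jacobiSym (b ^ 2 + 4 * a * H + (-4 * a) * c) p : ℝ) / p|)) := by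
    refine card_le_card_of_injOn (fun c => (c + H).toNat) ?_ ?_
    · intro c hc
      rw [mem_coe, mem_filter, mem_Icc] at hc
      rw [mem_coe, mem_filter, mem_range]
      refine ⟨by show (c + H).toNat < 2 * H + 1; omega, ?_⟩
      have e : b ^ 2 + 4 * a * H + (-4 * a) * (((c + H).toNat : ℕ) : ℤ) = b ^ 2 - 4 * a * c := by
        rw [Int.toNat_of_nonneg (by omega)]; ring
      rw [e]
      exact hc.2
    · intro c hc c' hc' h
      rw [mem_coe, mem_filter, mem_Icc] at hc hc'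
      simp only at h
      omega
  exact_mod_cast hle

lemma card_Tr (H : ℕ) : (#(Tr H) : ℝ) = H * ((2 * H + 1 : ℕ) : ℝ) ^ 2 := by
  unfold Tr
  rw [card_product, card_product, Int.card_Icc, Int.card_Icc]
  rw [show ((H : ℤ) + 1 - 1).toNat = H by omega, show ((H : ℤ) + 1 - -(H : ℤ)).toNat = 2 * H + 1 by omega]
  push_cast; ring

lemma low_box (H z Z : ℕ) (hz : 2 ≤ z) (τ : ℝ) (hτ : 0 < τ) :
    (#((Tr H).filter (fun t => τ < |LOW t.1 (dsc t) z Z|)) : ℝ) ≤
      H * ((2 * H + 1 : ℕ) : ℝ) * ((((2 * H + 1 : ℕ) : ℝ) / z + (Z : ℝ) ^ 2) / τ ^ 2) := by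
  classical
  rw [card_filter]
  push_cast
  unfold Tr
  rw [sum_product]
  simp_rw [sum_product]
  calc _ ≤ ∑ a ∈ Icc (1:ℤ) H, ∑ b ∈ Icc (-(H:ℤ)) H,
        ((((2 * H + 1 : ℕ) : ℝ) / z + (Z : ℝ) ^ 2) / τ ^ 2) := by
        refine sum_le_sum fun a ha => sum_le_sum fun b _ => ?_
        rw [mem_Icc] at ha
        refine le_trans (le_of_eq ?_) (low_ab a b ha.1 H z Z hz τ hτ)
        rw [card_filter]
        push_cast
        rfl
    _ = _ := by
        rw [sum_const, sum_const, Int.card_Icc, Int.card_Icc,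
          show ((H : ℤ) + 1 - 1).toNat = H by omega,
          show ((H : ℤ) + 1 - -(H : ℤ)).toNat = 2 * H + 1 by omega, nsmul_eq_mul, nsmul_eq_mul]
        push_cast; ring

/-- the maximal number of divisors -/
lemma max_div (H : ℕ) (hH : 1 ≤ H) (C : ℕ) (hC : ∀ n : ℕ, n ≠ 0 → (n.divisors.card) ^ 8 ≤ C * n) :
    ∃ M : ℕ, (∀ n : ℕ, 1 ≤ n → n ≤ H ^ 2 → n.divisors.card ≤ M) ∧ M ^ 8 ≤ C * H ^ 2 := by
  classical
  set M := (Icc 1 (H ^ 2)).sup (fun n : ℕ => n.divisors.card) with hM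
  refine ⟨M, fun n h1 h2 => Finset.le_sup (f := fun n : ℕ => n.divisors.card) (mem_Icc.2 ⟨h1, h2⟩), ?_⟩
  have hne : (Icc 1 (H ^ 2)).Nonempty := ⟨1, mem_Icc.2 ⟨le_rfl, Nat.one_le_pow _ _ hH⟩⟩
  obtain ⟨n, hn, hn2⟩ := Finset.exists_mem_eq_sup _ hne (fun n : ℕ => n.divisors.card)
  rw [hM, hn2]
  rw [mem_Icc] at hn
  exact (hC n (by omega)).trans (Nat.mul_le_mul_left _ hn.2)

lemma natlog_le (n : ℕ) (hn : 1 ≤ n) : (Nat.log 2 n : ℝ) * 0.69 ≤ Real.log n := by
  have h5 : (2 : ℝ) ^ Nat.log 2 n ≤ n := by exact_mod_cast Nat.pow_log_le_self 2 (by omega)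
  have h6 := Real.log_le_log (by positivity) h5
  rw [Real.log_pow] at h6
  have h8 : (0.69 : ℝ) < Real.log 2 := by have := Real.log_two_gt_d9; linarith
  have h9 : (0 : ℝ) ≤ Nat.log 2 n := by positivity
  nlinarith

lemma le_natlog (n : ℕ) (hn : 1 ≤ n) : Real.log n ≤ ((Nat.log 2 n : ℝ) + 1) * 0.7 := by
  have h1 : n < 2 ^ (Nat.log 2 n + 1) := Nat.lt_pow_succ_log_self (by norm_num) n
  have h5 : (n : ℝ) ≤ (2 : ℝ) ^ (Nat.log 2 n + 1) := by exact_mod_cast h1.le
  have h0 : (0:ℝ) < n := by exact_mod_cast hn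
  have h6 := Real.log_le_log h0 h5
  rw [Real.log_pow] at h6
  have h8 : Real.log 2 < (0.7 : ℝ) := by have := Real.log_two_lt_d9; linarith
  have h9 : (0 : ℝ) ≤ Nat.log 2 n := by positivity
  push_cast at h6
  nlinarith

theorem CF_box (U V : ℕ) : ∃ E1 : ℕ, ∀ E : ℕ, E1 ≤ E → ∃ H0 : ℕ, ∀ H : ℕ, H0 ≤ H →
    ∃ X : Finset (ℤ × ℤ × ℤ), X ⊆ Tr H ∧ (#X : ℝ) ≤ (#(Tr H) : ℝ) / Real.log H ^ U ∧
    ∀ t ∈ Tr H, t ∉ X → t.2.2 ≠ 0 → ¬ IsSquare (dsc t) →
      ∀ᶠ N in atTop, |Real.log (CF t.1 t.2.1 t.2.2 N) -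
        Real.log (CF t.1 t.2.1 t.2.2 ⌊Real.log H ^ E⌋₊)| ≤ 1 / Real.log H ^ V := by
  classical
  set W : ℕ := V + 2 with hW
  have hW1 : 1 ≤ W := by omega
  obtain ⟨C, hC1, hC⟩ := Pool.Agent.Helper924.MW.Lower.exists_divisor_bound 8 (by norm_num)
  obtain ⟨n₁, hn₁⟩ := tail (2 * (400 * W + 1))
  set C2 : ℝ := 16 * 38 ^ 19 * 2 ^ (38 * W) with hC2
  have hC20 : 0 < C2 := by positivity
  refine ⟨2 * V + U + 3, fun E hE => ?_⟩
  have hWr : (0:ℝ) < 200 * W := by positivity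
  set κ : ℝ := 1 / (200 * W) with hκ
  have hκ0 : 0 < κ := by positivity
  have hev : ∀ᶠ H : ℕ in atTop, 5000 + 64 * 3 ^ (V + 1) + 64 * C * C2 + n₁ ≤ Real.log H ∧
      Real.log H ^ (E + 1) ≤ (H:ℝ) ^ κ ∧ Real.log H ^ (U + 1) ≤ (H:ℝ) ^ κ ∧
      Real.log H ^ (V + 2) ≤ (H:ℝ) ^ κ ∧ 1 ≤ H := by
    filter_upwards [evt_log_ge (5000 + 64 * 3 ^ (V + 1) + 64 * C * C2 + n₁),
      evt_log_pow (E + 1) κ hκ0, evt_log_pow (U + 1) κ hκ0, evt_log_pow (V + 2) κ hκ0,
      eventually_ge_atTop 1] with H h1 h2 h3 h4 h5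
    exact ⟨h1, h2, h3, h4, h5⟩
  obtain ⟨H0, hH0⟩ := eventually_atTop.mp hev
  refine ⟨H0, fun H hH => ?_⟩
  obtain ⟨hL, hLE, hLU, hLV, hH1⟩ := hH0 H hH
  set L := Real.log H with hLd
  set z := ⌊L ^ E⌋₊ with hz
  set t : ℝ := (H:ℝ) ^ κ with ht
  have h3V : (0:ℝ) < 64 * 3 ^ (V + 1) := by positivity
  have hCC : (0:ℝ) < 64 * C * C2 := by
    have : (0:ℝ) < C := by exact_mod_cast hC1
    positivity
  have hn₁0 : (0:ℝ) ≤ n₁ := Nat.cast_nonneg _
  have hL5 : 5000 ≤ L := by linarith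
  have hL0 : 0 < L := by linarith
  have hL1 : 1 ≤ L := by linarith
  have hLp0 : ∀ n : ℕ, 0 < L ^ n := fun n => by positivity
  have hLp : ∀ n : ℕ, 1 ≤ L ^ n := fun n => one_le_pow₀ hL1
  have hHr : (1:ℝ) ≤ H := by exact_mod_cast hH1
  have hH0' : (0:ℝ) < H := by linarith
  -- t
  have hLt : L ≤ t := by
    refine le_trans ?_ hLV
    exact le_self_pow₀ hL1 (by omega)
  have ht1 : 1 ≤ t := hL1.trans hLt
  have ht0 : 0 < t := by linarith
  have htp : ∀ n : ℕ, 1 ≤ t ^ n := fun n => one_le_pow₀ ht1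
  have ht200 : t ^ (200 * W) = H := by
    rw [ht, ← Real.rpow_natCast, ← Real.rpow_mul hH0'.le, hκ]
    push_cast
    rw [one_div, inv_mul_cancel₀ hWr.ne', Real.rpow_one]
  -- I
  set I := ⌈t⌉₊ with hI
  have htI : t ≤ I := Nat.le_ceil t
  have hI2t : (I : ℝ) ≤ 2 * t := by
    have := Nat.ceil_lt_add_one (show 0 ≤ t by linarith)
    linarith
  have hI20 : 20 ≤ I := by
    have : (20:ℝ) ≤ I := by linarith
    exact_mod_cast this
  have hn₁I : n₁ ≤ I := by
    have : (n₁:ℝ) ≤ I := by linarith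
    exact_mod_cast this
  -- i0
  set i0 := Nat.log 2 H / 3 with hi0
  have hlog1 := natlog_le H hH1
  have hlog2 := le_natlog H hH1
  rw [← hLd] at hlog1 hlog2
  have hdm : Nat.log 2 H < 3 * (i0 + 1) := by
    have := Nat.div_add_mod (Nat.log 2 H) 3
    have := Nat.mod_lt (Nat.log 2 H) (show 0 < 3 by norm_num)
    omega
  have hi0L : L / 3 ≤ (i0:ℝ) - 1 := by
    have h1 : (Nat.log 2 H : ℝ) ≤ 3 * (i0 + 1) := by exact_mod_cast hdm.le
    linarith
  have hi0le : (i0:ℝ) ≤ L := by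
    have h1 : ((Nat.log 2 H / 3 : ℕ) : ℝ) ≤ (Nat.log 2 H : ℝ) / 3 := by
      exact_mod_cast Nat.cast_div_le
    rw [hi0]
    linarith [(Nat.cast_nonneg (Nat.log 2 H) : (0:ℝ) ≤ _)]
  have hi02 : 2 ≤ i0 := by
    have : (2:ℝ) ≤ i0 := by linarith
    exact_mod_cast this
  have hi0I : i0 ≤ I := by
    have : (i0:ℝ) ≤ I := by linarith
    exact_mod_cast this
  have hp1 : (2 ^ i0) ^ 3 ≤ H := by
    rw [← pow_mul]
    calc 2 ^ (i0 * 3) ≤ 2 ^ Nat.log 2 H := Nat.pow_le_pow_right (by norm_num) (Nat.div_mul_le_self _ _)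
      _ ≤ H := Nat.pow_log_le_self 2 (by omega)
  have hp2 : H ≤ (2 * 2 ^ i0) ^ 3 := by
    have h1 : H < 2 ^ (Nat.log 2 H + 1) := Nat.lt_pow_succ_log_self (by norm_num) H
    calc H ≤ 2 ^ (Nat.log 2 H + 1) := h1.le
      _ ≤ 2 ^ (3 * (i0 + 1)) := Nat.pow_le_pow_right (by norm_num) (by omega)
      _ = (2 * 2 ^ i0) ^ 3 := by rw [← pow_succ', ← pow_mul]; ring_nf
  -- 2^i0 is at least t^2/2
  have h2i : t ^ (66 * W) ≤ 2 * 2 ^ i0 := by
    have h1 : (t ^ (66 * W)) ^ 3 ≤ (2 * (2:ℝ) ^ i0) ^ 3 := by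
      calc (t ^ (66 * W)) ^ 3 = t ^ (198 * W) := by rw [← pow_mul]; ring_nf
        _ ≤ t ^ (200 * W) := pow_le_pow_right₀ ht1 (by omega)
        _ = H := ht200
        _ ≤ (2 * (2:ℝ) ^ i0) ^ 3 := by exact_mod_cast hp2
    exact (pow_le_pow_iff_left₀ (by positivity) (by positivity) (by norm_num)).1 h1
  have ht2i : t ^ 2 ≤ 2 * 2 ^ i0 := (pow_le_pow_right₀ ht1 (by omega)).trans h2i
  have htt : 5000 * t ≤ t ^ 2 := by
    rw [sq]; exact mul_le_mul_of_nonneg_right (by linarith) ht0.le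
  have ht2 : t ≤ 2 ^ i0 := by linarith
  -- z
  have hLE1 : L ≤ L ^ E := le_self_pow₀ hL1 (by omega)
  have hzlow : L ^ E / 2 ≤ z := by
    have := Nat.lt_floor_add_one (L ^ E)
    rw [← hz] at this
    linarith
  have hz0 : (0:ℝ) < z := by linarith
  have hz2 : 2 ≤ z := by
    have : (2:ℝ) ≤ z := by linarith
    exact_mod_cast this
  have hzt : (z:ℝ) ≤ t := by
    have h1 : (z:ℝ) ≤ L ^ E := Nat.floor_le (by positivity)
    exact (h1.trans (pow_le_pow_right₀ hL1 (by omega))).trans hLE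
  have hzZ : z ≤ 2 ^ i0 := by
    have : (z:ℝ) ≤ ((2 ^ i0 : ℕ) : ℝ) := by push_cast; linarith
    exact_mod_cast this
  -- the first exceptional set
  set τ : ℝ := 1 / (4 * L ^ V) with hτ
  have hτ0 : 0 < τ := by positivity
  set X1 := (Tr H).filter (fun s => τ < |LOW s.1 (dsc s) z (2 ^ i0)|) with hX1
  have hX1c : (#X1 : ℝ) ≤ (#(Tr H) : ℝ) / (2 * L ^ U) := by
    refine (low_box H z (2 ^ i0) hz2 τ hτ0).trans ?_
    rw [card_Tr]
    set Y : ℝ := ((2 * H + 1 : ℕ) : ℝ) with hY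
    have hYH : (H:ℝ) ≤ Y := by rw [hY]; push_cast; linarith
    have hY0 : 0 < Y := by linarith
    have h1 : (((2 ^ i0 : ℕ) : ℝ)) ^ 2 ≤ Y / z := by
      rw [le_div_iff₀ hz0]
      have h3 : (2 ^ i0) ^ 2 * z ≤ H := by
        calc (2 ^ i0) ^ 2 * z ≤ (2 ^ i0) ^ 2 * 2 ^ i0 := Nat.mul_le_mul_left _ hzZ
          _ = (2 ^ i0) ^ 3 := by ring
          _ ≤ H := hp1
      have h4 : (((2 ^ i0 : ℕ) : ℝ)) ^ 2 * z ≤ H := by exact_mod_cast h3
      linarith
    have h2 : 1 / (z:ℝ) ≤ 2 / L ^ (2 * V + U + 3) := by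
      rw [div_le_div_iff₀ hz0 (hLp0 _)]
      have : L ^ (2 * V + U + 3) ≤ L ^ E := pow_le_pow_right₀ hL1 hE
      linarith
    have h3 : (Y / z + (((2 ^ i0 : ℕ) : ℝ)) ^ 2) / τ ^ 2 ≤ Y / (2 * L ^ U) := by
      calc (Y / z + (((2 ^ i0 : ℕ) : ℝ)) ^ 2) / τ ^ 2 ≤ (2 * (Y * (1 / z))) / τ ^ 2 := by
            apply div_le_div_of_nonneg_right _ (by positivity)
            have : Y / z = Y * (1 / z) := by ring
            linarith
        _ ≤ (2 * (Y * (2 / L ^ (2 * V + U + 3)))) / τ ^ 2 := by gcongr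
        _ = Y / (2 * L ^ U) * (128 / L ^ 3) := by
            rw [hτ, show 2 * V + U + 3 = V + V + U + 3 by ring, pow_add, pow_add, pow_add]
            field_simp
            ring
        _ ≤ Y / (2 * L ^ U) * 1 := by
            apply mul_le_mul_of_nonneg_left _ (by positivity)
            rw [div_le_one (by positivity)]
            have : L ≤ L ^ 3 := le_self_pow₀ hL1 (by norm_num)
            linarith
        _ = _ := mul_one _
    calc (H:ℝ) * Y * ((Y / z + (((2 ^ i0 : ℕ) : ℝ)) ^ 2) / τ ^ 2) ≤ H * Y * (Y / (2 * L ^ U)) :=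
          mul_le_mul_of_nonneg_left h3 (by positivity)
      _ = H * Y ^ 2 / (2 * L ^ U) := by ring
  -- the second exceptional set
  obtain ⟨M, hM, hM8⟩ := max_div H hH1 C hC
  have hΔ3 : (5 * H ^ 2) ^ 3 ≤ (2 * 2 ^ i0) ^ 19 := by
    have h1 : 125 ≤ 2 * 2 ^ i0 := by
      have h2 : (125:ℝ) ≤ 2 * 2 ^ i0 := by linarith
      exact_mod_cast h2
    calc (5 * H ^ 2) ^ 3 = 125 * H ^ 6 := by ring
      _ ≤ (2 * 2 ^ i0) * ((2 * 2 ^ i0) ^ 3) ^ 6 := Nat.mul_le_mul h1 (Nat.pow_le_pow_left hp2 6)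
      _ = (2 * 2 ^ i0) ^ 19 := by ring
  obtain ⟨X2, hX2s, hX2c, hX2⟩ := mid_countT W H i0 I 19 M (by omega) (by norm_num) hΔ3 hM
  have hMt : (M:ℝ) ≤ C * t ^ (50 * W) := by
    have hCr : (1:ℝ) ≤ C := by exact_mod_cast hC1
    have h1 : (M:ℝ) ^ 8 ≤ (C * t ^ (50 * W)) ^ 8 := by
      calc (M:ℝ) ^ 8 ≤ C * (H:ℝ) ^ 2 := by exact_mod_cast hM8
        _ ≤ (C:ℝ) ^ 8 * (H:ℝ) ^ 2 := by
            apply mul_le_mul_of_nonneg_right _ (by positivity)
            exact le_self_pow₀ hCr (by norm_num)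
        _ = (C * t ^ (50 * W)) ^ 8 := by
            rw [← ht200, mul_pow, ← pow_mul, ← pow_mul]
            ring_nf
    exact (pow_le_pow_iff_left₀ (by positivity) (by positivity) (by norm_num)).1 h1
  have hIt : (I : ℝ) * (8 * (2 * ((19 : ℕ) : ℝ) * (I : ℝ) ^ (2 * W)) ^ 19) ≤ C2 * t ^ (39 * W) := by
    calc (I : ℝ) * (8 * (2 * ((19 : ℕ) : ℝ) * (I : ℝ) ^ (2 * W)) ^ 19)
        ≤ (2 * t) * (8 * (2 * ((19 : ℕ) : ℝ) * (2 * t) ^ (2 * W)) ^ 19) := by gcongr
      _ = C2 * (t * t ^ (38 * W)) := by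
          have h1 : ((2 * t) ^ (2 * W)) ^ 19 = 2 ^ (38 * W) * t ^ (38 * W) := by
            rw [← pow_mul, show 2 * W * 19 = 38 * W by ring, mul_pow]
          have h2 : (2 * ((19 : ℕ) : ℝ) * (2 * t) ^ (2 * W)) ^ 19 =
              38 ^ 19 * ((2 * t) ^ (2 * W)) ^ 19 := by
            rw [← mul_pow]; norm_num
          rw [h2, h1, hC2]
          ring
      _ ≤ C2 * (t ^ W * t ^ (38 * W)) := by
          have : t ≤ t ^ W := le_self_pow₀ ht1 (by omega)
          gcongr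
      _ = C2 * t ^ (39 * W) := by rw [← pow_add]; ring_nf
  have hX2c' : (#X2 : ℝ) ≤ (#(Tr H) : ℝ) / (2 * L ^ U) := by
    refine hX2c.trans ?_
    rw [card_Tr]
    have hYe : ((2 * H + 1 : ℕ) : ℝ) = 2 * H + 1 := by push_cast; ring
    rw [hYe]
    have hkey : 32 * (C * C2) * t ^ (89 * W) * L ^ U ≤ H := by
      have h1 : 32 * (C * C2) * L ^ U ≤ t := by
        calc 32 * (C * C2) * L ^ U ≤ L * L ^ U := by
              apply mul_le_mul_of_nonneg_right _ (hLp0 _).le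
              linarith
          _ = L ^ (U + 1) := by ring
          _ ≤ t := hLU
      calc 32 * (C * C2) * t ^ (89 * W) * L ^ U = (32 * (C * C2) * L ^ U) * t ^ (89 * W) := by ring
        _ ≤ t * t ^ (89 * W) := by gcongr
        _ = t ^ (1 + 89 * W) := by rw [pow_add, pow_one]
        _ ≤ t ^ (200 * W) := pow_le_pow_right₀ ht1 (by omega)
        _ = H := ht200
    calc (M:ℝ) * (2 * H + 1) * (4 * (3 * H + 1) * ((I : ℝ) * (8 * (2 * ((19 : ℕ) : ℝ) * (I : ℝ) ^ (2 * W)) ^ 19)))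
        ≤ (C * t ^ (50 * W)) * (2 * H + 1) * (4 * (4 * H) * (C2 * t ^ (39 * W))) := by
          gcongr
          linarith
      _ = (2 * H + 1) * H * (16 * (C * C2) * t ^ (89 * W)) := by
          rw [show 89 * W = 50 * W + 39 * W by ring, pow_add]
          ring
      _ ≤ (2 * H + 1) * H * ((2 * H + 1) / (2 * L ^ U)) := by
          apply mul_le_mul_of_nonneg_left _ (by positivity)
          rw [le_div_iff₀ (by positivity)]
          linarith
      _ = _ := by ring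
  refine ⟨X1 ∪ X2, union_subset (filter_subset _ _) hX2s, ?_, ?_⟩
  · calc (#(X1 ∪ X2) : ℝ) ≤ #X1 + #X2 := by exact_mod_cast card_union_le _ _
      _ ≤ (#(Tr H) : ℝ) / (2 * L ^ U) + (#(Tr H) : ℝ) / (2 * L ^ U) := add_le_add hX1c hX2c'
      _ = _ := by field_simp; ring
  · intro s hs hsX hs0 hsq
    rw [mem_union, not_or] at hsX
    have hD0 : dsc s ≠ 0 := by
      intro h; apply hsq; rw [h]; exact ⟨0, by simp⟩
    have hsT := (mem_Tr H s).1 hs
    have b1 : |LOW s.1 (dsc s) z (2 ^ i0)| ≤ τ := by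
      by_contra hcon
      push Not at hcon
      exact hsX.1 (by rw [hX1, mem_filter]; exact ⟨hs, hcon⟩)
    -- logs
    have hlogΔ : (Nat.log 2 (5 * H ^ 2) : ℝ) ≤ 4 * L := by
      have h1 := natlog_le (5 * H ^ 2) (by nlinarith)
      have h2 : Real.log ((5 * H ^ 2 : ℕ) : ℝ) = Real.log 5 + 2 * L := by
        push_cast
        rw [Real.log_mul (by norm_num) (by positivity), Real.log_pow]
        push_cast; ring
      have h3 : Real.log 5 ≤ 4 := by
        have := Real.log_le_sub_one_of_pos (show (0:ℝ) < 5 by norm_num)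
        linarith
      rw [h2] at h1
      linarith
    have hloga : (Nat.log 2 s.1.toNat : ℝ) ≤ 2 * L := by
      have h1 : Nat.log 2 s.1.toNat ≤ Nat.log 2 H := Nat.log_mono_right (by omega)
      have h2 : (Nat.log 2 s.1.toNat : ℝ) ≤ Nat.log 2 H := by exact_mod_cast h1
      linarith
    have hI0 : (i0:ℝ) - 1 > 0 := by linarith
    have b2 : |SJ (dsc s) (2 ^ i0) (2 ^ (I + 1))| ≤ 1 / (8 * L ^ V) := by
      refine (mid_sumW (dsc s) V i0 I (Nat.log 2 (5 * H ^ 2)) (by positivity) hi02 hi0I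
        (hX2 s hs hsX.2 hs0 hD0)).trans ?_
      have h1 : 4 / ((i0:ℝ) - 1) ^ (V + 1) ≤ 1 / (16 * L ^ V) := by
        calc 4 / ((i0:ℝ) - 1) ^ (V + 1) ≤ 4 / (L / 3) ^ (V + 1) := by
              apply div_le_div_of_nonneg_left (by norm_num) (by positivity)
              exact pow_le_pow_left₀ (by positivity) hi0L _
          _ = 1 / (16 * L ^ V) * (64 * 3 ^ (V + 1) / L) := by
              rw [div_pow, pow_succ L]
              field_simp
              norm_num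
          _ ≤ 1 / (16 * L ^ V) * 1 := by
              apply mul_le_mul_of_nonneg_left _ (by positivity)
              rw [div_le_one hL0]
              linarith
          _ = _ := mul_one _
      have h2 : 8 * (Nat.log 2 (5 * H ^ 2) : ℝ) / 2 ^ i0 ≤ 1 / (16 * L ^ V) := by
        calc 8 * (Nat.log 2 (5 * H ^ 2) : ℝ) / 2 ^ i0 ≤ 8 * (4 * L) / (t ^ 2 / 2) := by
              apply div_le_div₀ (by positivity) (by linarith) (by positivity) (by linarith)
          _ ≤ 1 / (16 * L ^ V) := by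
              rw [div_le_div_iff₀ (by positivity) (by positivity)]
              have h3 : L ^ (V + 1) ≤ t := (pow_le_pow_right₀ hL1 (by omega)).trans hLV
              have h4 : 8 * (4 * L) * (16 * L ^ V) = 512 * L ^ (V + 1) := by ring
              rw [h4]
              linarith
      have h3 : 1 / (8 * L ^ V) = 1 / (16 * L ^ V) + 1 / (16 * L ^ V) := by
        field_simp
        norm_num
      rw [h3]
      linarith
    have hII : 2 ^ i0 ≤ 2 ^ (I + 1) := Nat.pow_le_pow_right (by norm_num) (by omega)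
    have hIlt : I + 1 < 2 ^ (I + 1) := Nat.lt_two_pow_self
    filter_upwards [eventually_ge_atTop (2 ^ (I + 1))] with N hN
    have b3 : |SJ (dsc s) (2 ^ (I + 1)) N| ≤ 1 / (16 * L ^ V) := by
      refine (hn₁ (2 ^ (I + 1)) (by omega) (dsc s) hsq ?_ N hN).trans ?_
      · have h1 : (4 * (dsc s).natAbs : ℝ) ≤ 20 * t ^ (400 * W) := by
          have h2 : 4 * (dsc s).natAbs ≤ 20 * H ^ 2 := by
            have := dsc_le hs
            omega
          calc (4 * (dsc s).natAbs : ℝ) ≤ 20 * (H:ℝ) ^ 2 := by exact_mod_cast h2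
            _ = 20 * t ^ (400 * W) := by rw [← ht200, ← pow_mul]; ring_nf
        have h3 : Real.log ((2 ^ (I + 1) : ℕ) : ℝ) = ((I + 1 : ℕ) : ℝ) * Real.log 2 := by
          push_cast
          rw [Real.log_pow]
          push_cast
          ring
        rw [h3]
        refine h1.trans ?_
        set y : ℝ := ((I + 1 : ℕ) : ℝ) with hy
        have hy20 : 20 ≤ y := by
          rw [hy]; exact_mod_cast (by omega : 20 ≤ I + 1)
        have hyt : t ≤ y := by rw [hy]; push_cast; linarith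
        have h8 : (0.6 : ℝ) < Real.log 2 := by have := Real.log_two_gt_d9; linarith
        have h4 : y ≤ (y * Real.log 2) ^ 2 := by
          have h5 : y * 0.6 ≤ y * Real.log 2 := mul_le_mul_of_nonneg_left h8.le (by linarith)
          have h6 : (y * 0.6) ^ 2 ≤ (y * Real.log 2) ^ 2 := pow_le_pow_left₀ (by positivity) h5 2
          have h7 : 20 * y ≤ y * y := mul_le_mul_of_nonneg_right hy20 (by linarith)
          have h9 : (y * 0.6) ^ 2 = 0.36 * (y * y) := by ring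
          linarith
        calc 20 * t ^ (400 * W) ≤ y * y ^ (400 * W) := by gcongr
          _ = y ^ (400 * W + 1) := by ring
          _ ≤ ((y * Real.log 2) ^ 2) ^ (400 * W + 1) := pow_le_pow_left₀ (by linarith) h4 _
          _ = (y * Real.log 2) ^ (2 * (400 * W + 1)) := by rw [← pow_mul]
      · have h1 : t / 2 ≤ Real.log (((2 ^ (I + 1) : ℕ) : ℝ) - 1) := by
          have h2 : (2:ℝ) ^ I ≤ ((2 ^ (I + 1) : ℕ) : ℝ) - 1 := by
            push_cast
            rw [pow_succ]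
            have : (1:ℝ) ≤ 2 ^ I := one_le_pow₀ (by norm_num)
            linarith
          have h3 := Real.log_le_log (by positivity) h2
          rw [Real.log_pow] at h3
          have h8 : (0.6 : ℝ) < Real.log 2 := by have := Real.log_two_gt_d9; linarith
          have h9 : t * 0.6 ≤ I * Real.log 2 := by
            apply mul_le_mul htI h8.le (by norm_num) (by positivity)
          linarith
        calc 140 / Real.log (((2 ^ (I + 1) : ℕ) : ℝ) - 1) ≤ 140 / (t / 2) := by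
              apply div_le_div_of_nonneg_left (by norm_num) (by positivity) h1
          _ ≤ 1 / (16 * L ^ V) := by
              rw [div_le_div_iff₀ (by positivity) (by positivity)]
              have h3 : L ^ (V + 1) * 1 ≤ t := by
                rw [mul_one]; exact (pow_le_pow_right₀ hL1 (by omega)).trans hLV
              have h4 : 5000 * L ^ V ≤ L ^ (V + 1) := by
                rw [pow_succ, mul_comm (L ^ V) L]
                exact mul_le_mul_of_nonneg_right hL5 (hLp0 V).le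
              linarith
    have hcmp := CF_compare s.1 s.2.1 s.2.2 (by omega) z (2 ^ i0) N hz2 hzZ (hII.trans hN)
    refine hcmp.trans ?_
    have hSJ : |SJ (s.2.1 ^ 2 - 4 * s.1 * s.2.2) (2 ^ i0) N| ≤ 1 / (8 * L ^ V) + 1 / (16 * L ^ V) := by
      have e : s.2.1 ^ 2 - 4 * s.1 * s.2.2 = dsc s := rfl
      rw [e, SJ_add (dsc s) (2 ^ i0) (2 ^ (I + 1)) N hII hN]
      exact (abs_add_le _ _).trans (add_le_add b2 b3)
    have hlast : 12 / (z:ℝ) + 3 * (Nat.log 2 s.1.toNat) / z ≤ 1 / (16 * L ^ V) := by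
      have h1 : 12 / (z:ℝ) + 3 * (Nat.log 2 s.1.toNat) / z = (12 + 3 * (Nat.log 2 s.1.toNat)) / z := by ring
      rw [h1]
      calc (12 + 3 * (Nat.log 2 s.1.toNat : ℝ)) / z ≤ (7 * L) / (L ^ (V + 3) / 2) := by
            apply div_le_div₀ (by positivity) (by linarith) (by positivity)
            refine le_trans ?_ hzlow
            have : L ^ (V + 3) ≤ L ^ E := pow_le_pow_right₀ hL1 (by omega)
            linarith
        _ ≤ 1 / (16 * L ^ V) := by
            rw [div_le_div_iff₀ (by positivity) (by positivity), pow_add]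
            have h3 : 7 * L * (16 * L ^ V) = 112 * L * L ^ V := by ring
            have h4 : 1 * (L ^ V * L ^ 3 / 2) = (L ^ 3 / 2) * L ^ V := by ring
            rw [h3, h4]
            apply mul_le_mul_of_nonneg_right _ (hLp0 _).le
            have h5 : 5000 * L ≤ L ^ 2 := by
              rw [sq]; exact mul_le_mul_of_nonneg_right hL5 hL0.le
            have h6 : L ^ 2 ≤ L ^ 3 := pow_le_pow_right₀ hL1 (by norm_num)
            linarith
    have e1 : |LOW s.1 (s.2.1 ^ 2 - 4 * s.1 * s.2.2) z (2 ^ i0)| ≤ 1 / (4 * L ^ V) := b1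
    have e2 : 1 / L ^ V = 16 * (1 / (16 * L ^ V)) := by field_simp
    have e3 : 1 / (4 * L ^ V) = 4 * (1 / (16 * L ^ V)) := by field_simp; norm_num
    have e4 : 1 / (8 * L ^ V) = 2 * (1 / (16 * L ^ V)) := by field_simp; norm_num
    have e5 : 0 < 1 / (16 * L ^ V) := by positivity
    rw [e2]
    rw [e3] at e1
    rw [e4] at hSJ
    linarith

end Pool.Agent.TH892
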