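import Pool.Agent.TH892.CF3

/-!
Conjecture F for almost all triples of height at most `H`.
-/

set_option autoImplicit false

namespace Pool.Agent.TH892
open Finset Filter Topology Polynomial
open Pool.Agent.W468.ConjF
open Pool.Agent.H442R2.EHI (evt_log_pow evt_log_ge)
open Pool.Agent.H300R2.BH
open Pool.Agent.H300R2.FB

/-- the coefficient vector of a triple -/
def vec (t : ℤ × ℤ × ℤ) : Fin (2 + 1) → ℤ := ![t.2.2, t.2.1, t.1]

lemma vec_inj : Function.Injective vec := by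
  intro t t' h
  have h0 := congrFun h 0
  have h1 := congrFun h 1
  have h2 := congrFun h 2
  simp only [vec, Matrix.cons_val_zero, Matrix.cons_val_one, Matrix.cons_val] at h0 h1 h2
  exact Prod.ext h2 (Prod.ext h1 h0)

lemma vec_mem {H : ℕ} {t : ℤ × ℤ × ℤ} (ht : t ∈ Tr H) : vec t ∈ box 2 H := by
  rw [mem_Tr] at ht
  obtain ⟨h1, h2, h3⟩ := ht
  unfold box
  rw [Fintype.mem_piFinset]
  intro i
  fin_cases i
  · simpa [vec] using h3
  · simpa [vec] using h2
  · simpa [vec] using h1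

lemma vec_last (t : ℤ × ℤ × ℤ) : vec t (Fin.last 2) = t.1 := rfl

lemma vec_eval (t : ℤ × ℤ × ℤ) (n : ℤ) : (pol (vec t)).eval n = t.1 * n ^ 2 + t.2.1 * n + t.2.2 := by
  rw [pol_eval, Fin.sum_univ_three]
  simp [vec]
  ring

lemma card_box2 (H : ℕ) : ((box 2 H).card : ℝ) = (#(Tr H) : ℝ) := by
  rw [card_Tr]
  unfold box
  rw [Fintype.card_piFinset, Fin.prod_univ_three]
  simp only [Fin.val_zero, Fin.val_one, Fin.val_two]
  rw [if_neg (by norm_num), if_neg (by norm_num), if_pos trivial, Int.card_Icc, Int.card_Icc]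
  rw [show ((H : ℤ) + 1 - 1).toNat = H by omega, show ((H : ℤ) + 1 - -(H : ℤ)).toNat = 2 * H + 1 by omega]
  push_cast; ring

lemma rho_vec (t : ℤ × ℤ × ℤ) (p : ℕ) : rho (pol (vec t)) p = nr t.1 t.2.1 t.2.2 p := by
  unfold rho nr
  congr 1
  apply filter_congr
  intro k _
  rw [vec_eval]

/-- no fixed prime divisor -/
lemma rho_ne (t : ℤ × ℤ × ℤ) (h : Admissible t.1 t.2.1 t.2.2) (p : ℕ) (hp : p.Prime) :
    rho (pol (vec t)) p ≠ p := by
  rw [rho_vec]
  obtain ⟨ha, hg, h2, -⟩ := h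
  by_cases hp2 : p = 2
  · subst hp2
    rw [nr_two _ _ _ h2]
    split_ifs <;> norm_num
  · have hp3 : 3 ≤ p := by have := hp.two_le; omega
    by_cases hpa : (p : ℤ) ∣ t.1
    · by_cases hpb : (p : ℤ) ∣ t.2.1
      · have hpc : ¬ (p : ℤ) ∣ t.2.2 := by
          intro h5
          have := hg _ hpa hpb h5
          rw [Int.isUnit_iff] at this
          omega
        rw [nr_none _ _ _ _ hpa hpb hpc]
        omega
      · rw [nr_lin _ _ _ p hp hpa hpb]
        omega
    · have h3 := nr_odd t.1 t.2.1 t.2.2 p hp hp3 hpa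
      have h4 : jacobiSym (t.2.1 ^ 2 - 4 * t.1 * t.2.2) p ≤ 1 := by
        rcases jacobiSym.trichotomy (t.2.1 ^ 2 - 4 * t.1 * t.2.2) p with h | h | h <;> rw [h] <;> norm_num
      intro h5
      rw [h5] at h3
      omega

lemma SS_vec (t : ℤ × ℤ × ℤ) (h : Admissible t.1 t.2.1 t.2.2) (z : ℕ) (hz : 2 ≤ z) :
    SS z (pol (vec t)) = 2 * CF t.1 t.2.1 t.2.2 z := by
  rw [← euler_eq t.1 t.2.1 t.2.2 h z hz (fun _ => P t.1 t.2.1 t.2.2) (fun _ => rfl)]
  unfold SS Pool.Agent.H373R2.BH.eulerProduct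
  have hset : (Icc 1 z).filter Nat.Prime = (range (z + 1)).filter Nat.Prime := by
    ext p
    simp only [mem_filter, mem_Icc, mem_range]
    constructor
    · rintro ⟨⟨h1, h2⟩, h3⟩; exact ⟨by omega, h3⟩
    · rintro ⟨h1, h2⟩; exact ⟨⟨h2.one_lt.le, by omega⟩, h2⟩
  rw [hset]
  refine prod_congr rfl fun p _ => ?_
  have hom : Pool.Agent.H373R2.BH.omegaP (fun _ : Fin 1 => P t.1 t.2.1 t.2.2) p = rho (pol (vec t)) p := by
    unfold Pool.Agent.H373R2.BH.omegaP rho
    congr 1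
    apply filter_congr
    intro r _
    simp only [eval_P, exists_const, vec_eval]
  rw [hom, pow_one, div_eq_mul_inv, mul_comm]

lemma pv_vec (t : ℤ × ℤ × ℤ) (K : ℕ) : pv (pol (vec t)) K = piF t.1 t.2.1 t.2.2 K := by
  unfold pv piF
  simp only [vec_eval]

/-- the theorem -/
theorem quad_most (ε : ℝ) (hε : 0 < ε) (U : ℕ) : ∃ B H0 : ℕ, ∀ H : ℕ, H0 ≤ H →
    ∃ X : Finset (ℤ × ℤ × ℤ), X ⊆ Tr H ∧ (#X : ℝ) ≤ (#(Tr H) : ℝ) / Real.log H ^ U ∧
    ∀ t ∈ Tr H, t ∉ X → Admissible t.1 t.2.1 t.2.2 → ∃ C : ℝ, 0 < C ∧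
      Tendsto (fun z => CF t.1 t.2.1 t.2.2 z) atTop (𝓝 C) ∧
      ∀ x : ℕ, (H : ℝ) ^ ε ≤ x → (x : ℝ) * Real.log H ^ B ≤ H →
        |(piF t.1 t.2.1 t.2.2 x : ℝ) - 2 * C * lF (pol (vec t)) x| ≤
          2 * C * lF (pol (vec t)) x / Real.log H ^ U := by
  classical
  obtain ⟨E1, hE1⟩ := exc_box 2 (by norm_num) ε hε (U + 2)
  obtain ⟨E2, hE2⟩ := CF_box (U + 2) (U + 2)
  set E := max (max E1 E2) 1 with hE
  obtain ⟨B, x1, hb⟩ := hE1 E ((le_max_left _ _).trans (le_max_left _ _))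
  obtain ⟨x2, hc⟩ := hE2 E ((le_max_right _ _).trans (le_max_left _ _))
  obtain ⟨x3, hSS⟩ := SS_small (E - 1)
  have hE1' : 1 ≤ E := le_max_right _ _
  rw [show E - 1 + 1 = E by omega] at hSS
  obtain ⟨c, hc0, hSSl⟩ := SS_lower 2 (by norm_num)
  have hlogs : ∀ᶠ x : ℕ in atTop, (E * Real.log (Real.log x)) ^ (2 * 2) * 16 ≤ c * Real.log x := by
    have h1 : (fun t : ℝ => Real.log t ^ (2 * 2)) =o[atTop] fun t : ℝ => t :=
      Real.isLittleO_pow_log_id_atTop
    have h2 := h1.bound (show (0:ℝ) < c / (16 * (1 + E) ^ (2 * 2)) by positivity)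
    have h3 := (Real.tendsto_log_atTop.comp (tendsto_natCast_atTop_atTop (R := ℝ))).eventually h2
    filter_upwards [h3, evt_log_ge (Real.exp 1)] with x hx hx2
    simp only [Function.comp] at hx
    have ht0 : 0 < Real.log x := lt_of_lt_of_le (Real.exp_pos 1) hx2
    have hl : 1 ≤ Real.log (Real.log x) := by
      rw [Real.le_log_iff_exp_le ht0]; exact hx2
    rw [Real.norm_of_nonneg (by positivity), Real.norm_of_nonneg ht0.le] at hx
    calc (E * Real.log (Real.log x)) ^ (2 * 2) * 16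
        ≤ ((1 + E) * Real.log (Real.log x)) ^ (2 * 2) * 16 := by
          gcongr
          linarith
      _ = (16 * (1 + E) ^ (2 * 2)) * Real.log (Real.log x) ^ (2 * 2) := by
          rw [mul_pow]; ring
      _ ≤ (16 * (1 + E) ^ (2 * 2)) * (c / (16 * (1 + E) ^ (2 * 2)) * Real.log x) := by gcongr
      _ = c * Real.log x := by field_simp
  have hev : ∀ᶠ H : ℕ in atTop, x1 ≤ H ∧ x2 ≤ H ∧ x3 ≤ H ∧ 100 ≤ Real.log H ∧
      Real.log H ^ (2 * U + 20) ≤ (H:ℝ) ^ ε ∧ 3 ≤ H ∧
      (E * Real.log (Real.log H)) ^ (2 * 2) * 16 ≤ c * Real.log H := by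
    filter_upwards [eventually_ge_atTop x1, eventually_ge_atTop x2, eventually_ge_atTop x3,
      evt_log_ge 100, evt_log_pow (2 * U + 20) ε hε, eventually_ge_atTop 3, hlogs]
      with H h1 h2 h3 h4 h5 h6 h7
    exact ⟨h1, h2, h3, h4, h5, h6, h7⟩
  obtain ⟨H0, hH0⟩ := eventually_atTop.mp hev
  refine ⟨B, H0, fun H hH => ?_⟩
  obtain ⟨hx1, hx2, hx3, hL100, hLε, hH3, hll⟩ := hH0 H hH
  obtain ⟨hz3, hSSz⟩ := hSS H hx3
  obtain ⟨X1, hX1s, hX1c, hX1⟩ := hc H hx2
  set L := Real.log H with hLdef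
  set z := ⌊L ^ E⌋₊ with hz
  have hL0 : 0 < L := by linarith
  have hL1 : 1 ≤ L := by linarith
  have hLp0 : ∀ n : ℕ, 0 < L ^ n := fun n => by positivity
  have hLp : ∀ n : ℕ, 1 ≤ L ^ n := fun n => one_le_pow₀ hL1
  have hHr : (3:ℝ) ≤ H := by exact_mod_cast hH3
  have hHε0 : 0 < (H:ℝ) ^ ε := by positivity
  -- exceptional sets
  set Pb : (Fin (2 + 1) → ℤ) → Prop := fun v => (∀ p : ℕ, p.Prime → p ≤ z → rho (pol v) p ≠ p) ∧
      ∃ K : ℕ, (H : ℝ) ^ ε ≤ K ∧ (K : ℝ) * L ^ B ≤ H ∧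
        SS z (pol v) * la (pol v) K / L ^ (U + 2) < |pa (pol v) K - SS z (pol v) * la (pol v) K| with hPb
  have hPc := hb H hx1 Pb (fun v _ hv => hv)
  set X2 := (Tr H).filter (fun t => Pb (vec t)) with hX2
  have hX2c : (#X2 : ℝ) ≤ (#(Tr H) : ℝ) / L ^ (U + 2) := by
    rw [← card_box2]
    refine le_trans ?_ hPc
    have : #X2 ≤ #((box 2 H).filter Pb) := by
      refine card_le_card_of_injOn vec ?_ vec_inj.injOn
      intro t ht
      rw [mem_coe, hX2, mem_filter] at ht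
      rw [mem_coe, mem_filter]
      exact ⟨vec_mem ht.1, ht.2⟩
    exact_mod_cast this
  set X3 := (Tr H).filter (fun t => (t.1 : ℝ) * (H:ℝ) ^ ε < 2 * H * L ^ (U + 10)) with hX3
  have hX3c : (#X3 : ℝ) ≤ (#(Tr H) : ℝ) / L ^ (U + 2) := by
    set A0 : ℕ := ⌊2 * H * L ^ (U + 10) / (H:ℝ) ^ ε⌋₊ with hA0
    have hA0r : (A0:ℝ) ≤ 2 * H * L ^ (U + 10) / (H:ℝ) ^ ε := Nat.floor_le (by positivity)
    have hsub : X3 ⊆ Icc (1:ℤ) A0 ×ˢ Icc (-(H : ℤ)) H ×ˢ Icc (-(H : ℤ)) H := by
      intro t ht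
      rw [hX3, mem_filter, mem_Tr] at ht
      obtain ⟨⟨⟨h1, h2⟩, h3, h4⟩, h5⟩ := ht
      rw [mem_product, mem_product, mem_Icc, mem_Icc, mem_Icc]
      refine ⟨⟨h1, ?_⟩, h3, h4⟩
      have h6 : (t.1.toNat : ℤ) = t.1 := Int.toNat_of_nonneg (by omega)
      rw [← h6]
      have h7 : t.1.toNat ≤ A0 := by
        apply Nat.le_floor
        have h8 : ((t.1.toNat : ℕ) : ℝ) = (t.1 : ℝ) := by exact_mod_cast h6
        rw [h8, le_div_iff₀ hHε0]
        exact h5.le
      exact_mod_cast h7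
    have hcard : (#X3 : ℝ) ≤ A0 * ((2 * H + 1 : ℕ) : ℝ) ^ 2 := by
      have h1 := card_le_card hsub
      rw [card_product, card_product, Int.card_Icc, Int.card_Icc,
        show ((A0 : ℤ) + 1 - 1).toNat = A0 by omega,
        show ((H : ℤ) + 1 - -(H : ℤ)).toNat = 2 * H + 1 by omega] at h1
      have h2 : (#X3 : ℝ) ≤ ((A0 * ((2 * H + 1) * (2 * H + 1)) : ℕ) : ℝ) := by exact_mod_cast h1
      refine h2.trans (le_of_eq ?_)
      push_cast; ring
    refine hcard.trans ?_
    rw [card_Tr]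
    have h1 : (A0:ℝ) ≤ H / L ^ (U + 2) := by
      refine hA0r.trans ?_
      rw [div_le_div_iff₀ hHε0 (hLp0 _)]
      have h2 : 2 * L ^ (U + 10) * L ^ (U + 2) ≤ (H:ℝ) ^ ε := by
        calc 2 * L ^ (U + 10) * L ^ (U + 2) ≤ L * L ^ (U + 10) * L ^ (U + 2) := by
              gcongr
              linarith
          _ = L ^ (2 * U + 13) := by ring
          _ ≤ L ^ (2 * U + 20) := pow_le_pow_right₀ hL1 (by omega)
          _ ≤ _ := hLε
      calc 2 * (H:ℝ) * L ^ (U + 10) * L ^ (U + 2) = H * (2 * L ^ (U + 10) * L ^ (U + 2)) := by ring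
        _ ≤ H * (H:ℝ) ^ ε := by gcongr
    calc (A0:ℝ) * ((2 * H + 1 : ℕ) : ℝ) ^ 2 ≤ (H / L ^ (U + 2)) * ((2 * H + 1 : ℕ) : ℝ) ^ 2 := by gcongr
      _ = _ := by ring
  refine ⟨X1 ∪ (X2 ∪ X3), union_subset hX1s (union_subset (filter_subset _ _) (filter_subset _ _)), ?_, ?_⟩
  · have h1 : (#(X1 ∪ (X2 ∪ X3)) : ℝ) ≤ #X1 + (#X2 + #X3) := by
      have h2 := card_union_le X1 (X2 ∪ X3)
      have h3 := card_union_le X2 X3
      exact_mod_cast h2.trans (by omega)
    calc (#(X1 ∪ (X2 ∪ X3)) : ℝ) ≤ (#(Tr H) : ℝ) / L ^ (U + 2) + ((#(Tr H) : ℝ) / L ^ (U + 2) +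
          (#(Tr H) : ℝ) / L ^ (U + 2)) := h1.trans (add_le_add hX1c (add_le_add hX2c hX3c))
      _ = (#(Tr H) : ℝ) / L ^ U * (3 / L ^ 2) := by
          rw [pow_add]
          field_simp
          ring
      _ ≤ (#(Tr H) : ℝ) / L ^ U * 1 := by
          apply mul_le_mul_of_nonneg_left _ (by positivity)
          rw [div_le_one (by positivity)]
          have : L ≤ L ^ 2 := le_self_pow₀ hL1 (by norm_num)
          linarith
      _ = _ := mul_one _
  · intro t ht htX hadm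
    rw [mem_union, mem_union, not_or, not_or] at htX
    obtain ⟨ht1, ht2, ht3⟩ := htX
    have hsq : ¬ IsSquare (dsc t) := hadm.2.2.2
    have hc0' : t.2.2 ≠ 0 := by
      intro h
      apply hsq
      unfold dsc
      rw [h]
      exact ⟨t.2.1, by ring⟩
    have ha0 : 0 < t.1 := hadm.1
    obtain ⟨C, hC0, hClim⟩ := CF_tendsto t.1 t.2.1 t.2.2 ha0 hsq
    refine ⟨C, hC0, hClim, fun x hx hxB => ?_⟩
    -- the constant
    set θ : ℝ := 1 / L ^ (U + 2) with hθ
    have hθ0 : 0 < θ := by positivity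
    have hθ1 : θ ≤ 1 / 100 := by
      rw [hθ]
      apply one_div_le_one_div_of_le (by norm_num)
      have : L ≤ L ^ (U + 2) := le_self_pow₀ hL1 (by omega)
      linarith
    have hCF := CF_limit t.1 t.2.1 t.2.2 C hC0 hClim z θ (by linarith) (hX1 t ht ht1 hc0' hsq)
    have hSSe := SS_vec t hadm z (by omega)
    set F := pol (vec t) with hF
    set S := SS z F with hS
    have hSC : |S - 2 * C| ≤ 4 * θ * C := by
      rw [hSSe]
      have : 2 * CF t.1 t.2.1 t.2.2 z - 2 * C = 2 * (CF t.1 t.2.1 t.2.2 z - C) := by ring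
      rw [this, abs_mul, abs_of_pos (show (0:ℝ) < 2 by norm_num)]
      linarith
    obtain ⟨hSC1, hSC2⟩ := abs_le.mp hSC
    obtain ⟨s1, s2⟩ := hSSz F
    have hrho : ∀ p : ℕ, p.Prime → p ≤ z → rho F p ≠ p := fun p hp _ => rho_ne t hadm p hp
    -- lower bound of the constant
    have hs1 := hSSl z hz3 F (pol_natDegree_le _) hrho
    have hzle : (z:ℝ) ≤ L ^ E := Nat.floor_le (by positivity)
    have hzr : (3:ℝ) ≤ z := by exact_mod_cast hz3
    have hlogz : Real.log z ≤ E * Real.log L := by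
      rw [← Real.log_pow]
      exact Real.log_le_log (by linarith) hzle
    have hlogz0 : 0 < Real.log z := Real.log_pos (by linarith)
    have hS16 : 16 / L ≤ S := by
      refine le_trans ?_ hs1
      rw [div_le_div_iff₀ hL0 (by positivity)]
      calc 16 * Real.log z ^ (2 * 2) ≤ 16 * (E * Real.log L) ^ (2 * 2) := by gcongr
        _ = (E * Real.log L) ^ (2 * 2) * 16 := by ring
        _ ≤ c * L := hll
    have hSC4 : S ≤ 4 * C := by nlinarith
    have hC4 : 4 / L ≤ C := by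
      have : 16 / L = 4 * (4 / L) := by ring
      linarith
    -- the counting functions
    have hKH : x ≤ H := by
      have : (x:ℝ) ≤ H := by
        calc (x:ℝ) ≤ x * L ^ B := le_mul_of_one_le_right (Nat.cast_nonneg _) (hLp _)
          _ ≤ H := hxB
      exact_mod_cast this
    have hbig : L ^ (2 * U + 20) ≤ x := hLε.trans hx
    have hx0 : (0:ℝ) < x := lt_of_lt_of_le (hLp0 _) hbig
    have hx12 : 6 * 2 ≤ x := by
      have h1 : (12:ℝ) ≤ x := by
        have : L ≤ L ^ (2 * U + 20) := le_self_pow₀ hL1 (by omega)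
        linarith
      exact_mod_cast h1
    have hla := la_lower 2 (by norm_num) (by omega) hKH hx12 (vec_mem ht)
    rw [← hLdef, ← hF] at hla
    set K1 : ℕ := 2 * H / (vec t (Fin.last 2)).toNat with hK1
    obtain ⟨c1, c2, c3⟩ := abs_conv F x K1 (fun k hk _ => eval_nonneg (by norm_num) (vec_mem ht) hk)
    have hK1r : (K1:ℝ) ≤ x / L ^ (U + 10) := by
      have h1 : (K1:ℝ) ≤ ((2 * H : ℕ) : ℝ) / ((vec t (Fin.last 2)).toNat : ℝ) := Nat.cast_div_le
      have h2 : ((vec t (Fin.last 2)).toNat : ℝ) = (t.1 : ℝ) := by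
        rw [vec_last]
        exact_mod_cast Int.toNat_of_nonneg ha0.le
      rw [h2] at h1
      refine h1.trans ?_
      have h3 : ¬ ((t.1 : ℝ) * (H:ℝ) ^ ε < 2 * H * L ^ (U + 10)) := by
        intro h
        exact ht3 (by rw [hX3, mem_filter]; exact ⟨ht, h⟩)
      push Not at h3
      have ha0r : (0:ℝ) < t.1 := by exact_mod_cast ha0
      rw [div_le_div_iff₀ ha0r (hLp0 _)]
      push_cast
      calc 2 * (H:ℝ) * L ^ (U + 10) ≤ t.1 * (H:ℝ) ^ ε := h3
        _ ≤ t.1 * x := by gcongr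
        _ = x * t.1 := by ring
    have hmain : |pa F x - S * la F x| ≤ S * la F x / L ^ (U + 2) := by
      by_contra hcon
      push Not at hcon
      apply ht2
      rw [hX2, mem_filter]
      exact ⟨ht, hrho, x, hx, hxB, hcon⟩
    rw [← pv_vec, ← hF]
    set l := lF F x with hl
    have hK10 : (0:ℝ) ≤ K1 := Nat.cast_nonneg _
    have hK1s : (K1:ℝ) ≤ x / L ^ 10 := by
      refine hK1r.trans ?_
      apply div_le_div_of_nonneg_left hx0.le (hLp0 _)
      exact pow_le_pow_right₀ hL1 (by omega)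
    have hl16 : x / (16 * L) ≤ l := by
      have h1 : la F x - 2 * K1 ≤ l := by linarith
      refine le_trans ?_ h1
      have h2 : (x:ℝ) / (2 * ((2:ℕ) + 2) * L) = x / (8 * L) := by push_cast; ring_nf
      rw [h2] at hla
      have h3 : (x:ℝ) / L ^ 10 ≤ x / (32 * L) := by
        apply div_le_div_of_nonneg_left hx0.le (by positivity)
        calc 32 * L ≤ L * L := by gcongr; linarith
          _ = L ^ 2 := by ring
          _ ≤ L ^ 10 := pow_le_pow_right₀ hL1 (by omega)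
      have h4 : (x:ℝ) / (8 * L) = x / (16 * L) + 2 * (x / (32 * L)) := by
        field_simp
        norm_num
      linarith
    have hl0 : 0 < l := lt_of_lt_of_le (by positivity) hl16
    have hCl : (x:ℝ) / L ^ 3 ≤ C * l := by
      calc (x:ℝ) / L ^ 3 ≤ (4 / L) * (x / (16 * L)) := by
            have : (4 / L) * ((x:ℝ) / (16 * L)) = x / (4 * L ^ 2) := by
              field_simp
              norm_num
            rw [this]
            apply div_le_div_of_nonneg_left hx0.le (by positivity)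
            calc 4 * L ^ 2 ≤ L * L ^ 2 := by gcongr; linarith
              _ = L ^ 3 := by ring
        _ ≤ C * l := mul_le_mul hC4 hl16 (by positivity) hC0.le
    have hK1C : (K1:ℝ) ≤ θ * (C * l) / L := by
      calc (K1:ℝ) ≤ x / L ^ (U + 10) := hK1r
        _ ≤ x / L ^ (U + 6) := by
            apply div_le_div_of_nonneg_left hx0.le (hLp0 _)
            exact pow_le_pow_right₀ hL1 (by omega)
        _ = θ * (x / L ^ 3) / L := by
            rw [hθ, show U + 6 = (U + 2) + 3 + 1 by ring, pow_succ, pow_add L (U + 2) 3]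
            field_simp
        _ ≤ θ * (C * l) / L := by gcongr
    have hCl0 : 0 < C * l := mul_pos hC0 hl0
    -- the sum of the errors
    have e1 : pv F x - 2 * C * l = (pv F x - pa F x) + (pa F x - S * la F x) +
        (S * (la F x - l) + (S - 2 * C) * l) := by ring
    rw [e1]
    refine (abs_add_le _ _).trans ?_
    have h1 := abs_add_le (pv F x - pa F x) (pa F x - S * la F x)
    have h2 := abs_add_le (S * (la F x - l)) ((S - 2 * C) * l)
    have h3 : |pv F x - pa F x| ≤ K1 := by rw [abs_sub_comm]; exact c1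
    have h4 : |S * (la F x - l)| ≤ L * (2 * K1) := by
      rw [abs_of_nonneg (mul_nonneg s1 c2)]
      exact mul_le_mul s2 c3 c2 hL0.le
    have h5 : |(S - 2 * C) * l| ≤ 4 * θ * C * l := by
      rw [abs_mul, abs_of_pos hl0]
      exact mul_le_mul_of_nonneg_right hSC hl0.le
    have h6 : S * la F x / L ^ (U + 2) ≤ 5 * θ * (C * l) := by
      have h7 : la F x ≤ l + 2 * K1 := by linarith
      have h8 : S * la F x ≤ 5 * (C * l) := by
        calc S * la F x ≤ S * (l + 2 * K1) := mul_le_mul_of_nonneg_left h7 s1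
          _ = S * l + 2 * (S * K1) := by ring
          _ ≤ 4 * C * l + 2 * (L * (θ * (C * l) / L)) := by
              have g1 : S * l ≤ 4 * C * l := mul_le_mul_of_nonneg_right hSC4 hl0.le
              have g2 : S * K1 ≤ L * (θ * (C * l) / L) := mul_le_mul s2 hK1C hK10 hL0.le
              linarith
          _ = 4 * (C * l) + 2 * θ * (C * l) := by field_simp
          _ ≤ 4 * (C * l) + 1 * (C * l) := by
              gcongr
              linarith
          _ = 5 * (C * l) := by ring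
      calc S * la F x / L ^ (U + 2) ≤ 5 * (C * l) / L ^ (U + 2) := by gcongr
        _ = 5 * θ * (C * l) := by rw [hθ]; field_simp
    have h7 : (K1:ℝ) ≤ θ * (C * l) := by
      refine hK1C.trans ?_
      apply div_le_self (by positivity) hL1
    have h8 : L * (2 * K1) ≤ 2 * θ * (C * l) := by
      calc L * (2 * K1) ≤ L * (2 * (θ * (C * l) / L)) := by gcongr
        _ = 2 * θ * (C * l) := by field_simp
    have h9 : 12 * θ * (C * l) ≤ 2 * C * l / L ^ U := by
      have g1 : θ = 1 / L ^ U * (1 / L ^ 2) := by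
        rw [hθ, pow_add]; field_simp
      rw [g1]
      have g2 : 12 * (1 / L ^ U * (1 / L ^ 2)) * (C * l) = 2 * C * l / L ^ U * (6 / L ^ 2) := by
        field_simp
        norm_num
      rw [g2]
      apply mul_le_of_le_one_right (by positivity)
      rw [div_le_one (by positivity)]
      have : L ≤ L ^ 2 := le_self_pow₀ hL1 (by norm_num)
      linarith
    have h10 : 4 * θ * C * l = 4 * θ * (C * l) := by ring
    linarith

end Pool.Agent.TH892
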