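import Pool.Agent.H300R2.FB.Full2

/-!
Bateman-Horn for almost all polynomials of height at most `H`: the passage from the first moment
over the box of all polynomials to an exceptional set, with absolute values.
-/

namespace Pool.Agent.TH892

open Finset Polynomial Filter
open Pool.Agent.H442R2.EHI (evt_log_pow evt_log_ge)
open Pool.Agent.H300R2.BH
open Pool.Agent.H300R2.FB

/-- the polynomial with coefficients `c 0, ..., c j` -/
noncomputable def pol {j : ℕ} (c : Fin (j + 1) → ℤ) : ℤ[X] := ∑ i : Fin (j + 1), C (c i) * X ^ (i : ℕ)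

/-- `|c i| ≤ H` for all `i` and `c j ≥ 1` -/
noncomputable def box (j H : ℕ) : Finset (Fin (j + 1) → ℤ) :=
  Fintype.piFinset (fun i => if (i : ℕ) = j then Icc 1 (H : ℤ) else Icc (-(H : ℤ)) H)

lemma pol_eval {j : ℕ} (c : Fin (j + 1) → ℤ) (n : ℤ) :
    (pol c).eval n = ∑ i : Fin (j + 1), c i * n ^ (i : ℕ) := by
  unfold pol
  rw [eval_finsetSum]
  exact sum_congr rfl fun i _ => by simp

lemma pol_coeff {j : ℕ} (c : Fin (j + 1) → ℤ) (i : Fin (j + 1)) : (pol c).coeff i = c i := by
  unfold pol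
  rw [finsetSum_coeff, sum_eq_single i]
  · rw [coeff_C_mul, coeff_X_pow, if_pos rfl, mul_one]
  · intro b _ hb
    rw [coeff_C_mul, coeff_X_pow, if_neg, mul_zero]
    intro h
    exact hb (Fin.ext h.symm)
  · intro h
    exact absurd (mem_univ i) h

lemma pol_natDegree_le {j : ℕ} (c : Fin (j + 1) → ℤ) : (pol c).natDegree ≤ j := by
  unfold pol
  refine natDegree_sum_le_of_forall_le _ _ fun i _ => ?_
  refine (natDegree_C_mul_X_pow_le _ _).trans ?_
  have := i.2
  omega

lemma pol_natDegree {j H : ℕ} {c : Fin (j + 1) → ℤ} (hc : c ∈ box j H) : (pol c).natDegree = j := by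
  apply le_antisymm (pol_natDegree_le c)
  apply le_natDegree_of_ne_zero
  have h := pol_coeff c (Fin.last j)
  rw [Fin.val_last] at h
  rw [h]
  unfold box at hc
  rw [Fintype.mem_piFinset] at hc
  have h2 := hc (Fin.last j)
  rw [Fin.val_last, if_pos rfl, mem_Icc] at h2
  omega

/-- reindexing -/
lemma sum_box {j : ℕ} (hj : 1 ≤ j) (H : ℕ) (g : ℤ[X] → ℕ → ℝ) :
    ∑ c ∈ box j H, g (pol c) (c (Fin.last j)).toNat =
      ∑ r ∈ bx j (fun _ => H), ∑ a ∈ Ioc 0 (0 + (2 * H + 1)), ∑ d ∈ Ioc 0 H,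
        g (FP j H r a d) d := by
  classical
  simp only [← sum_product']
  symm
  refine sum_nbij' (fun p : (Fin (j - 1) → ℤ) × ℕ × ℕ => fun i : Fin (j + 1) =>
      if h0 : (i : ℕ) = 0 then (p.2.1 : ℤ) - H - 1 else if h : (i : ℕ) = j then (p.2.2 : ℤ) else
        p.1 ⟨(i : ℕ) - 1, by have := i.2; omega⟩)
    (fun c => ((fun i : Fin (j - 1) => c ⟨(i : ℕ) + 1, by omega⟩),
      (c ⟨0, by omega⟩ + H + 1).toNat, (c ⟨j, by omega⟩).toNat)) ?_ ?_ ?_ ?_ ?_
  · rintro ⟨r, a, d⟩ hp
    simp only [mem_product, mem_Ioc] at hp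
    obtain ⟨h1, h2, h3⟩ := hp
    unfold box
    rw [Fintype.mem_piFinset]
    intro i
    by_cases h0 : (i : ℕ) = 0
    · rw [if_neg (by omega : ¬ (i : ℕ) = j)]
      simp only [h0, dif_pos, mem_Icc]
      omega
    · by_cases hij : (i : ℕ) = j
      · rw [if_pos hij]
        have hj0 : ¬ (j = 0) := by omega
        simp only [hij, hj0, dif_neg, not_false_eq_true, dif_pos, mem_Icc]
        omega
      · rw [if_neg hij]
        simp only [h0, hij, dif_neg, not_false_eq_true]
        unfold bx at h1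
        rw [Fintype.mem_piFinset] at h1
        exact h1 _
  · intro c hc
    unfold box at hc
    rw [Fintype.mem_piFinset] at hc
    simp only [mem_product, mem_Ioc]
    have e0 := hc ⟨0, by omega⟩
    have ej := hc ⟨j, by omega⟩
    simp only at e0 ej
    rw [if_neg (by omega : ¬ (0 : ℕ) = j), mem_Icc] at e0
    rw [if_pos trivial, mem_Icc] at ej
    refine ⟨?_, by omega, by omega⟩
    unfold bx
    rw [Fintype.mem_piFinset]
    intro i
    have h1 := hc ⟨(i : ℕ) + 1, by omega⟩
    simp only at h1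
    rwa [if_neg (by omega)] at h1
  · rintro ⟨r, a, d⟩ hp
    simp only [mem_product, mem_Ioc] at hp
    obtain ⟨h1, h2, h3⟩ := hp
    simp only [Prod.mk.injEq]
    refine ⟨?_, ?_, ?_⟩
    · funext i
      have h4 : ¬ ((i : ℕ) + 1 = 0) := by omega
      have h5 : ¬ ((i : ℕ) + 1 = j) := by omega
      simp only [h4, h5, dif_neg, not_false_eq_true]
      rfl
    · simp only [dif_pos]
      omega
    · have h4 : ¬ (j = 0) := by omega
      simp only [h4, dif_neg, not_false_eq_true, dif_pos]
      omega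
  · intro c hc
    unfold box at hc
    rw [Fintype.mem_piFinset] at hc
    have e0 := hc ⟨0, by omega⟩
    have ej := hc ⟨j, by omega⟩
    simp only at e0 ej
    rw [if_neg (by omega : ¬ (0 : ℕ) = j), mem_Icc] at e0
    rw [if_pos trivial, mem_Icc] at ej
    funext i
    by_cases h0 : (i : ℕ) = 0
    · have hi : i = ⟨0, by omega⟩ := Fin.ext h0
      rw [hi]
      simp only [dif_pos]
      omega
    · by_cases hij : (i : ℕ) = j
      · have hi : i = ⟨j, by omega⟩ := Fin.ext hij
        have hj0 : ¬ (j = 0) := by omega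
        rw [hi]
        simp only [hj0, dif_neg, not_false_eq_true, dif_pos]
        omega
      · simp only [h0, hij, dif_neg, not_false_eq_true]
        congr 1
        apply Fin.ext
        simp only
        omega
  · rintro ⟨r, a, d⟩ hp
    congr 1
    swap
    · have h4 : ¬ (j = 0) := by omega
      simp only [Fin.val_last, h4, dif_neg, not_false_eq_true, dif_pos, Int.toNat_natCast]
    unfold FP FF Rr pol
    obtain ⟨l, rfl⟩ : ∃ l, j = l + 1 := ⟨j - 1, by omega⟩
    rw [Fin.sum_univ_succ, Fin.sum_univ_castSucc]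
    have h1 : ∀ i : Fin l, ¬ ((i.castSucc.succ : Fin (l + 1 + 1)) : ℕ) = 0 := by
      intro i; simp
    have h2 : ∀ i : Fin l, ¬ ((i.castSucc.succ : Fin (l + 1 + 1)) : ℕ) = l + 1 := by
      intro i
      have := i.2
      simp only [Fin.val_succ, Fin.val_castSucc]
      omega
    have h3 : ((Fin.last l).succ : Fin (l + 1 + 1)).val = l + 1 := by simp
    simp only [Fin.val_zero, ↓reduceDIte, h1, h2, dif_neg, not_false_eq_true, h3]
    have h4 : ¬ (l + 1 = 0) := by omega
    simp only [h4, dif_neg, not_false_eq_true, ↓reduceDIte, pow_zero, mul_one, map_sub, map_one, map_natCast, add_zero,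
      Fin.val_succ, Fin.val_castSucc, map_neg, one_mul]
    have h5 : ∑ x : Fin (l + 1 - 1), C (r x) * (X : ℤ[X]) ^ ((x : ℕ) + 1) =
        ∑ x : Fin l, C (r ⟨(x : ℕ) + 1 - 1, by omega⟩) * (X : ℤ[X]) ^ ((x : ℕ) + 1) := by
      refine sum_congr rfl fun x _ => ?_
      rfl
    rw [h5]
    ring

end Pool.Agent.TH892
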