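import Pool.Agent.TH892.ChowT
import Pool.Agent.TH892.AllK2
import Pool.Agent.TH892.FullBox

/-!
The Liouville function along all polynomials of height at most `H`.
-/

namespace Pool.Agent.TH892

open Finset Polynomial Filter
open Pool.Agent.H469R2.NK (e)
open Pool.Agent.H442R2.EHI (evt_log_pow evt_log_ge)
open Pool.Agent.H300R2.BH
open Pool.Agent.H300R2.FB

/-- the Liouville function on `ℕ`, `0` at `0` -/
noncomputable def lamN (n : ℕ) : ℂ := if n = 0 then 0 else (-1) ^ (ArithmeticFunction.cardFactors n)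

lemma lamN_le (n : ℕ) : ‖lamN n‖ ≤ 1 := by
  unfold lamN
  split_ifs
  · simp
  · simp

lemma lamN_FH : FH lamN := by
  intro E1 E3
  obtain ⟨x0, h⟩ := Pool.Agent.H534R2.BH.lam_fourier E1 E3
  refine ⟨x0, fun x hx q hq hqL b β hβ => ?_⟩
  refine le_trans (le_of_eq ?_) (h x hx q hq hqL b β hβ)
  congr 1
  refine sum_congr rfl fun n hn => ?_
  rw [mem_Icc] at hn
  unfold lamN
  rw [if_neg (by omega)]

lemma card_box' {j : ℕ} (hj : 1 ≤ j) (H : ℕ) :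
    ((box j H).card : ℝ) = ((bx j (fun _ => H)).card : ℝ) * ((2 * H + 1 : ℕ) : ℝ) * H := by
  have h := sum_box hj H (fun _ _ => (1:ℝ))
  simp only [sum_const, Nat.card_Ioc, nsmul_eq_mul, mul_one] at h
  rw [h]
  rw [show 0 + (2 * H + 1) - 0 = 2 * H + 1 by omega, Nat.sub_zero]
  ring

/-- the sum of `g(|f(n)|)` over `n ≤ K`, `n ≡ a (mod q)` -/
noncomputable def WW {j : ℕ} (g : ℕ → ℂ) (c : Fin (j + 1) → ℤ) (p : ℕ × ℕ) (K : ℕ) : ℂ :=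
  ∑ k ∈ (Icc 1 K).filter (fun k => k % p.1 = p.2), g ((pol c).eval (k : ℤ)).natAbs

lemma WW_diff {j : ℕ} (g : ℕ → ℂ) (hg : ∀ n, ‖g n‖ ≤ 1) (c : Fin (j + 1) → ℤ) (p : ℕ × ℕ)
    (K K' : ℕ) (h : K ≤ K') : ‖WW g c p K' - WW g c p K‖ ≤ (K' : ℝ) - K := by
  classical
  have hsplit : WW g c p K' = WW g c p K +
      ∑ k ∈ (Ioc K K').filter (fun k => k % p.1 = p.2), g ((pol c).eval (k : ℤ)).natAbs := by
    unfold WW
    rw [← sum_union]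
    · apply sum_congr _ fun _ _ => rfl
      ext k; simp only [mem_union, mem_filter, mem_Icc, mem_Ioc]; omega
    · rw [disjoint_left]
      intro k hk hk2
      rw [mem_filter, mem_Icc] at hk; rw [mem_filter, mem_Ioc] at hk2; omega
  rw [hsplit, add_sub_cancel_left]
  refine (norm_sum_le _ _).trans ?_
  calc _ ≤ ∑ k ∈ (Ioc K K').filter (fun k => k % p.1 = p.2), (1:ℝ) := sum_le_sum fun k _ => hg _
    _ ≤ ∑ k ∈ Ioc K K', (1:ℝ) :=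
        sum_le_sum_of_subset_of_nonneg (filter_subset _ _) fun _ _ _ => zero_le_one
    _ = (K' : ℝ) - K := by
        rw [sum_const, Nat.card_Ioc, nsmul_eq_mul, mul_one, Nat.cast_sub h]

/-- mean square over all polynomials of height at most `H`, every residue class -/
theorem box_small (j : ℕ) (hj : 1 ≤ j) (ε : ℝ) (hε : 0 < ε) (U : ℕ) (g : ℕ → ℂ)
    (hg : ∀ n, ‖g n‖ ≤ 1) (hF : FH g) :
    ∃ B H0 : ℕ, ∀ H : ℕ, H0 ≤ H → ∀ K : ℕ, (H : ℝ) ^ ε ≤ K → (K : ℝ) * Real.log H ^ B ≤ H →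
    ∀ p : ℕ × ℕ, 1 ≤ p.1 → (p.1 : ℝ) ≤ Real.log H ^ U →
    ∑ c ∈ box j H, ‖WW g c p K‖ ^ 2 ≤ ((box j H).card : ℝ) * (K : ℝ) ^ 2 / Real.log H ^ U := by
  obtain ⟨B, H0, h⟩ := full_small j hj ε hε U g hg hF
  refine ⟨B, H0, fun H hH K hK hKH p hp hpL => ?_⟩
  have h1 := h H hH K hK hKH p.1 p.2 hp hpL
  unfold WW
  rw [sum_box hj H (fun f _ => ‖∑ k ∈ (Icc 1 K).filter (fun k => k % p.1 = p.2),
    g (f.eval (k : ℤ)).natAbs‖ ^ 2), card_box' hj H]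
  exact h1

/-- **the exceptional set**, all lengths and all residue classes simultaneously -/
theorem box_exc (j : ℕ) (hj : 1 ≤ j) (ε : ℝ) (hε : 0 < ε) (U : ℕ) (g : ℕ → ℂ)
    (hg : ∀ n, ‖g n‖ ≤ 1) (hF : FH g) :
    ∃ B H0 : ℕ, ∀ H : ℕ, H0 ≤ H → ∀ (P : (Fin (j + 1) → ℤ) → Prop) [DecidablePred P],
    (∀ c ∈ box j H, P c → ∃ K : ℕ, (H : ℝ) ^ ε ≤ K ∧ (K : ℝ) * Real.log H ^ B ≤ H ∧
      ∃ p : ℕ × ℕ, 1 ≤ p.1 ∧ (p.1 : ℝ) ≤ Real.log H ^ U ∧ p.2 < p.1 ∧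
        K / Real.log H ^ U < ‖WW g c p K‖) →
    (((box j H).filter P).card : ℝ) ≤ ((box j H).card : ℝ) / Real.log H ^ U := by
  classical
  obtain ⟨B, H1, h⟩ := box_small j hj (ε / 2) (by positivity) (4 * U + 5 + 2 * U) g hg hF
  have hev : ∀ᶠ H : ℕ in atTop, H1 ≤ H ∧ 8 ≤ Real.log H ∧
      Real.log H ^ (U + 1) ≤ (H:ℝ) ^ (ε / 2) ∧ Real.log H ^ 1 ≤ (H:ℝ) ^ (ε / 2) ∧ 1 ≤ H := by
    filter_upwards [eventually_ge_atTop H1, evt_log_ge 8,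
      evt_log_pow (U + 1) (ε / 2) (by positivity), evt_log_pow 1 (ε / 2) (by positivity),
      eventually_ge_atTop 1] with H h1 h2 h3 h4 h5
    exact ⟨h1, h2, h3, h4, h5⟩
  obtain ⟨H0, hH0⟩ := eventually_atTop.mp hev
  refine ⟨B, H0, fun H hH P _ hP => ?_⟩
  obtain ⟨hH1, hL8, hLa, hLb, hHn⟩ := hH0 H hH
  set L := Real.log H with hLdef
  have hL0 : 0 < L := by linarith
  have hL1 : 1 ≤ L := by linarith
  have hLp : ∀ n : ℕ, 1 ≤ L ^ n := fun n => one_le_pow₀ hL1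
  have hHr : (1:ℝ) ≤ H := by exact_mod_cast hHn
  have h4a : 4 * (H:ℝ) ^ (ε / 2) ≤ (H:ℝ) ^ ε := by
    have h1 : (H:ℝ) ^ ε = (H:ℝ) ^ (ε / 2) * (H:ℝ) ^ (ε / 2) := by
      rw [← Real.rpow_add (by linarith)]
      congr 1
      ring
    rw [h1]
    rw [pow_one] at hLb
    have : (4:ℝ) ≤ (H:ℝ) ^ (ε / 2) := by linarith
    gcongr
  set Q := ⌊L ^ U⌋₊ with hQ
  have hQle : (Q:ℝ) ≤ L ^ U := Nat.floor_le (by positivity)
  set PP : Finset (ℕ × ℕ) := (Icc 1 Q) ×ˢ (range Q) with hPP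
  have hPPc : (PP.card : ℝ) ≤ L ^ (2 * U) := by
    rw [hPP, card_product, Nat.card_Icc, card_range, Nat.add_sub_cancel]
    push_cast
    calc (Q:ℝ) * Q ≤ L ^ U * L ^ U := by gcongr
      _ = L ^ (2 * U) := by rw [← pow_add]; congr 1; ring
  refine all_K2 (box j H) PP (fun c p K => WW g c p K) U (2 * U) H ((H:ℝ) ^ (ε / 2)) B hL8 hPPc
    (fun c _ p _ K K' hK => WW_diff g hg c p K K' hK) ?_ hLa P ?_
  · intro K hK hKH p hp
    rw [hPP, mem_product, mem_Icc] at hp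
    refine h H hH1 K hK hKH p hp.1.1 ?_
    calc (p.1 : ℝ) ≤ Q := by exact_mod_cast hp.1.2
      _ ≤ L ^ U := hQle
      _ ≤ _ := pow_le_pow_right₀ hL1 (by omega)
  · intro c hc hPc
    obtain ⟨K, hK1, hK2, p, hp1, hp2, hp3, hK3⟩ := hP c hc hPc
    have hpQ : p.1 ≤ Q := Nat.le_floor hp2
    refine ⟨K, h4a.trans hK1, hK2, p, ?_, hK3⟩
    rw [hPP, mem_product, mem_Icc, mem_range]
    exact ⟨⟨hp1, hpQ⟩, by omega⟩

end Pool.Agent.TH892
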