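import Pool.Agent.TH892.CoreT

/-!
Bounded Siegel-Walfisz functions along the polynomials of a full box, arguments in an arithmetic
progression.
-/

namespace Pool.Agent.TH892

open Finset Polynomial Filter
open Pool.Agent.H469R2.NK (e)
open Pool.Agent.H442R2.EHI (norm_add_sq_le evt_log_pow evt_log_ge)
open Pool.Agent.H300R2.BH
open Pool.Agent.H300R2.FB

/-- Fourier coefficients of `g` near rationals with small denominator are small -/
def FH (g : ℕ → ℂ) : Prop :=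
  ∀ E1 E3 : ℕ, ∃ x0 : ℕ, ∀ x : ℕ, x0 ≤ x → ∀ q : ℕ, 1 ≤ q → (q : ℝ) ≤ Real.log x ^ E1 →
    ∀ b : ℤ, ∀ β : ℝ, |β - (b : ℝ) / (q : ℝ)| ≤ Real.log x ^ E3 / x →
    ‖∑ n ∈ Icc 1 x, g n * e (n * β)‖ ≤ x / Real.log x ^ (2 * E3)

/-- mean square over a box of polynomials with positive values -/
theorem fam_small (j : ℕ) (hj : 1 ≤ j) (ε : ℝ) (hε : 0 < ε) (E0 E6 E7 U : ℕ) (g : ℕ → ℂ)
    (hg : ∀ n, ‖g n‖ ≤ 1) (hF : FH g) :
    ∃ B x0 : ℕ, ∀ x : ℕ, x0 ≤ x → ∀ (K D A a0 : ℕ) (m0 : ℤ) (H : Fin (j - 1) → ℕ) (σ : ℤ),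
    BoxF j K D A a0 m0 σ x (Real.log x ^ B) →
    (x : ℝ) ≤ D * (K : ℝ) ^ j * Real.log x ^ E0 → (x : ℝ) ^ ε ≤ K →
    (K : ℝ) * Real.log x ^ B ≤ A → (∀ i, A ≤ 2 * H i + 1) →
    (A : ℝ) ≤ D * Real.log x ^ E6 → A ≤ x →
    (∀ i, (H i : ℝ) * Real.log x ^ B ≤ D * (K : ℝ) ^ (j - 1 - (i : ℕ))) →
    ∀ (q0 a1 : ℕ), 1 ≤ q0 → (q0 : ℝ) ≤ Real.log x ^ E7 →
    ∑ r ∈ bx j H, ∑ a ∈ Ioc a0 (a0 + A), ∑ d ∈ Ioc D (2 * D),
      ‖∑ k ∈ (Icc 1 K).filter (fun k => k % q0 = a1), g ((FF (C m0 + 0 + Rr j r) j σ a d).eval (k : ℤ)).natAbs‖ ^ 2 ≤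
      ((bx j H).card : ℝ) * (A * D * (K : ℝ) ^ 2 / Real.log x ^ U) := by
  classical
  set E2 := U + 5 with hE2
  obtain ⟨E1, E3, B1, x1, -, hcore⟩ := coreT j hj ε hε E0 E2 E6 E7 (U + E0 + 8) 0
  obtain ⟨x3, hFx⟩ := hF E1 E3
  set B := B1 + E6 + j * E2 + 2 with hB
  have hev : ∀ᶠ x : ℕ in atTop, x1 ≤ x ∧ x3 ≤ x ∧ 3 ≤ x ∧
      1000 * (j + 2) ≤ Real.log x ∧ Real.log x ^ (B + E2 + 1) ≤ (x : ℝ) ^ ε := by
    filter_upwards [eventually_ge_atTop x1, eventually_ge_atTop x3,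
      eventually_ge_atTop 3, evt_log_ge (1000 * (j + 2)), evt_log_pow (B + E2 + 1) ε hε]
      with x h1 h3 h4 h5 h6
    exact ⟨h1, h3, h4, h5, h6⟩
  obtain ⟨x0, hx0⟩ := eventually_atTop.mp hev
  refine ⟨B, x0, fun x hx K D A a0 m0 H σ hbox hxDK hxK hKA1 hA1H hA1D hAx hH q0 a1 hq0 hq0L => ?_⟩
  obtain ⟨hx1, hx3, hx3', hL, hLε⟩ := hx0 x hx
  set L := Real.log x with hLdef
  have hj1 : (1:ℝ) ≤ j := by exact_mod_cast hj
  have hL1000 : (1000:ℝ) ≤ L := by nlinarith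
  have hL0 : 0 < L := by linarith
  have hL1 : 1 ≤ L := by linarith
  have hLp0 : ∀ n : ℕ, 0 < L ^ n := fun n => by positivity
  have hLp : ∀ n : ℕ, 1 ≤ L ^ n := fun n => one_le_pow₀ hL1
  have hLmono : ∀ m n : ℕ, m ≤ n → L ^ m ≤ L ^ n := fun m n h => pow_le_pow_right₀ hL1 h
  have hxr : (3:ℝ) ≤ x := by exact_mod_cast hx3'
  have hx0' : (0:ℝ) < x := by linarith
  obtain ⟨hDK, hσ⟩ := boxF_facts (hLp B) hbox
  have hK1r : (1:ℝ) ≤ K := ((hLp _).trans hLε).trans hxK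
  have hKpos : (0:ℝ) < K := by linarith
  have hK1n : 1 ≤ K := by exact_mod_cast hK1r
  have hKj : (0:ℝ) < (K:ℝ) ^ j := by positivity
  have hKA : (K:ℝ) ≤ A := by
    calc (K:ℝ) ≤ K * L ^ B := le_mul_of_one_le_right hKpos.le (hLp B)
      _ ≤ A := hKA1
  have hA0 : (0:ℝ) < A := by linarith
  have hKD : (K:ℝ) ≤ D := by
    have h1 : (K:ℝ) * L ^ B ≤ D * L ^ E6 := hKA1.trans hA1D
    have h2 : (K:ℝ) * L ^ E6 ≤ D * L ^ E6 := by
      refine le_trans ?_ h1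
      gcongr
      omega
    exact le_of_mul_le_mul_right h2 (hLp0 _)
  have hLBK : L ^ (B + E2 + 1) ≤ K := hLε.trans hxK
  have hLBD : L ^ B ≤ D := (hLmono _ _ (by omega)).trans (hLBK.trans hKD)
  have hD0 : (0:ℝ) < D := by linarith [hLp B]
  -- `K1`
  set K1 := ⌊(K:ℝ) / L ^ (U + 4)⌋₊ with hK1
  have hK1le : (K1:ℝ) ≤ K / L ^ (U + 4) := Nat.floor_le (by positivity)
  have hK1K : K1 ≤ K := by
    have : (K1:ℝ) ≤ K := hK1le.trans (div_le_self (by positivity) (hLp _))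
    exact_mod_cast this
  have hKK1 : (K:ℝ) ≤ K1 * L ^ E2 := by
    have h1 : (K:ℝ) / L ^ (U + 4) < K1 + 1 := Nat.lt_floor_add_one _
    have h2 : L ≤ (K:ℝ) / L ^ (U + 4) := by
      rw [le_div_iff₀ (hLp0 _)]
      calc L * L ^ (U + 4) = L ^ (U + 5) := by ring
        _ ≤ _ := hLmono _ _ (by omega)
        _ ≤ _ := hLBK
    have h3 : (K:ℝ) / L ^ (U + 4) ≤ K1 * L := by nlinarith
    calc (K:ℝ) = (K / L ^ (U + 4)) * L ^ (U + 4) := by field_simp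
      _ ≤ (K1 * L) * L ^ (U + 4) := by gcongr
      _ = K1 * L ^ E2 := by rw [hE2]; ring
  have hDKn : 2 * D * K ^ j ≤ x := by exact_mod_cast hDK
  set f : ℕ → ℂ := fun n => if n ≤ x then g n else 0 with hf
  have hfx : ∀ n, x < n → f n = 0 := by
    intro n hn
    rw [hf]
    simp only []
    rw [if_neg (by omega)]
  have hfe : ∀ n ∈ Icc 1 x, f n = g n := by
    intro n hn
    rw [mem_Icc] at hn
    rw [hf]
    simp only []
    rw [if_pos hn.2]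
  have hfour : FourierHyp f x E1 E3 := by
    intro q hq hqL b _ β hβ
    rw [sum_congr rfl (fun n hn => by rw [hfe n hn])]
    exact hFx x hx3 q hq hqL b β hβ
  have hfsq : ∑ n ∈ Icc 1 x, ‖f n‖ ^ 2 ≤ x * L ^ 2 := by
    calc ∑ n ∈ Icc 1 x, ‖f n‖ ^ 2 ≤ ∑ n ∈ Icc 1 x, (1:ℝ) := by
          refine sum_le_sum fun n hn => ?_
          rw [hfe n hn]
          exact pow_le_one₀ (norm_nonneg _) (hg n)
      _ = x := by simp
      _ = x * 1 := (mul_one _).symm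
      _ ≤ x * L ^ 2 := by gcongr; exact hLp 2
  have hHB : ∀ B0 : ℕ, B0 ≤ B → ∀ i, (H i : ℝ) * L ^ B0 ≤ D * (K : ℝ) ^ (j - 1 - (i : ℕ)) := by
    intro B0 hB0 i
    refine le_trans ?_ (hH i)
    gcongr
  -- values
  have hvals := fun r hr a d ha hd => fam_vals j hj x (L ^ B) L E0 E2 K K1 D A a0 0 m0 σ H
    (by linarith) hLBD (by
      calc 16 * ((j:ℝ) + 2) * L ^ (j * E2) ≤ L * L ^ (j * E2) := by
            gcongr
            linarith
        _ = L ^ (j * E2 + 1) := by ring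
        _ ≤ L ^ B := hLmono _ _ (by omega)) hK1K hK1n hKK1 hxDK hbox (by
          intro k _
          simp only [eval_zero, Int.cast_zero, abs_zero]
          positivity) hH r hr a d ha hd
  have hmain := hcore x hx1 f hfx hfour hfsq D K K1 A A a0
    0 m0 H σ hDKn hxDK hxK hK1K hKK1 (le_trans (by gcongr; omega) hKA1) le_rfl hA1H hA1D hAx
    (by
      intro k _
      simp only [eval_zero, Int.cast_zero, abs_zero]
      positivity)
    (hHB B1 (by omega)) (by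
      intro r hr a ha d hd k hk
      obtain ⟨v1, v2, -⟩ := hvals r hr a d ha hd
      have h1 := v1 k (by rw [mem_Ioc] at hk; rw [mem_Icc]; omega)
      have h2 := v2 k hk
      have h3 : (0:ℝ) ≤ x / L ^ (E0 + j * E2 + 1) := by positivity
      rw [abs_le]
      constructor
      · have : (0:ℝ) ≤ (((FF (C m0 + 0 + Rr j r) j σ a d).eval (k : ℤ) : ℤ) : ℝ) := h3.trans h2
        have h4 : (0:ℤ) ≤ (FF (C m0 + 0 + Rr j r) j σ a d).eval (k : ℤ) := by exact_mod_cast this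
        omega
      · have h4 : (FF (C m0 + 0 + Rr j r) j σ a d).eval (k : ℤ) ≤ (x : ℤ) := by exact_mod_cast h1
        omega) hσ q0 a1 hq0 hq0L
  have hpt : ∀ r ∈ bx j H, ∀ a ∈ Ioc a0 (a0 + A), ∀ d ∈ Ioc D (2 * D),
      ‖∑ k ∈ (Icc 1 K).filter (fun k => k % q0 = a1),
        g ((FF (C m0 + 0 + Rr j r) j σ a d).eval (k : ℤ)).natAbs‖ ^ 2 ≤
      2 * (K1 : ℝ) ^ 2 +
        2 * ‖∑ k ∈ (Ioc K1 K).filter (fun k => k % q0 = a1),
          fz f ((FF (C m0 + 0 + Rr j r) j σ a d).eval (k : ℤ))‖ ^ 2 := by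
    intro r hr a ha d hd
    obtain ⟨v1, v2, -⟩ := hvals r hr a d ha hd
    have hsplit : ∑ k ∈ (Icc 1 K).filter (fun k => k % q0 = a1),
        g ((FF (C m0 + 0 + Rr j r) j σ a d).eval (k : ℤ)).natAbs =
        ∑ k ∈ (Icc 1 K1).filter (fun k => k % q0 = a1),
          g ((FF (C m0 + 0 + Rr j r) j σ a d).eval (k : ℤ)).natAbs +
        ∑ k ∈ (Ioc K1 K).filter (fun k => k % q0 = a1),
          fz f ((FF (C m0 + 0 + Rr j r) j σ a d).eval (k : ℤ)) := by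
      have hU : (Icc 1 K).filter (fun k => k % q0 = a1) =
          (Icc 1 K1).filter (fun k => k % q0 = a1) ∪ (Ioc K1 K).filter (fun k => k % q0 = a1) := by
        ext k; simp only [mem_union, mem_filter, mem_Icc, mem_Ioc]; omega
      rw [hU, sum_union]
      · congr 1
        refine sum_congr rfl fun k hk => ?_
        unfold fz
        rw [mem_filter] at hk
        have h1 := v1 k (by rw [mem_Ioc] at hk; rw [mem_Icc]; omega)
        have h2 := v2 k hk.1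
        have h3 : (0:ℝ) < x / L ^ (E0 + j * E2 + 1) := by positivity
        have h4 : (0:ℤ) < (FF (C m0 + 0 + Rr j r) j σ a d).eval (k : ℤ) := by
          exact_mod_cast lt_of_lt_of_le h3 h2
        have h5 : (FF (C m0 + 0 + Rr j r) j σ a d).eval (k : ℤ) ≤ (x : ℤ) := by exact_mod_cast h1
        rw [if_pos (by omega), hf]
        simp only []
        rw [if_pos (by omega)]
        congr 1
        omega
      · rw [disjoint_left]
        intro k hk hk2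
        rw [mem_filter, mem_Icc] at hk; rw [mem_filter, mem_Ioc] at hk2; omega
    rw [hsplit]
    refine (norm_add_sq_le _ _).trans ?_
    have h1 : ‖∑ k ∈ (Icc 1 K1).filter (fun k => k % q0 = a1),
        g ((FF (C m0 + 0 + Rr j r) j σ a d).eval (k : ℤ)).natAbs‖ ≤ K1 := by
      refine (norm_sum_le _ _).trans ?_
      calc _ ≤ ∑ k ∈ (Icc 1 K1).filter (fun k => k % q0 = a1), (1:ℝ) :=
            sum_le_sum fun k _ => hg _
        _ ≤ ∑ k ∈ Icc 1 K1, (1:ℝ) :=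
            sum_le_sum_of_subset_of_nonneg (filter_subset _ _) fun _ _ _ => zero_le_one
        _ = K1 := by simp
    have h2 := pow_le_pow_left₀ (norm_nonneg _) h1 2
    linarith
  have hKsq : (K1:ℝ) ^ 2 ≤ K ^ 2 / L ^ (U + 1) := by
    calc (K1:ℝ) ^ 2 ≤ (K / L ^ (U + 4)) ^ 2 := by gcongr
      _ = K ^ 2 / L ^ (2 * (U + 4)) := by rw [div_pow, ← pow_mul]; congr 2; ring
      _ ≤ K ^ 2 / L ^ (U + 1) := by
          apply div_le_div_of_nonneg_left (by positivity) (hLp0 _) (hLmono _ _ (by omega))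
  set bc : ℝ := ((bx j H).card : ℝ) with hbc
  have hbc0 : 0 ≤ bc := Nat.cast_nonneg _
  calc ∑ r ∈ bx j H, ∑ a ∈ Ioc a0 (a0 + A), ∑ d ∈ Ioc D (2 * D),
      ‖∑ k ∈ (Icc 1 K).filter (fun k => k % q0 = a1),
        g ((FF (C m0 + 0 + Rr j r) j σ a d).eval (k : ℤ)).natAbs‖ ^ 2
      ≤ ∑ r ∈ bx j H, ∑ a ∈ Ioc a0 (a0 + A), ∑ d ∈ Ioc D (2 * D), (2 * (K1 : ℝ) ^ 2 +
        2 * ‖∑ k ∈ (Ioc K1 K).filter (fun k => k % q0 = a1),
          fz f ((FF (C m0 + 0 + Rr j r) j σ a d).eval (k : ℤ))‖ ^ 2) :=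
        sum_le_sum fun r hr => sum_le_sum fun a ha => sum_le_sum fun d hd => hpt r hr a ha d hd
    _ = bc * (A * (D * (2 * (K1 : ℝ) ^ 2))) + 2 * ∑ r ∈ bx j H, ∑ a ∈ Ioc a0 (a0 + A),
        ∑ d ∈ Ioc D (2 * D),
        ‖∑ k ∈ (Ioc K1 K).filter (fun k => k % q0 = a1),
          fz f ((FF (C m0 + 0 + Rr j r) j σ a d).eval (k : ℤ))‖ ^ 2 := by
        simp only [sum_add_distrib, mul_sum, sum_const, Nat.card_Ioc, nsmul_eq_mul]
        rw [show a0 + A - a0 = A by omega, show 2 * D - D = D by omega]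
    _ ≤ bc * (A * (D * (2 * (K ^ 2 / L ^ (U + 1))))) +
        2 * (bc * (A * x * ((K : ℝ) ^ 2 / (K : ℝ) ^ j) / L ^ (U + E0 + 8))) := by gcongr
    _ ≤ bc * (A * (D * (2 * (K ^ 2 / L ^ (U + 1))))) +
        2 * (bc * (A * (D * (K : ℝ) ^ j * L ^ E0) * ((K : ℝ) ^ 2 / (K : ℝ) ^ j) /
          L ^ (U + E0 + 8))) := by
        gcongr
    _ = bc * (A * D * (K : ℝ) ^ 2 / L ^ U) * (2 / L + 2 / L ^ 8) := by
        rw [show U + E0 + 8 = U + 8 + E0 by ring, pow_add L (U + 8), pow_add L U 8, pow_succ L U]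
        field_simp
    _ ≤ bc * (A * D * (K : ℝ) ^ 2 / L ^ U) * 1 := by
        apply mul_le_mul_of_nonneg_left _ (by positivity)
        have h1 : 2 / L ≤ 2 / 1000 := div_le_div_of_nonneg_left (by norm_num) (by norm_num) hL1000
        have h2 : 2 / L ^ 8 ≤ 2 / 1000 := by
          apply div_le_div_of_nonneg_left (by norm_num) (by norm_num)
          calc (1000:ℝ) ≤ L := hL1000
            _ = L ^ 1 := (pow_one L).symm
            _ ≤ L ^ 8 := hLmono _ _ (by norm_num)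
        linarith
    _ = _ := by rw [mul_one]

/-- **mean square over all polynomials of height at most `H`** -/
theorem full_small (j : ℕ) (hj : 1 ≤ j) (ε : ℝ) (hε : 0 < ε) (U : ℕ) (g : ℕ → ℂ)
    (hg : ∀ n, ‖g n‖ ≤ 1) (hF : FH g) :
    ∃ B H0 : ℕ, ∀ H : ℕ, H0 ≤ H → ∀ K : ℕ, (H : ℝ) ^ ε ≤ K → (K : ℝ) * Real.log H ^ B ≤ H →
    ∀ (q0 a1 : ℕ), 1 ≤ q0 → (q0 : ℝ) ≤ Real.log H ^ U →
    ∑ r ∈ bx j (fun _ => H), ∑ a ∈ Ioc 0 (0 + (2 * H + 1)), ∑ d ∈ Ioc 0 H,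
      ‖∑ k ∈ (Icc 1 K).filter (fun k => k % q0 = a1), g ((FP j H r a d).eval (k : ℤ)).natAbs‖ ^ 2 ≤
      ((bx j (fun _ => H)).card : ℝ) * ((2 * H + 1 : ℕ) : ℝ) * H * (K : ℝ) ^ 2 /
        Real.log H ^ U := by
  classical
  obtain ⟨B1, x1, hb⟩ := fam_small j hj (ε / (j + 2)) (by positivity) (U + 3) (U + 3) U (U + 2) g hg hF
  set n := B1 with hn
  obtain ⟨H1, hpar⟩ := params j hj ε hε U n
  have hev : ∀ᶠ H : ℕ in atTop, H1 ≤ H ∧ x1 ≤ H ∧ 8 ≤ Real.log H ∧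
      Real.log H ^ (U + 2) ≤ (H:ℝ) ^ (1:ℝ) ∧ 1 ≤ H := by
    filter_upwards [eventually_ge_atTop H1, eventually_ge_atTop x1,
      evt_log_ge 8, evt_log_pow (U + 2) 1 (by norm_num), eventually_ge_atTop 1]
      with H h1 h3 h4 h5 h6
    exact ⟨h1, h3, h4, h5, h6⟩
  obtain ⟨H0, hH0⟩ := eventually_atTop.mp hev
  refine ⟨n + 1, H0, fun H hH K hK hKH q0 a1 hq0 hq0L => ?_⟩
  obtain ⟨hH1, hHx1, hL8, hLH, hHn⟩ := hH0 H hH
  rw [Real.rpow_one] at hLH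
  set L := Real.log H with hLdef
  have hL0 : 0 < L := by linarith
  have hL1 : 1 ≤ L := by linarith
  have hLp0 : ∀ n : ℕ, 0 < L ^ n := fun n => by positivity
  have hLp : ∀ n : ℕ, 1 ≤ L ^ n := fun n => one_le_pow₀ hL1
  have hLmono : ∀ m n : ℕ, m ≤ n → L ^ m ≤ L ^ n := fun m n h => pow_le_pow_right₀ hL1 h
  have hHr : (1:ℝ) ≤ H := by exact_mod_cast hHn
  have hH0' : (0:ℝ) < H := by linarith
  have hK0 : (0:ℝ) < K := lt_of_lt_of_le (Real.rpow_pos_of_pos hH0' _) hK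
  set M := ⌈(H:ℝ) / L ^ (U + 2)⌉₊ with hM
  have hMge : (H:ℝ) / L ^ (U + 2) ≤ M := Nat.le_ceil _
  have hMle : (M:ℝ) ≤ 2 * (H / L ^ (U + 2)) := by
    have h1 : (M:ℝ) < H / L ^ (U + 2) + 1 := Nat.ceil_lt_add_one (by positivity)
    have h2 : 1 ≤ (H:ℝ) / L ^ (U + 2) := by rw [le_div_iff₀ (hLp0 _), one_mul]; exact hLH
    linarith
  have hM1 : 1 ≤ M := by
    have h2 : 0 < (H:ℝ) / L ^ (U + 2) := by positivity
    exact Nat.one_le_iff_ne_zero.mpr (by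
      intro h0
      rw [h0] at hMge
      simp only [Nat.cast_zero] at hMge
      linarith)
  obtain ⟨hHx, hLx, hpow, hLx2, hxK, hp⟩ := hpar H hH1 K M hK hKH hMge (4 * H * K ^ j) rfl
  set x := 4 * H * K ^ j with hx
  set bc : ℝ := ((bx j (fun _ => H)).card : ℝ) with hbc
  have hbc0 : 0 ≤ bc := Nat.cast_nonneg _
  have hAc : ((Ioc 0 (0 + (2 * H + 1))).card : ℝ) = ((2 * H + 1 : ℕ) : ℝ) := by
    rw [Nat.card_Ioc]; simp
  have hmain := dyad_box j H M hM1 (bx j (fun _ => H)) (Ioc 0 (0 + (2 * H + 1)))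
    (fun r a d => ‖∑ k ∈ (Icc 1 K).filter (fun k => k % q0 = a1),
      g ((FP j H r a d).eval (k : ℤ)).natAbs‖ ^ 2)
    (fun r a d => by positivity) ((K:ℝ) ^ 2)
    (bc * ((2 * H + 1 : ℕ) : ℝ) * (K:ℝ) ^ 2 / L ^ (U + 2))
    (by
      intro r _ a _ d _
      have h1 : ‖∑ k ∈ (Icc 1 K).filter (fun k => k % q0 = a1),
          g ((FP j H r a d).eval (k : ℤ)).natAbs‖ ≤ K := by
        refine (norm_sum_le _ _).trans ?_
        calc _ ≤ ∑ k ∈ (Icc 1 K).filter (fun k => k % q0 = a1), (1:ℝ) :=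
              sum_le_sum fun k _ => hg _
          _ ≤ ∑ k ∈ Icc 1 K, (1:ℝ) :=
              sum_le_sum_of_subset_of_nonneg (filter_subset _ _) fun _ _ _ => zero_le_one
          _ = K := by simp
      exact pow_le_pow_left₀ (norm_nonneg _) h1 2)
    (by positivity)
    (by
      intro D hMD hDH
      obtain ⟨p1, p2, p3, p4, p5, p6⟩ := hp D hMD hDH B1 le_rfl
      have h1 := hb x (hHx1.trans hHx) K D (2 * H + 1) 0 (-(H:ℤ) - 1)
          (fun _ => H) 1 p1 p2 hxK p3 (fun _ => le_rfl) p4 p5 p6 q0 a1 hq0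
          (hq0L.trans (by gcongr))
      refine h1.trans ?_
      have h2 : (0:ℝ) < Real.log x := by linarith
      calc bc * (((2 * H + 1 : ℕ) : ℝ) * D * (K:ℝ) ^ 2 / Real.log x ^ (U + 2))
          ≤ bc * (((2 * H + 1 : ℕ) : ℝ) * D * (K:ℝ) ^ 2 / L ^ (U + 2)) := by gcongr
        _ = _ := by ring)
  refine hmain.trans ?_
  rw [hAc]
  set AH : ℝ := ((2 * H + 1 : ℕ) : ℝ) with hAH
  have hAH0 : 0 ≤ AH := Nat.cast_nonneg _
  calc bc * AH * M * (K:ℝ) ^ 2 + 2 * (bc * AH * (K:ℝ) ^ 2 / L ^ (U + 2)) * H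
      ≤ bc * AH * (2 * (H / L ^ (U + 2))) * (K:ℝ) ^ 2 +
        2 * (bc * AH * (K:ℝ) ^ 2 / L ^ (U + 2)) * H := by
        gcongr
    _ = (bc * AH * H * (K:ℝ) ^ 2 / L ^ U) * (4 / L ^ 2) := by
        rw [pow_add]
        field_simp
        ring
    _ ≤ (bc * AH * H * (K:ℝ) ^ 2 / L ^ U) * 1 := by
        apply mul_le_mul_of_nonneg_left _ (by positivity)
        rw [div_le_one (hLp0 _)]
        nlinarith
    _ = _ := mul_one _

end Pool.Agent.TH892
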