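import Pool.Agent.TH892.MajT

/-!
The second moment over a full box of polynomials, arguments in an arithmetic progression.
-/

namespace Pool.Agent.TH892

open Finset Polynomial Filter
open Pool.Agent.H469R2.NK (e norm_e e_add conj_e e_zero)
open Pool.Agent.H442R2.EHI (sum_e_range e_add_int Maj maj_rep Pairs card_pairs poly twist nint
  norm_add_sq_le evt_log_pow evt_log_ge)
open Pool.Agent.H300R2.BH
open Pool.Agent.H300R2.FB
open Pool.Agent.H993R2.FB (inv_full)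

theorem coreT (j : ℕ) (hj : 1 ≤ j) (ε : ℝ) (hε : 0 < ε) (E0 E2 E6 E7 U E1' : ℕ) :
    ∃ E1 E3 B x0 : ℕ, E1' ≤ E1 ∧ ∀ x : ℕ, x0 ≤ x → ∀ f : ℕ → ℂ, (∀ n, x < n → f n = 0) →
    FourierHyp f x E1 E3 → ∑ n ∈ Icc 1 x, ‖f n‖ ^ 2 ≤ x * Real.log x ^ 2 →
    ∀ (D K K1 A A1 a0 : ℕ) (R : ℤ[X]) (m0 : ℤ) (H : Fin (j - 1) → ℕ) (σ : ℤ), 2 * D * K ^ j ≤ x →
    (x : ℝ) ≤ D * (K : ℝ) ^ j * Real.log x ^ E0 → (x : ℝ) ^ ε ≤ K → K1 ≤ K →
    (K : ℝ) ≤ K1 * Real.log x ^ E2 → (K : ℝ) * Real.log x ^ B ≤ A1 → A1 ≤ A →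
    (∀ i, A1 ≤ 2 * H i + 1) → (A1 : ℝ) ≤ D * Real.log x ^ E6 → A ≤ x →
    (∀ k ∈ Ioc K1 K, |((R.eval (k : ℤ) : ℤ) : ℝ)| ≤ (K : ℝ) ^ j / Real.log x ^ B) →
    (∀ i, (H i : ℝ) * Real.log x ^ B ≤ D * (K : ℝ) ^ (j - 1 - (i : ℕ))) →
    (∀ r ∈ bx j H, ∀ a ∈ Ioc a0 (a0 + A), ∀ d ∈ Ioc D (2 * D), ∀ k ∈ Ioc K1 K,
      |(FF (C m0 + R + Rr j r) j σ a d).eval (k : ℤ)| ≤ 15 * (x : ℤ)) →
    (σ = 1 ∨ σ = -1) → ∀ (q0 a1 : ℕ), 1 ≤ q0 → (q0 : ℝ) ≤ Real.log x ^ E7 →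
    ∑ r ∈ bx j H, ∑ a ∈ Ioc a0 (a0 + A), ∑ d ∈ Ioc D (2 * D),
      ‖∑ k ∈ (Ioc K1 K).filter (fun k => k % q0 = a1),
        fz f ((FF (C m0 + R + Rr j r) j σ a d).eval (k : ℤ))‖ ^ 2 ≤
      ((bx j H).card : ℝ) * (A * x * ((K : ℝ) ^ 2 / (K : ℝ) ^ j) / Real.log x ^ U) := by
  classical
  obtain ⟨E, L0, hcount⟩ := inv_full j hj (U + j * E2 + 4) E2 E6
  set E1 := max E E1' with hE1
  obtain ⟨E3, x1, hmaj⟩ := major_boxT j hj ε hε E0 E1 E2 0 E7 (6 * E1 + 2 * E7 + U + 1)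
  set B := E + j * E2 + (6 * E1 + 2 * E7 + U + 1) + 10 with hB
  have hEE1 : E ≤ E1 := le_max_left _ _
  have hev : ∀ᶠ x : ℕ in atTop, x1 ≤ x ∧ 3 ≤ x ∧ 400 * 10 ^ (j + 1) ≤ Real.log x ∧ L0 ≤ Real.log x ∧
      Real.log x ^ E ≤ (x : ℝ) ^ ε ∧ (1:ℝ) ≤ (x : ℝ) ^ ε := by
    filter_upwards [eventually_ge_atTop x1, eventually_ge_atTop 3,
      evt_log_ge (400 * 10 ^ (j + 1)), evt_log_ge L0, evt_log_pow E ε hε, evt_log_pow 0 ε hε]
      with x h1 h3 h4 h5 h6 h7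
    exact ⟨h1, h3, h4, h5, h6, by simpa using h7⟩
  obtain ⟨x0, hx0⟩ := eventually_atTop.mp hev
  refine ⟨E1, E3, B, x0, le_max_right _ _, fun x hx f hf hfour hsq D K K1 A A1 a0 R m0 H σ hDK hxDK
    hxK hK1 hKK1 hKA1 hA1A hA1H hA1D hAx hR hH hrange hσ q0 a1 hq0 hq0L => ?_⟩
  obtain ⟨hx1, hx3, hLc, hLL0, hLE, hxε⟩ := hx0 x hx
  set L := Real.log x with hLdef
  have h10 : (1:ℝ) ≤ 10 ^ (j + 1) := one_le_pow₀ (by norm_num)
  have hL : (400:ℝ) ≤ L := by nlinarith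
  have hL0 : 0 < L := by linarith
  have hL1 : 1 ≤ L := by linarith
  have hLp0 : ∀ n : ℕ, 0 < L ^ n := fun n => by positivity
  have hLp : ∀ n : ℕ, 1 ≤ L ^ n := fun n => one_le_pow₀ hL1
  have hLmono : ∀ m n : ℕ, m ≤ n → L ^ m ≤ L ^ n := fun m n h => pow_le_pow_right₀ hL1 h
  have hxr : (3:ℝ) ≤ x := by exact_mod_cast hx3
  have hx0' : (0:ℝ) < x := by linarith
  have hK1r : (1:ℝ) ≤ K := hxε.trans hxK
  have hK0 : (0:ℝ) < K := by linarith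
  have hK1n : 1 ≤ K := by exact_mod_cast hK1r
  have hKj : (0:ℝ) < (K:ℝ) ^ j := by positivity
  have hK1pos : 1 ≤ K1 := by
    rcases Nat.eq_zero_or_pos K1 with h | h
    · rw [h] at hKK1
      simp at hKK1
      exfalso
      rw [hKK1] at hK1n
      omega
    · exact h
  have hK1p : (0:ℝ) < K1 := by exact_mod_cast hK1pos
  have hA1pos : 1 ≤ A1 := by
    have : (0:ℝ) < A1 := lt_of_lt_of_le (by positivity) hKA1
    exact_mod_cast this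
  have hA1r : (0:ℝ) < A1 := by exact_mod_cast hA1pos
  have hA0 : (0:ℝ) < A := by
    have : (A1:ℝ) ≤ A := by exact_mod_cast hA1A
    linarith
  have hD0 : (0:ℝ) < D := by
    by_contra hneg
    push Not at hneg
    have h1 : (D:ℝ) * L ^ E6 ≤ 0 := mul_nonpos_of_nonpos_of_nonneg hneg (hLp0 _).le
    linarith
  have hD1 : 1 ≤ D := by exact_mod_cast hD0
  have hDK' : 2 * (D:ℝ) * (K:ℝ) ^ j ≤ x := by exact_mod_cast hDK
  have h4K : 4 * K ≤ A1 := by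
    have : (4:ℝ) * K ≤ A1 := by
      calc (4:ℝ) * K = K * 4 := by ring
        _ ≤ K * L ^ B := by
          gcongr
          calc (4:ℝ) ≤ L := by linarith
            _ = L ^ 1 := (pow_one L).symm
            _ ≤ L ^ B := hLmono _ _ (by omega)
        _ ≤ A1 := hKA1
    exact_mod_cast this
  -- `Q`, `δ`
  set Q := ⌊L ^ E1⌋₊ with hQ
  have hQle : (Q:ℝ) ≤ L ^ E1 := Nat.floor_le (by positivity)
  have hQ1 : 1 ≤ Q := Nat.le_floor (by simpa using hLp E1)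
  set δ : ℝ := L ^ E / ((A1 : ℝ) * (K:ℝ) ^ (j - 1)) with hδ
  have hδ0 : 0 ≤ δ := by positivity
  have hKjs : (K:ℝ) ^ j = (K:ℝ) ^ (j - 1) * K := by
    rw [← pow_succ]; congr 1; omega
  have hδK : δ * (K:ℝ) ^ j ≤ L ^ 0 := by
    rw [pow_zero, hδ, hKjs]
    have h1 : L ^ E / ((A1 : ℝ) * (K:ℝ) ^ (j - 1)) * ((K:ℝ) ^ (j - 1) * K) = L ^ E * K / A1 := by
      field_simp
    rw [h1, div_le_one hA1r]
    calc L ^ E * K ≤ L ^ B * K := by gcongr; omega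
      _ = K * L ^ B := by ring
      _ ≤ A1 := hKA1
  -- decomposition
  set N := 16 * x + 1 with hN
  have hNr : (0:ℝ) < N := by positivity
  have hNx : (N:ℝ) = 16 * x + 1 := by rw [hN]; push_cast; ring
  set S := Classical.choose (major_decomp f x Q N (by omega) δ) with hS
  obtain ⟨hS1, -, -⟩ := Classical.choose_spec (major_decomp f x Q N (by omega) δ)
  rw [← hS] at hS1
  have hdec : ∀ r ∈ bx j H, ∀ a ∈ Ioc a0 (a0 + A), ∀ d ∈ Ioc D (2 * D), ∀ k ∈ Ioc K1 K,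
      fz f ((FF (C m0 + R + Rr j r) j σ a d).eval (k : ℤ)) =
      (∑ h ∈ (range N).filter (fun h : ℕ => ¬ Maj Q δ ((h : ℝ) / (N : ℝ))), chf f x N h *
        e (-((((FF (C m0 + R + Rr j r) j σ a d).eval (k : ℤ) : ℤ) : ℝ) * h / (N : ℝ)))) +
      ∑ p ∈ Pairs Q, ∑ h ∈ S p, chf f x N h *
        e (-((((FF (C m0 + R + Rr j r) j σ a d).eval (k : ℤ) : ℤ) : ℝ) * h / (N : ℝ))) := by
    intro r hr a ha d hd k hk
    have hb := abs_le.mp (hrange r hr a ha d hd k hk)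
    rw [← ch_inv f x N hf (by omega) _ (by omega) (by omega)]
    rw [← hS1, ← sum_filter_add_sum_filter_not (range N) (fun h : ℕ => Maj Q δ ((h : ℝ) / (N : ℝ)))]
    rw [add_comm]
  -- minor arcs
  set Rc : ℝ := (K : ℝ) ^ 2 / L ^ (U + j * E2 + 4) with hRc
  set c : ℕ → ℂ := fun h => if Maj Q δ ((h : ℝ) / (N : ℝ)) then 0 else chf f x N h with hc
  have hmin := minorF j hj N A D A1 K1 K H ((Ioc K1 K).filter (fun k => k % q0 = a1)) (fun k hk => by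
      rw [mem_filter, mem_Ioc] at hk; rw [mem_Icc]; omega) a0 σ hσ c
    (fun k h => e (-(((m0 : ℝ) + ((R.eval (k : ℤ) : ℤ) : ℝ)) * h / N))) (fun k h => by rw [norm_e])
    hA1pos hA1A hA1H hD1 (by omega) (by
      have : D ≤ D * K ^ j := Nat.le_mul_of_pos_right _ (Nat.pow_pos (by omega))
      have h2 : 2 * D * K ^ j = D * K ^ j + D * K ^ j := by ring
      omega) (fun i => by
      have h1 : (H i : ℝ) ≤ x / 2 := by
        have h2 : (H i : ℝ) * 1 ≤ H i * L ^ B := by gcongr; exact hLp B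
        have h3 : (D:ℝ) * (K : ℝ) ^ (j - 1 - (i : ℕ)) ≤ D * (K:ℝ) ^ j := by
          gcongr
          omega
        linarith [hH i]
      have h2 : 2 * (H i : ℝ) ≤ x := by linarith
      have h3 : 2 * H i ≤ x := by exact_mod_cast h2
      omega) hK1pos h4K Rc (by
      intro h _ hch
      by_cases hm : Maj Q δ ((h : ℝ) / (N : ℝ))
      · simp [hc, hm] at hch
      · by_contra hlt
        push Not at hlt
        obtain ⟨q, hq1, hqE, b, hb⟩ := hcount L hLL0 K K1 A1 D (hLE.trans hxK) hK1 hKK1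
          (le_trans (by gcongr; omega) hKA1) hA1D ((h : ℝ) / N) (lt_of_lt_of_le hlt (by
            have hss : ((Ioc K1 K).filter (fun k => k % q0 = a1)) ×ˢ
                ((Ioc K1 K).filter (fun k => k % q0 = a1)) ⊆ (Ioc K1 K) ×ˢ (Ioc K1 K) :=
              product_subset_product (filter_subset _ _) (filter_subset _ _)
            exact_mod_cast card_le_card (filter_subset_filter _ hss)))
        apply hm
        refine ⟨q, ?_, b, hb⟩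
        rw [mem_Icc]
        refine ⟨hq1, Nat.le_floor (hqE.trans (hLmono _ _ hEE1))⟩)
  have h2 : ∀ (r : Fin (j - 1) → ℤ) (a d k : ℕ), ∑ h ∈ range N, c h *
      e (-(((m0 : ℝ) + ((R.eval (k : ℤ) : ℤ) : ℝ)) * h / N)) *
      e (-(((a : ℝ) + tR j (fun i => (r i : ℝ)) k + σ * d * (k : ℝ) ^ j) * h / N)) =
      ∑ h ∈ (range N).filter (fun h : ℕ => ¬ Maj Q δ ((h : ℝ) / (N : ℝ))),
        chf f x N h * e (-((((FF (C m0 + R + Rr j r) j σ a d).eval (k : ℤ) : ℤ) : ℝ) * h / N)) := by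
    intro r a d k
    rw [sum_filter]
    refine sum_congr rfl fun h _ => ?_
    rw [hc]
    by_cases hm : Maj Q δ ((h : ℝ) / (N : ℝ))
    · simp [hm]
    · simp only [hm, if_false, not_false_eq_true, if_true]
      rw [mul_assoc, ← e_add, FF_eval, eval_add, eval_add, eval_C, ← Rr_eval]
      congr 2
      push_cast
      ring
  simp only [h2] at hmin
  have h3 : ∑ h ∈ range N, ‖c h‖ ^ 2 ≤ ∑ h ∈ range N, ‖chf f x N h‖ ^ 2 := by
    refine sum_le_sum fun h _ => ?_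
    rw [hc]
    by_cases hm : Maj Q δ ((h : ℝ) / (N : ℝ))
    · simp only [hm, if_true]; simp
    · simp only [hm, if_false]; exact le_rfl
  have h4 := ch_parseval f x N (by omega)
  set V : ℝ := (K : ℝ) ^ 2 / (K : ℝ) ^ j with hV
  have hV0 : 0 ≤ V := by positivity
  have hsum : ∑ h ∈ range N, ‖c h‖ ^ 2 ≤ x * L ^ 2 / N := by
    rw [le_div_iff₀ hNr, mul_comm]
    calc (N:ℝ) * ∑ h ∈ range N, ‖c h‖ ^ 2 ≤ N * ∑ h ∈ range N, ‖chf f x N h‖ ^ 2 := by gcongr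
      _ = _ := h4
      _ ≤ _ := hsq
  have hK1j : (K:ℝ) ^ j ≤ (K1:ℝ) ^ j * L ^ (j * E2) := by
    calc (K:ℝ) ^ j ≤ (K1 * L ^ E2) ^ j := by gcongr
      _ = _ := by rw [mul_pow, ← pow_mul, mul_comm E2 j]
  have hcard := card_bx j H
  have hbx0 : (0:ℝ) ≤ ((bx j H).card : ℝ) := Nat.cast_nonneg _
  have hbound1 : (10 * (A : ℝ)) * ((10 * (D : ℝ)) * ∏ i, (10 * ((2 * H i + 1 : ℕ) : ℝ))) *
        ((Rc * (4 * N / (D * (K1 : ℝ) ^ j) + 1)) * ∑ h ∈ range N, ‖c h‖ ^ 2) ≤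
      ((bx j H).card : ℝ) * (A * x * V / (4 * L ^ U)) := by
    have hp : ∏ i : Fin (j - 1), (10 * ((2 * H i + 1 : ℕ) : ℝ)) = 10 ^ (j - 1) * ((bx j H).card : ℝ) := by
      rw [prod_mul_distrib, hcard, prod_const, card_univ, Fintype.card_fin]
    have h10j : (10:ℝ) * 10 * 10 ^ (j - 1) = 10 ^ (j + 1) := by
      have : (10:ℝ) ^ (j + 1) = 10 ^ (j - 1) * 10 ^ 2 := by
        rw [← pow_add]; congr 1; omega
      rw [this]; ring
    have hDKN : (D:ℝ) * (K1:ℝ) ^ j ≤ N := by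
      have h5 : (K1:ℝ) ^ j ≤ (K:ℝ) ^ j := by
        gcongr
      have h6 : (D:ℝ) * (K1:ℝ) ^ j ≤ D * (K:ℝ) ^ j := by gcongr
      rw [hNx]
      nlinarith
    have hal := alg1 A D ((bx j H).card : ℝ) x L ((K:ℝ) ^ 2) ((K1:ℝ) ^ j) ((K:ℝ) ^ j) N
      (∑ h ∈ range N, ‖c h‖ ^ 2) (10 ^ (j + 1)) U (j * E2) hA0.le hD0 hbx0 hx0'.le (by linarith)
      (by positivity) (by positivity) hKj hNr hsum hDKN hK1j (by positivity) (by nlinarith)
    rw [hp]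
    refine le_trans (le_of_eq ?_) hal
    rw [← h10j, hRc]
    ring
  have hmaj' : ∀ a ∈ Ioc a0 (a0 + A), ∑ r ∈ bx j H, ∑ d ∈ Ioc D (2 * D),
      ‖∑ k ∈ (Ioc K1 K).filter (fun k => k % q0 = a1),
      ∑ p ∈ Pairs Q, ∑ h ∈ S p, chf f x N h *
        e (-((((FF (C m0 + R + Rr j r) j σ a d).eval (k : ℤ) : ℤ) : ℝ) * h / (N : ℝ)))‖ ^ 2 ≤
      (Q : ℝ) ^ 6 * (q0 : ℝ) ^ 2 * (((bx j H).card : ℝ) * (x * V / L ^ (6 * E1 + 2 * E7 + U + 1))) := by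
    intro a _
    refine hmaj x hx1 f hfour hsq Q D K K1 δ hQ1 hQle hD1 hDK hxDK hxK hK1 hKK1 hδ0 hδK R m0 H
      (fun k hk => (hR k hk).trans ?_) ?_ a σ hσ q0 a1 hq0 hq0L
    · apply div_le_div_of_nonneg_left hKj.le (hLp0 _)
      exact hLmono _ _ (by omega)
    · intro i
      have h5 : (K:ℝ) ^ (j - 1 - (i : ℕ)) ≤ (K1:ℝ) ^ (j - 1 - (i : ℕ)) * L ^ (E2 * (j - 1 - (i : ℕ))) := by
        calc (K:ℝ) ^ (j - 1 - (i : ℕ)) ≤ (K1 * L ^ E2) ^ (j - 1 - (i : ℕ)) := by gcongr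
          _ = _ := by rw [mul_pow, ← pow_mul]
      have hE2j : E2 * (j - 1 - (i : ℕ)) ≤ j * E2 := by
        rw [mul_comm]
        exact Nat.mul_le_mul_right _ (by omega)
      have h6 : (H i : ℝ) * L * L ^ (j * E2) ≤ (D * (K1:ℝ) ^ (j - 1 - (i : ℕ))) * L ^ (j * E2) := by
        calc (H i : ℝ) * L * L ^ (j * E2) = H i * L ^ (j * E2 + 1) := by rw [pow_succ]; ring
          _ ≤ H i * L ^ B := by gcongr; omega
          _ ≤ D * (K : ℝ) ^ (j - 1 - (i : ℕ)) := hH i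
          _ ≤ D * ((K1:ℝ) ^ (j - 1 - (i : ℕ)) * L ^ (E2 * (j - 1 - (i : ℕ)))) := by gcongr
          _ ≤ D * ((K1:ℝ) ^ (j - 1 - (i : ℕ)) * L ^ (j * E2)) := by
              gcongr
          _ = _ := by ring
      exact le_of_mul_le_mul_right h6 (hLp0 _)
  have hbound2 : (A:ℝ) * ((Q : ℝ) ^ 6 * (q0 : ℝ) ^ 2 *
      (((bx j H).card : ℝ) * (x * V / L ^ (6 * E1 + 2 * E7 + U + 1)))) ≤
      ((bx j H).card : ℝ) * (A * x * V / (4 * L ^ U)) := by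
    have hQ6 : (Q:ℝ) ^ 6 * (q0 : ℝ) ^ 2 ≤ L ^ (6 * E1 + 2 * E7) := by
      calc (Q:ℝ) ^ 6 * (q0 : ℝ) ^ 2 ≤ (L ^ E1) ^ 6 * (L ^ E7) ^ 2 := by gcongr
        _ = L ^ (6 * E1 + 2 * E7) := by
            rw [← pow_mul, ← pow_mul, ← pow_add]; congr 1; ring
    exact alg2 A ((Q : ℝ) ^ 6 * (q0 : ℝ) ^ 2) ((bx j H).card : ℝ) (x * V) (A * x * V) L
      (6 * E1 + 2 * E7) U hA0.le hbx0 (by positivity) (by ring) (by linarith) hQ6
  calc ∑ r ∈ bx j H, ∑ a ∈ Ioc a0 (a0 + A), ∑ d ∈ Ioc D (2 * D), ‖∑ k ∈ (Ioc K1 K).filter (fun k => k % q0 = a1),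
        fz f ((FF (C m0 + R + Rr j r) j σ a d).eval (k : ℤ))‖ ^ 2
      ≤ ∑ r ∈ bx j H, ∑ a ∈ Ioc a0 (a0 + A), ∑ d ∈ Ioc D (2 * D), (2 * ‖∑ k ∈ (Ioc K1 K).filter (fun k => k % q0 = a1),
        ∑ h ∈ (range N).filter (fun h : ℕ => ¬ Maj Q δ ((h : ℝ) / (N : ℝ))), chf f x N h *
        e (-((((FF (C m0 + R + Rr j r) j σ a d).eval (k : ℤ) : ℤ) : ℝ) * h / (N : ℝ)))‖ ^ 2 +
        2 * ‖∑ k ∈ (Ioc K1 K).filter (fun k => k % q0 = a1), ∑ p ∈ Pairs Q, ∑ h ∈ S p, chf f x N h *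
        e (-((((FF (C m0 + R + Rr j r) j σ a d).eval (k : ℤ) : ℤ) : ℝ) * h / (N : ℝ)))‖ ^ 2) := by
        refine sum_le_sum fun r hr => sum_le_sum fun a ha => sum_le_sum fun d hd => ?_
        rw [sum_congr rfl (fun k hk => hdec r hr a ha d hd k (mem_filter.mp hk).1), sum_add_distrib]
        exact norm_add_sq_le _ _
    _ = 2 * ∑ r ∈ bx j H, ∑ a ∈ Ioc a0 (a0 + A), ∑ d ∈ Ioc D (2 * D), ‖∑ k ∈ (Ioc K1 K).filter (fun k => k % q0 = a1),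
        ∑ h ∈ (range N).filter (fun h : ℕ => ¬ Maj Q δ ((h : ℝ) / (N : ℝ))), chf f x N h *
        e (-((((FF (C m0 + R + Rr j r) j σ a d).eval (k : ℤ) : ℤ) : ℝ) * h / (N : ℝ)))‖ ^ 2 +
        2 * ∑ a ∈ Ioc a0 (a0 + A), ∑ r ∈ bx j H, ∑ d ∈ Ioc D (2 * D), ‖∑ k ∈ (Ioc K1 K).filter (fun k => k % q0 = a1),
        ∑ p ∈ Pairs Q, ∑ h ∈ S p, chf f x N h *
        e (-((((FF (C m0 + R + Rr j r) j σ a d).eval (k : ℤ) : ℤ) : ℝ) * h / (N : ℝ)))‖ ^ 2 := by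
        simp only [sum_add_distrib, mul_sum]
        congr 1
        exact sum_comm
    _ ≤ 2 * (((bx j H).card : ℝ) * (A * x * V / (4 * L ^ U))) +
        2 * (((bx j H).card : ℝ) * (A * x * V / (4 * L ^ U))) := by
        gcongr
        · exact hmin.trans hbound1
        · refine (sum_le_sum hmaj').trans ?_
          rw [sum_const, Nat.card_Ioc, nsmul_eq_mul]
          simpa using hbound2
    _ = ((bx j H).card : ℝ) * (A * x * V / L ^ U) := alg3 _ _ _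

end Pool.Agent.TH892
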