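import Pool.Agent.TH892.FullBox
import Pool.Agent.H300R2.FB.ThinAbs

/-!
Bateman-Horn for almost all polynomials of height at most `H`: lower bound for the logarithmic sum,
positivity, the first moment with absolute values.
-/

namespace Pool.Agent.TH892

open Finset Polynomial Filter
open Pool.Agent.H442R2.EHI (evt_log_pow evt_log_ge)
open Pool.Agent.H300R2.BH
open Pool.Agent.H300R2.FB

lemma box_abs {j H : ℕ} {c : Fin (j + 1) → ℤ} (hc : c ∈ box j H) (i : Fin (j + 1)) : |c i| ≤ H := by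
  unfold box at hc
  rw [Fintype.mem_piFinset] at hc
  have h := hc i
  rw [abs_le]
  split_ifs at h
  · rw [mem_Icc] at h; omega
  · rw [mem_Icc] at h; exact h

lemma eval_abs_le {j H : ℕ} {c : Fin (j + 1) → ℤ} (hc : c ∈ box j H) {n K : ℕ} (hn : 1 ≤ n)
    (hnK : n ≤ K) : |(pol c).eval (n : ℤ)| ≤ (j + 1) * (H * (K : ℤ) ^ j) := by
  rw [pol_eval]
  refine (abs_sum_le_sum_abs _ _).trans ?_
  calc ∑ i : Fin (j + 1), |c i * (n : ℤ) ^ (i : ℕ)| ≤ ∑ _i : Fin (j + 1), (H * (K : ℤ) ^ j) := by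
        refine sum_le_sum fun i _ => ?_
        rw [abs_mul, abs_pow, Nat.abs_cast]
        have h1 := box_abs hc i
        have h2 : (n : ℤ) ^ (i : ℕ) ≤ (K : ℤ) ^ j := by
          calc (n : ℤ) ^ (i : ℕ) ≤ (n : ℤ) ^ j :=
                pow_le_pow_right₀ (by exact_mod_cast hn) (by have := i.2; omega)
            _ ≤ (K : ℤ) ^ j := by
                apply pow_le_pow_left₀ (by positivity)
                exact_mod_cast hnK
        exact mul_le_mul h1 h2 (by positivity) (by positivity)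
    _ = _ := by rw [sum_const, card_univ, Fintype.card_fin, nsmul_eq_mul]; push_cast; ring

/-- few arguments with a given value -/
lemma card_eq_le {j H : ℕ} (hj : 1 ≤ j) {c : Fin (j + 1) → ℤ} (hc : c ∈ box j H) (v : ℤ) (K : ℕ) :
    ((Icc 1 K).filter (fun n : ℕ => (pol c).eval (n : ℤ) = v)).card ≤ j := by
  classical
  have hd := pol_natDegree hc
  set P : ℤ[X] := pol c - C v with hP
  have hPd : P.natDegree = j := by rw [hP, natDegree_sub_C, hd]
  have hP0 : P ≠ 0 := by
    intro h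
    rw [h, natDegree_zero] at hPd
    omega
  calc ((Icc 1 K).filter (fun n : ℕ => (pol c).eval (n : ℤ) = v)).card
      ≤ P.roots.toFinset.card := by
        refine card_le_card_of_injOn (fun n : ℕ => (n : ℤ)) ?_ ?_
        · intro n hn
          rw [mem_coe, mem_filter] at hn
          rw [mem_coe, Multiset.mem_toFinset, mem_roots hP0, IsRoot.def, hP, eval_sub, eval_C, hn.2,
            sub_self]
        · intro a _ b _ hab
          simp only at hab
          exact_mod_cast hab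
    _ ≤ Multiset.card P.roots := Multiset.toFinset_card_le _
    _ ≤ P.natDegree := card_roots' P
    _ = j := hPd

/-- lower bound for `la` -/
lemma la_lower (j : ℕ) (hj : 1 ≤ j) {H K : ℕ} (hH : j + 1 ≤ H) (hKH : K ≤ H) (hK : 6 * j ≤ K)
    {c : Fin (j + 1) → ℤ} (hc : c ∈ box j H) :
    (K : ℝ) / (2 * (j + 2) * Real.log H) ≤ la (pol c) K := by
  classical
  have hH2 : 2 ≤ H := by omega
  have hHr : (2:ℝ) ≤ H := by exact_mod_cast hH2
  have hL : 0 < Real.log H := Real.log_pos (by linarith)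
  unfold la
  have hterm : ∀ k ∈ (Icc 1 K).filter (fun k : ℕ => 2 ≤ |(pol c).eval (k : ℤ)|),
      1 / ((j + 2) * Real.log H) ≤ 1 / Real.log |(((pol c).eval (k : ℤ) : ℤ) : ℝ)| := by
    intro k hk
    rw [mem_filter, mem_Icc] at hk
    have h1 := eval_abs_le hc hk.1.1 hk.1.2
    have h2 : (2:ℝ) ≤ |(((pol c).eval (k : ℤ) : ℤ) : ℝ)| := by exact_mod_cast hk.2
    have h3 : |(((pol c).eval (k : ℤ) : ℤ) : ℝ)| ≤ (H:ℝ) ^ (j + 2) := by
      have h4 : |(((pol c).eval (k : ℤ) : ℤ) : ℝ)| ≤ (j + 1) * (H * (K : ℝ) ^ j) := by exact_mod_cast h1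
      refine h4.trans ?_
      have h5 : ((j:ℝ) + 1) ≤ H := by exact_mod_cast hH
      have h6 : (K:ℝ) ≤ H := by exact_mod_cast hKH
      calc ((j:ℝ) + 1) * (H * (K : ℝ) ^ j) ≤ H * (H * (H:ℝ) ^ j) := by gcongr
        _ = (H:ℝ) ^ (j + 2) := by ring
    apply one_div_le_one_div_of_le (Real.log_pos (by linarith))
    calc Real.log |(((pol c).eval (k : ℤ) : ℤ) : ℝ)| ≤ Real.log ((H:ℝ) ^ (j + 2)) :=
          Real.log_le_log (by linarith) h3
      _ = (j + 2) * Real.log H := by rw [Real.log_pow]; push_cast; ring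
  have hcard : (K : ℝ) / 2 ≤ (((Icc 1 K).filter (fun k : ℕ => 2 ≤ |(pol c).eval (k : ℤ)|)).card : ℝ) := by
    have h1 : (Icc 1 K) ⊆ ((Icc 1 K).filter (fun k : ℕ => 2 ≤ |(pol c).eval (k : ℤ)|)) ∪
        (((Icc 1 K).filter (fun n : ℕ => (pol c).eval (n : ℤ) = 0)) ∪
        (((Icc 1 K).filter (fun n : ℕ => (pol c).eval (n : ℤ) = 1)) ∪
        ((Icc 1 K).filter (fun n : ℕ => (pol c).eval (n : ℤ) = -1)))) := by
      intro k hk
      simp only [mem_union, mem_filter, hk, true_and]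
      by_cases h : 2 ≤ |(pol c).eval (k : ℤ)|
      · exact Or.inl h
      · right
        have h2 : |(pol c).eval (k : ℤ)| ≤ 1 := by omega
        rw [abs_le] at h2
        omega
    have h2 := card_le_card h1
    rw [Nat.card_Icc, Nat.add_sub_cancel] at h2
    have h3 := h2.trans (card_union_le _ _)
    have h4 := card_union_le ((Icc 1 K).filter (fun n : ℕ => (pol c).eval (n : ℤ) = 0))
      (((Icc 1 K).filter (fun n : ℕ => (pol c).eval (n : ℤ) = 1)) ∪
        ((Icc 1 K).filter (fun n : ℕ => (pol c).eval (n : ℤ) = -1)))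
    have h5 := card_union_le ((Icc 1 K).filter (fun n : ℕ => (pol c).eval (n : ℤ) = 1))
      ((Icc 1 K).filter (fun n : ℕ => (pol c).eval (n : ℤ) = -1))
    have h6 := card_eq_le hj hc 0 K
    have h7 := card_eq_le hj hc 1 K
    have h8 := card_eq_le hj hc (-1) K
    have h9 : K ≤ 2 * ((Icc 1 K).filter (fun k : ℕ => 2 ≤ |(pol c).eval (k : ℤ)|)).card := by omega
    have h10 : (K:ℝ) ≤ 2 * (((Icc 1 K).filter (fun k : ℕ => 2 ≤ |(pol c).eval (k : ℤ)|)).card : ℝ) := by
      exact_mod_cast h9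
    linarith
  calc (K : ℝ) / (2 * (j + 2) * Real.log H) = (K / 2) * (1 / ((j + 2) * Real.log H)) := by
        field_simp
    _ ≤ (((Icc 1 K).filter (fun k : ℕ => 2 ≤ |(pol c).eval (k : ℤ)|)).card : ℝ) *
        (1 / ((j + 2) * Real.log H)) := by gcongr
    _ = ∑ _k ∈ (Icc 1 K).filter (fun k : ℕ => 2 ≤ |(pol c).eval (k : ℤ)|),
        1 / ((j + 2) * Real.log H) := by rw [sum_const, nsmul_eq_mul]
    _ ≤ _ := sum_le_sum hterm

/-- positivity for large arguments -/
lemma eval_nonneg {j H : ℕ} (hj : 1 ≤ j) {c : Fin (j + 1) → ℤ} (hc : c ∈ box j H) {n : ℕ}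
    (hn : j * H / (c (Fin.last j)).toNat < n) : 0 ≤ (pol c).eval (n : ℤ) := by
  have hn1 : 1 ≤ n := lt_of_le_of_lt (Nat.zero_le _) hn
  have hcl : 1 ≤ c (Fin.last j) := by
    unfold box at hc
    rw [Fintype.mem_piFinset] at hc
    have h2 := hc (Fin.last j)
    rw [Fin.val_last, if_pos rfl, mem_Icc] at h2
    exact h2.1
  have h1 : j * H < n * (c (Fin.last j)).toNat := by
    rwa [Nat.div_lt_iff_lt_mul (by omega)] at hn
  have h2 : ((c (Fin.last j)).toNat : ℤ) = c (Fin.last j) := Int.toNat_of_nonneg (by omega)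
  have h3 : (j : ℤ) * H ≤ n * c (Fin.last j) := by
    rw [← h2]; exact_mod_cast h1.le
  rw [pol_eval, Fin.sum_univ_castSucc]
  have h4 : -((j : ℤ) * (H * (n : ℤ) ^ (j - 1))) ≤
      ∑ i : Fin j, c i.castSucc * (n : ℤ) ^ ((i.castSucc : Fin (j + 1)) : ℕ) := by
    have h5 : |∑ i : Fin j, c i.castSucc * (n : ℤ) ^ ((i.castSucc : Fin (j + 1)) : ℕ)| ≤
        (j : ℤ) * (H * (n : ℤ) ^ (j - 1)) := by
      refine (abs_sum_le_sum_abs _ _).trans ?_
      calc _ ≤ ∑ _i : Fin j, (H * (n : ℤ) ^ (j - 1)) := by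
            refine sum_le_sum fun i _ => ?_
            rw [abs_mul, abs_pow, Nat.abs_cast]
            have h1 := box_abs hc i.castSucc
            have h2 : (n : ℤ) ^ ((i.castSucc : Fin (j + 1)) : ℕ) ≤ (n : ℤ) ^ (j - 1) := by
              apply pow_le_pow_right₀ (by exact_mod_cast hn1)
              have := i.2
              simp only [Fin.val_castSucc]
              omega
            exact mul_le_mul h1 h2 (by positivity) (by positivity)
        _ = _ := by rw [sum_const, card_univ, Fintype.card_fin, nsmul_eq_mul]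
    exact (abs_le.mp h5).1
  rw [Fin.val_last]
  have h6 : (n : ℤ) ^ j = (n : ℤ) ^ (j - 1) * n := by
    rw [← pow_succ]; congr 1; omega
  have h7 : (0:ℤ) ≤ (n : ℤ) ^ (j - 1) := by positivity
  rw [h6]
  nlinarith

end Pool.Agent.TH892
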