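import Pool.Agent.TH892.FullBox2

/-!
Bateman-Horn for almost all polynomials of height at most `H`: all lengths `K` simultaneously.
-/

namespace Pool.Agent.TH892

open Finset Filter

/-- from the first moment for each single `K` to all `K` simultaneously -/
lemma all_K {ι : Type*} (T : Finset ι) (pa la : ι → ℕ → ℝ) (S : ι → ℝ) (U H : ℕ) (a : ℝ) (B : ℕ)
    (hL : 8 ≤ Real.log H)
    (hpa : ∀ c ∈ T, ∀ K K' : ℕ, K ≤ K' → pa c K ≤ pa c K')
    (hla : ∀ c ∈ T, ∀ K K' : ℕ, K ≤ K' → 0 ≤ la c K' - la c K ∧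
      la c K' - la c K ≤ 2 * ((K' : ℝ) - K))
    (hS : ∀ c ∈ T, 0 ≤ S c ∧ S c ≤ Real.log H)
    (hmean : ∀ K : ℕ, a ≤ K → K * Real.log H ^ B ≤ H →
      ∑ c ∈ T, |pa c K - S c * la c K| ≤ T.card * K / Real.log H ^ (3 * U + 7))
    (ha : Real.log H ^ (U + 3) ≤ a) (P : ι → Prop) [DecidablePred P]
    (hP : ∀ c ∈ T, P c → ∃ K : ℕ, 4 * a ≤ K ∧ K * Real.log H ^ (B + 1) ≤ H ∧
      K / Real.log H ^ U < |pa c K - S c * la c K|) :
    ((T.filter P).card : ℝ) ≤ T.card / Real.log H ^ U := by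
  classical
  set L := Real.log H with hLdef
  have hL0 : 0 < L := by linarith
  have hL1 : 1 ≤ L := by linarith
  have hLp0 : ∀ n : ℕ, 0 < L ^ n := fun n => by positivity
  have hLp : ∀ n : ℕ, 1 ≤ L ^ n := fun n => one_le_pow₀ hL1
  have ha1 : 1 ≤ a := (hLp _).trans ha
  set η : ℝ := 1 / L ^ (U + 3) with hη
  have hη0 : 0 < η := by positivity
  have hη1 : η ≤ 1 := by
    rw [hη, div_le_one (hLp0 _)]
    exact hLp _
  set G : ℕ → ℕ := fun i => ⌊(1 + η) ^ i⌋₊ with hG
  set N : ℕ := ⌊2 * L ^ (U + 4)⌋₊ + 1 with hN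
  set Bd : ℕ → Finset ι := fun i => T.filter (fun c => (a ≤ G i ∧ G i * L ^ B ≤ H) ∧
    G i / L ^ (U + 2) < |pa c (G i) - S c * la c (G i)|) with hBd
  have hcard : ∀ i, ((Bd i).card : ℝ) ≤ T.card / L ^ (2 * U + 5) := by
    intro i
    by_cases had : a ≤ G i ∧ G i * L ^ B ≤ H
    · have hGpos : (0:ℝ) < G i := by linarith [had.1]
      have h1 : ((Bd i).card : ℝ) * (G i / L ^ (U + 2)) ≤ T.card * G i / L ^ (3 * U + 7) := by
        calc ((Bd i).card : ℝ) * (G i / L ^ (U + 2)) = ∑ _c ∈ Bd i, (G i / L ^ (U + 2)) := by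
              rw [sum_const, nsmul_eq_mul]
          _ ≤ ∑ c ∈ Bd i, |pa c (G i) - S c * la c (G i)| := by
              refine sum_le_sum fun c hc => ?_
              rw [hBd, mem_filter] at hc
              exact hc.2.2.le
          _ ≤ ∑ c ∈ T, |pa c (G i) - S c * la c (G i)| :=
              sum_le_sum_of_subset_of_nonneg (filter_subset _ _) fun _ _ _ => abs_nonneg _
          _ ≤ _ := hmean _ had.1 had.2
      have h2 : 0 < (G i : ℝ) / L ^ (U + 2) := by positivity
      have h3 : ((Bd i).card : ℝ) * (G i / L ^ (U + 2)) ≤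
          (T.card / L ^ (2 * U + 5)) * (G i / L ^ (U + 2)) := by
        refine h1.trans (le_of_eq ?_)
        rw [show 3 * U + 7 = (2 * U + 5) + (U + 2) by ring, pow_add L (2 * U + 5) (U + 2)]
        field_simp
      exact le_of_mul_le_mul_right h3 h2
    · have h1 : Bd i = ∅ := by
        rw [hBd]
        apply filter_eq_empty_iff.mpr
        intro c _ h
        exact had h.1
      rw [h1, card_empty, Nat.cast_zero]
      positivity
  have hsub : T.filter P ⊆ (range (N + 1)).biUnion Bd := by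
    intro c hc
    rw [mem_filter] at hc
    obtain ⟨hcT, hPc⟩ := hc
    obtain ⟨K, hK1, hK2, hK3⟩ := hP c hcT hPc
    by_contra hnot
    have hKr : (1:ℝ) ≤ K := by linarith
    obtain ⟨i, hi1, hi2⟩ := exists_nat_pow_near hKr (show 1 < 1 + η by linarith)
    have hHr : (K:ℝ) ≤ H := by
      calc (K:ℝ) ≤ K * L ^ (B + 1) := le_mul_of_one_le_right (by linarith) (hLp _)
        _ ≤ H := hK2
    have hiN : i + 1 ≤ N := by
      have h1 : (i:ℝ) * Real.log (1 + η) ≤ L := by
        rw [← Real.log_pow]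
        exact Real.log_le_log (by positivity) (hi1.trans hHr)
      have h2 : η / 2 ≤ Real.log (1 + η) := by
        have h3 := Real.one_sub_inv_le_log_of_pos (show 0 < 1 + η by linarith)
        refine le_trans ?_ h3
        have h4 : 1 - (1 + η)⁻¹ = η / (1 + η) := by field_simp; ring
        rw [h4]
        apply div_le_div_of_nonneg_left hη0.le (by linarith) (by linarith)
      have h3 : (i:ℝ) * (η / 2) ≤ L := le_trans (by gcongr) h1
      have h4 : (i:ℝ) ≤ 2 * L ^ (U + 4) := by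
        have h5 : (i:ℝ) * (η / 2) * (2 * L ^ (U + 3)) ≤ L * (2 * L ^ (U + 3)) := by gcongr
        have h6 : (i:ℝ) * (η / 2) * (2 * L ^ (U + 3)) = i := by
          rw [hη]
          field_simp
        rw [h6] at h5
        refine h5.trans (le_of_eq ?_)
        rw [show U + 4 = U + 3 + 1 by ring, pow_succ]
        ring
      have h5 : i ≤ ⌊2 * L ^ (U + 4)⌋₊ := Nat.le_floor h4
      omega
    have hGi : G i ≤ K := by
      have h1 : (G i : ℝ) ≤ K := (Nat.floor_le (by positivity)).trans hi1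
      exact_mod_cast h1
    have hGi' : K ≤ G (i + 1) := Nat.le_floor hi2.le
    have hpow : (1 + η) ^ (i + 1) = (1 + η) ^ i + η * (1 + η) ^ i := by ring
    have hG2 : (G (i + 1) : ℝ) ≤ (1 + η) ^ (i + 1) := Nat.floor_le (by positivity)
    have hG3 : (1 + η) ^ i < (G i : ℝ) + 1 := Nat.lt_floor_add_one _
    have hηK : η * (1 + η) ^ i ≤ η * K := by gcongr
    have hηK1 : 1 ≤ η * K := by
      rw [hη, div_mul_eq_mul_div, one_mul, one_le_div (hLp0 _)]
      linarith
    have hdiff : (G (i + 1) : ℝ) - G i ≤ 2 * (η * K) := by linarith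
    have hηK2 : η * (K:ℝ) ≤ K := by nlinarith
    have hG4 : (G (i + 1) : ℝ) ≤ 2 * K := by
      have : (1 + η) ^ (i + 1) ≤ 2 * K := by rw [hpow]; linarith
      linarith
    have hG5 : a ≤ G i := by
      have h1 : (K:ℝ) < 2 * (1 + η) ^ i := by
        refine lt_of_lt_of_le hi2 ?_
        rw [hpow]
        have : η * (1 + η) ^ i ≤ 1 * (1 + η) ^ i := by gcongr
        linarith
      linarith
    have hG6 : a ≤ G (i + 1) := by
      have h1 : (K:ℝ) ≤ G (i + 1) := by exact_mod_cast hGi'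
      linarith
    have hG7 : (G i : ℝ) * L ^ B ≤ H := by
      have h1 : (G i : ℝ) ≤ K := by exact_mod_cast hGi
      calc (G i : ℝ) * L ^ B ≤ K * L ^ B := by gcongr
        _ ≤ K * L ^ (B + 1) := by
            have := pow_le_pow_right₀ hL1 (show B ≤ B + 1 by omega)
            exact mul_le_mul_of_nonneg_left this (by linarith)
        _ ≤ H := hK2
    have hG8 : (G (i + 1) : ℝ) * L ^ B ≤ H := by
      calc (G (i + 1) : ℝ) * L ^ B ≤ (2 * K) * L ^ B := by gcongr
        _ ≤ (L * K) * L ^ B := by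
            gcongr
            linarith
        _ = K * L ^ (B + 1) := by ring
        _ ≤ H := hK2
    have hn1 : |pa c (G i) - S c * la c (G i)| ≤ G i / L ^ (U + 2) := by
      by_contra hh
      apply hnot
      rw [mem_biUnion]
      refine ⟨i, by rw [mem_range]; omega, ?_⟩
      rw [hBd, mem_filter]
      exact ⟨hcT, ⟨hG5, hG7⟩, not_le.mp hh⟩
    have hn2 : |pa c (G (i + 1)) - S c * la c (G (i + 1))| ≤ G (i + 1) / L ^ (U + 2) := by
      by_contra hh
      apply hnot
      rw [mem_biUnion]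
      refine ⟨i + 1, by rw [mem_range]; omega, ?_⟩
      rw [hBd, mem_filter]
      exact ⟨hcT, ⟨hG6, hG8⟩, not_le.mp hh⟩
    have e1 : (G i : ℝ) / L ^ (U + 2) ≤ 2 * K / L ^ (U + 2) := by
      have h1 : (G i : ℝ) ≤ K := by exact_mod_cast hGi
      gcongr
      linarith
    have e2 : (G (i + 1) : ℝ) / L ^ (U + 2) ≤ 2 * K / L ^ (U + 2) := by gcongr
    have n1 := abs_le.mp (hn1.trans e1)
    have n2 := abs_le.mp (hn2.trans e2)
    obtain ⟨s1, s2⟩ := hS c hcT
    obtain ⟨a1, a2⟩ := hla c hcT _ _ hGi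
    obtain ⟨b1, b2⟩ := hla c hcT _ _ hGi'
    have p1 := hpa c hcT _ _ hGi
    have p2 := hpa c hcT _ _ hGi'
    have hGir : (G i : ℝ) ≤ K := by exact_mod_cast hGi
    have hGir' : (K : ℝ) ≤ G (i + 1) := by exact_mod_cast hGi'
    have t1 : S c * (la c K - la c (G i)) ≤ L * (4 * (η * K)) := by
      apply mul_le_mul s2 _ a1 hL0.le
      linarith
    have t2 : S c * (la c (G (i + 1)) - la c K) ≤ L * (4 * (η * K)) := by
      apply mul_le_mul s2 _ b1 hL0.le
      linarith
    have hfin : 2 * (K:ℝ) / L ^ (U + 2) + L * (4 * (η * K)) ≤ K / L ^ U := by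
      have h1 : 2 * (K:ℝ) / L ^ (U + 2) + L * (4 * (η * K)) = K / L ^ U * (6 / L ^ 2) := by
        rw [hη, pow_add L U 3, pow_add L U 2]
        field_simp
        ring
      rw [h1]
      have h2 : (6:ℝ) / L ^ 2 ≤ 1 := by
        rw [div_le_one (hLp0 _)]
        nlinarith
      calc (K:ℝ) / L ^ U * (6 / L ^ 2) ≤ K / L ^ U * 1 := by gcongr
        _ = _ := mul_one _
    refine absurd hK3 (not_lt.mpr (le_trans ?_ hfin))
    rw [mul_sub] at t1 t2
    rw [abs_le]
    constructor
    · linarith [n1.1]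
    · linarith [n2.2]
  have hN1 : ((N + 1 : ℕ) : ℝ) ≤ L ^ (U + 5) := by
    have h1 : (N : ℝ) ≤ 2 * L ^ (U + 4) + 1 := by
      rw [hN]
      push_cast
      have := Nat.floor_le (show 0 ≤ 2 * L ^ (U + 4) by positivity)
      linarith
    push_cast
    have h2 := hLp (U + 4)
    have h3 : L ^ (U + 5) = L * L ^ (U + 4) := by rw [show U + 5 = U + 4 + 1 by ring, pow_succ]; ring
    rw [h3]
    nlinarith
  calc ((T.filter P).card : ℝ) ≤ (((range (N + 1)).biUnion Bd).card : ℝ) := by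
        exact_mod_cast card_le_card hsub
    _ ≤ ∑ i ∈ range (N + 1), ((Bd i).card : ℝ) := by exact_mod_cast card_biUnion_le
    _ ≤ ∑ _i ∈ range (N + 1), ((T.card : ℝ) / L ^ (2 * U + 5)) := sum_le_sum fun i _ => hcard i
    _ = ((N + 1 : ℕ) : ℝ) * (T.card / L ^ (2 * U + 5)) := by
        rw [sum_const, card_range, nsmul_eq_mul]
    _ ≤ L ^ (U + 5) * (T.card / L ^ (2 * U + 5)) := by gcongr
    _ = T.card / L ^ U := by
        rw [show 2 * U + 5 = U + (U + 5) by ring, pow_add L U (U + 5)]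
        field_simp

end Pool.Agent.TH892
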