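import Pool.Agent.H300R2.FB.Full2
import Pool.Agent.H534R2.BH_Lam

/-!
Second moment over a box of polynomials, arguments in an arithmetic progression: all major arcs.
-/

namespace Pool.Agent.TH892

open Finset Polynomial Filter
open Pool.Agent.H469R2.NK (e norm_e e_add conj_e e_zero)
open Pool.Agent.H442R2.EHI (sum_e_range e_add_int Maj maj_rep Pairs card_pairs poly twist nint
  norm_add_sq_le evt_log_pow evt_log_ge)
open Pool.Agent.H300R2.BH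
open Pool.Agent.H300R2.FB

lemma split_classesT (q b q0 a1 : ℕ) (hq : 1 ≤ q) (hq0 : 1 ≤ q0) (K1 K : ℕ) (H : ℕ → ℤ)
    (hH : ∀ k k' : ℕ, k % q = k' % q → (q : ℤ) ∣ H k - H k') (F : ℕ → ℂ) :
    ‖∑ k ∈ (Ioc K1 K).filter (fun k => k % q0 = a1), e (-((H k : ℝ) * ((b : ℝ) / q))) * F k‖ ≤
    ∑ r ∈ range (q * q0), ‖∑ k ∈ (Ioc K1 K).filter (fun k => k % (q * q0) = r), F k‖ := by
  have hqq : 0 < q * q0 := Nat.mul_pos hq hq0
  have hmaps : ∀ k ∈ (Ioc K1 K).filter (fun k => k % q0 = a1), k % (q * q0) ∈ range (q * q0) :=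
    fun k _ => mem_range.mpr (Nat.mod_lt _ hqq)
  rw [← sum_fiberwise_of_maps_to hmaps]
  refine (norm_sum_le _ _).trans (sum_le_sum fun r hr => ?_)
  have hq0' : (q : ℝ) ≠ 0 := by positivity
  have hmodq : ∀ k : ℕ, k % (q * q0) % q = k % q := fun k => Nat.mod_mul_right_mod k q q0
  have hmodq0 : ∀ k : ℕ, k % (q * q0) % q0 = k % q0 := fun k => Nat.mod_mul_left_mod k q q0
  by_cases hr0 : r % q0 = a1
  · have hfil : ((Ioc K1 K).filter (fun k => k % q0 = a1)).filter (fun k => k % (q * q0) = r) =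
        (Ioc K1 K).filter (fun k => k % (q * q0) = r) := by
      rw [filter_filter]
      apply filter_congr
      intro k _
      constructor
      · exact fun h => h.2
      · intro h
        refine ⟨?_, h⟩
        rw [← hmodq0 k, h, hr0]
    rw [hfil]
    have : ∀ k ∈ (Ioc K1 K).filter (fun k => k % (q * q0) = r),
        e (-((H k : ℝ) * ((b : ℝ) / q))) * F k =
        e (-((H r : ℝ) * ((b : ℝ) / q))) * F k := by
      intro k hk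
      have hkr := (mem_filter.mp hk).2
      obtain ⟨t, ht⟩ := hH k r (by
        rw [← hmodq k, hkr])
      congr 1
      have h2 : (H k : ℝ) = H r + q * (t : ℝ) := by
        have : H k = H r + q * t := by linarith
        exact_mod_cast this
      have : -((H k : ℝ) * ((b : ℝ) / q)) = -((H r : ℝ) * ((b : ℝ) / q)) + ((-(t * b) : ℤ) : ℝ) := by
        rw [h2]; push_cast; field_simp; ring
      rw [this, e_add_int]
    rw [sum_congr rfl this, ← mul_sum, norm_mul, norm_e, one_mul]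
  · have hfil : ((Ioc K1 K).filter (fun k => k % q0 = a1)).filter (fun k => k % (q * q0) = r) =
        ∅ := by
      rw [filter_filter]
      apply filter_eq_empty_iff.mpr
      rintro k _ ⟨h1, h2⟩
      apply hr0
      rw [← h2, hmodq0 k, h1]
    rw [hfil, sum_empty, norm_zero]
    exact norm_nonneg _

lemma major_boxT (j : ℕ) (hj : 1 ≤ j) (ε : ℝ) (hε : 0 < ε) (E0 E1 E2 E5 E7 U : ℕ) :
    ∃ E3 x0 : ℕ, ∀ x : ℕ, x0 ≤ x → ∀ f : ℕ → ℂ, FourierHyp f x E1 E3 →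
    ∑ n ∈ Icc 1 x, ‖f n‖ ^ 2 ≤ x * Real.log x ^ 2 →
    ∀ (Q D K K1 : ℕ) (δ : ℝ), 1 ≤ Q → (Q : ℝ) ≤ Real.log x ^ E1 → 1 ≤ D →
    2 * D * K ^ j ≤ x → (x : ℝ) ≤ D * (K : ℝ) ^ j * Real.log x ^ E0 → (x : ℝ) ^ ε ≤ K →
    K1 ≤ K → (K : ℝ) ≤ K1 * Real.log x ^ E2 → 0 ≤ δ → δ * (K : ℝ) ^ j ≤ Real.log x ^ E5 →
    ∀ (R : ℤ[X]) (m0 : ℤ) (H : Fin (j - 1) → ℕ), (∀ k ∈ Ioc K1 K, |((R.eval (k : ℤ) : ℤ) : ℝ)| ≤
      (K : ℝ) ^ j / Real.log x ^ (2 * E5 + j * E2 + U + 8)) →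
    (∀ i, (H i : ℝ) * Real.log x ≤ D * (K1 : ℝ) ^ (j - 1 - (i : ℕ))) →
    ∀ (a : ℕ) (σ : ℤ), σ = 1 ∨ σ = -1 → ∀ (q0 a1 : ℕ), 1 ≤ q0 → (q0 : ℝ) ≤ Real.log x ^ E7 →
    ∑ r' ∈ bx j H, ∑ d ∈ Ioc D (2 * D), ‖∑ k ∈ (Ioc K1 K).filter (fun k => k % q0 = a1),
      ∑ p ∈ Pairs Q, ∑ h ∈ (Classical.choose (major_decomp f x Q (16 * x + 1) (by omega) δ)) p,
        chf f x (16 * x + 1) h * e (-((((FF (C m0 + R + Rr j r') j σ a d).eval (k : ℤ) : ℤ) : ℝ) * h /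
          ((16 * x + 1 : ℕ) : ℝ)))‖ ^ 2 ≤
      (Q : ℝ) ^ 6 * (q0 : ℝ) ^ 2 *
        (((bx j H).card : ℝ) * (x * ((K : ℝ) ^ 2 / (K : ℝ) ^ j) / Real.log x ^ U)) := by
  obtain ⟨E3, x1, hmp⟩ := one_classQ j hj ε hε E0 (E1 + E7) E2 E5 U
  refine ⟨E3, max x1 3, fun x hx f hfour hsq Q D K K1 δ hQ hQL hD hDK hxDK hK hK1 hK1L hδ0 hδK R m0 H
    hR hH a σ hσ q0 a1 hq0 hq0L => ?_⟩
  have hx1 : x1 ≤ x := (le_max_left _ _).trans hx
  have hx3 : 3 ≤ x := (le_max_right _ _).trans hx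
  set N := 16 * x + 1 with hN
  have hN1 : 1 ≤ N := by omega
  set S := Classical.choose (major_decomp f x Q N (by omega) δ) with hS
  obtain ⟨-, hS2, hS3⟩ := Classical.choose_spec (major_decomp f x Q N (by omega) δ)
  rw [← hS] at hS2 hS3
  have hNr : (0:ℝ) < N := by positivity
  have hpars := ch_parseval f x N (by omega)
  have hσ2 : (σ : ℝ) * σ = 1 := by
    rcases hσ with h | h <;> rw [h] <;> norm_num
  have hσabs : |(σ : ℝ)| = 1 := by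
    rcases hσ with h | h <;> rw [h] <;> norm_num
  -- bound for one pair
  have hpair : ∀ p ∈ Pairs Q, ∃ (θ : ℝ) (S' : Finset ℤ) (c' : ℤ → ℂ),
      (∀ y : ℝ, ∑ h ∈ S p, chf f x N h * e (-((((a : ℝ) + m0) + σ * y) * h / N)) =
        e (-((((a : ℝ) + m0) + σ * y) * ((p.2 : ℝ) / p.1))) * poly N θ S' c' y) ∧
      ∀ r : ℕ, ∑ r' ∈ bx j H, ∑ d ∈ Ioc D (2 * D),
        ‖∑ k ∈ (Ioc K1 K).filter (fun k => k % (p.1 * q0) = r),
        poly N θ S' c' ((d : ℝ) * (k : ℝ) ^ j + tR j (fun i => (r' i : ℝ)) k +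
          σ * ((R.eval (k : ℤ) : ℤ) : ℝ))‖ ^ 2 ≤
          ((bx j H).card : ℝ) * (x * ((K : ℝ) ^ 2 / (K : ℝ) ^ j) / Real.log x ^ U) := by
    intro p hp
    obtain ⟨θ, S', c', h1, h2, h3, h4⟩ := twist N hN1 (S p) (fun h => chf f x N h) ((a : ℝ) + m0)
      ((p.2 : ℝ) / p.1) σ hσ
    refine ⟨θ, S', c', h1, fun r => ?_⟩
    have hp' : (1 ≤ p.1 ∧ p.1 ≤ Q) ∧ p.2 < Q := by
      simpa only [Pairs, mem_product, mem_Icc, mem_range] using hp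
    apply hmp x hx1 D K K1 (p.1 * q0) r δ θ S' c' (fun k => σ * ((R.eval (k : ℤ) : ℤ) : ℝ)) H hD hDK hxDK
      hK hK1 hK1L (Nat.mul_pos hp'.1.1 hq0) (by
        have h5 : (p.1 : ℝ) ≤ Real.log x ^ E1 :=
          (by exact_mod_cast hp'.1.2 : (p.1 : ℝ) ≤ Q).trans hQL
        push_cast
        rw [pow_add]
        have h6 : (0:ℝ) ≤ q0 := Nat.cast_nonneg _
        have h7 : (0:ℝ) ≤ p.1 := Nat.cast_nonneg _
        exact mul_le_mul h5 hq0L h6 (h7.trans h5)) hδ0 hδK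
      (h3 δ (fun h hh => (hS2 p hp h hh).2))
    · rw [h2]
      calc (N : ℝ) * ∑ h ∈ S p, ‖chf f x N h‖ ^ 2 ≤ N * ∑ h ∈ range N, ‖chf f x N h‖ ^ 2 := by
            apply mul_le_mul_of_nonneg_left (hS3 p hp) hNr.le
        _ ≤ _ := by rw [hpars]; exact hsq
    · apply h4
      intro h hh hsmall
      have hc : (N : ℝ) * ‖chf f x N h‖ = ‖∑ n ∈ Icc 1 x, f n * e ((n : ℝ) * ((h : ℝ) / N))‖ := by
        unfold chf
        rw [norm_mul, norm_div, norm_one, Complex.norm_natCast, ← mul_assoc,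
          mul_one_div_cancel hNr.ne', one_mul]
      rw [hc]
      have hcop : IsCoprime ((p.2 : ℕ) : ℤ) ((p.1 : ℕ) : ℤ) :=
        Nat.isCoprime_iff_coprime.mpr (hS2 p hp h hh).1
      exact hfour p.1 hp'.1.1 ((by exact_mod_cast hp'.1.2 : (p.1 : ℝ) ≤ Q).trans hQL) p.2 hcop _
        (by simpa using hsmall)
    · intro k hk
      have h5 := hR k hk
      rw [abs_mul, hσabs, one_mul]
      exact h5
    · exact hH
  choose! θ S' c' hp1 hp2 using hpair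
  have hval : ∀ (r' : Fin (j - 1) → ℤ) (d k : ℕ),
      (((FF (C m0 + R + Rr j r') j σ a d).eval (k : ℤ) : ℤ) : ℝ) =
      ((a : ℝ) + m0) + σ * ((d : ℝ) * (k : ℝ) ^ j + tR j (fun i => ((σ * r' i : ℤ) : ℝ)) k +
        σ * ((R.eval (k : ℤ) : ℤ) : ℝ)) := by
    intro r' d k
    have h1 : tR j (fun i => ((σ * r' i : ℤ) : ℝ)) k = σ * tR j (fun i => (r' i : ℝ)) k := by
      rw [← tR_smul]; congr 1; funext i; push_cast; ring
    rw [FF_eval, eval_add, eval_add, eval_C, h1, ← Rr_eval]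
    push_cast
    linear_combination (-((Rr j r').eval (k : ℤ) : ℤ) - (R.eval (k : ℤ) : ℤ) : ℝ) * hσ2
  -- pointwise in d
  have hd : ∀ r' : Fin (j - 1) → ℤ, ∀ d : ℕ, ‖∑ k ∈ (Ioc K1 K).filter (fun k => k % q0 = a1),
      ∑ p ∈ Pairs Q, ∑ h ∈ S p, chf f x N h *
        e (-((((FF (C m0 + R + Rr j r') j σ a d).eval (k : ℤ) : ℤ) : ℝ) * h / (N : ℝ)))‖ ^ 2 ≤
      ((Q : ℝ) ^ 3 * q0) * ∑ p ∈ Pairs Q, ∑ r ∈ range (Q * q0),
        ‖∑ k ∈ (Ioc K1 K).filter (fun k => k % (p.1 * q0) = r),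
        poly N (θ p) (S' p) (c' p) ((d : ℝ) * (k : ℝ) ^ j + tR j (fun i => ((σ * r' i : ℤ) : ℝ)) k +
        σ * ((R.eval (k : ℤ) : ℤ) : ℝ))‖ ^ 2 := by
    intro r' d
    have e1 : ‖∑ k ∈ (Ioc K1 K).filter (fun k => k % q0 = a1),
        ∑ p ∈ Pairs Q, ∑ h ∈ S p, chf f x N h *
          e (-((((FF (C m0 + R + Rr j r') j σ a d).eval (k : ℤ) : ℤ) : ℝ) * h / (N : ℝ)))‖ ≤
        ∑ p ∈ Pairs Q, ∑ r ∈ range (Q * q0),
          ‖∑ k ∈ (Ioc K1 K).filter (fun k => k % (p.1 * q0) = r),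
          poly N (θ p) (S' p) (c' p) ((d : ℝ) * (k : ℝ) ^ j +
            tR j (fun i => ((σ * r' i : ℤ) : ℝ)) k + σ * ((R.eval (k : ℤ) : ℤ) : ℝ))‖ := by
      rw [sum_comm]
      refine (norm_sum_le _ _).trans (sum_le_sum fun p hp => ?_)
      have hp' : (1 ≤ p.1 ∧ p.1 ≤ Q) ∧ p.2 < Q := by
        simpa only [Pairs, mem_product, mem_Icc, mem_range] using hp
      have : ∀ k ∈ (Ioc K1 K).filter (fun k => k % q0 = a1), ∑ h ∈ S p, chf f x N h *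
          e (-((((FF (C m0 + R + Rr j r') j σ a d).eval (k : ℤ) : ℤ) : ℝ) * h / (N : ℝ))) =
          e (-((((FF (C m0 + R + Rr j r') j σ a d).eval (k : ℤ) : ℤ) : ℝ) * ((p.2 : ℝ) / p.1))) *
            poly N (θ p) (S' p) (c' p) ((d : ℝ) * (k : ℝ) ^ j +
              tR j (fun i => ((σ * r' i : ℤ) : ℝ)) k + σ * ((R.eval (k : ℤ) : ℤ) : ℝ)) := by
        intro k _
        rw [hval r' d k]
        exact hp1 p hp _
      rw [sum_congr rfl this]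
      refine (split_classesT p.1 p.2 q0 a1 hp'.1.1 hq0 K1 K
        (fun k => (FF (C m0 + R + Rr j r') j σ a d).eval (k : ℤ))
        (fun k k' h => eval_mod _ _ k k' h) _).trans ?_
      apply sum_le_sum_of_subset_of_nonneg
      · intro r hr
        rw [mem_range] at hr ⊢
        exact lt_of_lt_of_le hr (Nat.mul_le_mul_right _ hp'.1.2)
      · intros; positivity
    calc _ ≤ (∑ p ∈ Pairs Q, ∑ r ∈ range (Q * q0),
          ‖∑ k ∈ (Ioc K1 K).filter (fun k => k % (p.1 * q0) = r),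
          poly N (θ p) (S' p) (c' p) ((d : ℝ) * (k : ℝ) ^ j +
            tR j (fun i => ((σ * r' i : ℤ) : ℝ)) k + σ * ((R.eval (k : ℤ) : ℤ) : ℝ))‖) ^ 2 := by
          apply pow_le_pow_left₀ (norm_nonneg _) e1
      _ = (∑ z ∈ Pairs Q ×ˢ range (Q * q0),
          ‖∑ k ∈ (Ioc K1 K).filter (fun k => k % (z.1.1 * q0) = z.2),
          poly N (θ z.1) (S' z.1) (c' z.1) ((d : ℝ) * (k : ℝ) ^ j +
            tR j (fun i => ((σ * r' i : ℤ) : ℝ)) k + σ * ((R.eval (k : ℤ) : ℤ) : ℝ))‖) ^ 2 := by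
          rw [sum_product]
      _ ≤ ((Pairs Q ×ˢ range (Q * q0)).card : ℝ) * ∑ z ∈ Pairs Q ×ˢ range (Q * q0),
          ‖∑ k ∈ (Ioc K1 K).filter (fun k => k % (z.1.1 * q0) = z.2),
          poly N (θ z.1) (S' z.1) (c' z.1) ((d : ℝ) * (k : ℝ) ^ j +
            tR j (fun i => ((σ * r' i : ℤ) : ℝ)) k + σ * ((R.eval (k : ℤ) : ℤ) : ℝ))‖ ^ 2 :=
          sq_sum_le_card_mul_sum_sq
      _ = _ := by
          rw [sum_product, card_product, card_pairs, card_range]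
          push_cast
          ring
  have hneg := sum_bx_neg j H σ hσ (fun r' => ∑ d ∈ Ioc D (2 * D), ((Q : ℝ) ^ 3 * q0) *
    ∑ p ∈ Pairs Q, ∑ r ∈ range (Q * q0), ‖∑ k ∈ (Ioc K1 K).filter (fun k => k % (p.1 * q0) = r),
        poly N (θ p) (S' p) (c' p) ((d : ℝ) * (k : ℝ) ^ j + tR j (fun i => ((r' i : ℤ) : ℝ)) k +
        σ * ((R.eval (k : ℤ) : ℤ) : ℝ))‖ ^ 2)
  calc _ ≤ ∑ r' ∈ bx j H, ∑ d ∈ Ioc D (2 * D), ((Q : ℝ) ^ 3 * q0) * ∑ p ∈ Pairs Q, ∑ r ∈ range (Q * q0),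
        ‖∑ k ∈ (Ioc K1 K).filter (fun k => k % (p.1 * q0) = r),
        poly N (θ p) (S' p) (c' p) ((d : ℝ) * (k : ℝ) ^ j +
          tR j (fun i => ((σ * r' i : ℤ) : ℝ)) k + σ * ((R.eval (k : ℤ) : ℤ) : ℝ))‖ ^ 2 :=
        sum_le_sum fun r' _ => sum_le_sum fun d _ => hd r' d
    _ = ∑ r' ∈ bx j H, ∑ d ∈ Ioc D (2 * D), ((Q : ℝ) ^ 3 * q0) * ∑ p ∈ Pairs Q, ∑ r ∈ range (Q * q0),
        ‖∑ k ∈ (Ioc K1 K).filter (fun k => k % (p.1 * q0) = r),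
        poly N (θ p) (S' p) (c' p) ((d : ℝ) * (k : ℝ) ^ j +
          tR j (fun i => (r' i : ℝ)) k + σ * ((R.eval (k : ℤ) : ℤ) : ℝ))‖ ^ 2 := hneg
    _ = ((Q : ℝ) ^ 3 * q0) * ∑ p ∈ Pairs Q, ∑ r ∈ range (Q * q0), ∑ r' ∈ bx j H, ∑ d ∈ Ioc D (2 * D),
        ‖∑ k ∈ (Ioc K1 K).filter (fun k => k % (p.1 * q0) = r),
        poly N (θ p) (S' p) (c' p) ((d : ℝ) * (k : ℝ) ^ j +
          tR j (fun i => (r' i : ℝ)) k + σ * ((R.eval (k : ℤ) : ℤ) : ℝ))‖ ^ 2 := by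
        simp only [← mul_sum]
        congr 1
        exact swap4 _ _ _ _ _
    _ ≤ ((Q : ℝ) ^ 3 * q0) * ∑ p ∈ Pairs Q, ∑ r ∈ range (Q * q0),
        (((bx j H).card : ℝ) * (x * ((K : ℝ) ^ 2 / (K : ℝ) ^ j) / Real.log x ^ U)) := by
        gcongr with p hp r hr
        exact hp2 p hp r
    _ = _ := by
        rw [sum_const, sum_const, card_pairs, card_range, nsmul_eq_mul, nsmul_eq_mul]
        push_cast
        ring

end Pool.Agent.TH892
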